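import Pool.Agent.H49.RD.Cn3

/-!
MP_ba3460_lc, linear exponent, sections 2 and 3: parameters (helper82).
-/

set_option autoImplicit false
set_option linter.unusedSectionVars false

open Finset

namespace Pool.Agent.H82.RD

open Pool.Agent.H49.RG (nbr cell pts)
open Pool.Agent.H49.RD (Pl)

variable {ν ι : Type} [Fintype ν] [DecidableEq ν] {L g : ℕ}

/-- The rate of the families over a cell with `u` fixed rows. -/
noncomputable def rho (c : H49.RD.Num) (L u : ℕ) (B : ℝ) : ℝ := (1 / c.p) ^ (L - u) * B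

/-- The threshold per prescribed letter. -/
noncomputable def tht (c : H49.RD.Num) (L u : ℕ) (B l : ℝ) : ℝ := l / rho c L u B

/-- `x` is fine: it violates at no nonempty set of rows outside `U`. -/
def Fn (P : Pl ν L) (c : H49.RD.Num) (B l : ℝ) (U : Finset (Fin L)) (O : Finset ι) (y : ι → Fin g → ν)
    (x : Fin L → ν) : Prop :=
  NoVio P.G (1 / c.p) c.t0 c.D O y (1 / c.e0) (tht c L U.card B l) Uᶜ x

open Classical in
/-- `M ^ (|A^c| |T|)` times the proportion of the `o` with `y o = q` on `A` and `y o j`, `j ∉ A`,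
adjacent to `z` in the rows `T`. -/
noncomputable def Vf (P : Pl ν L) (c : H49.RD.Num) (O : Finset ι) (y : ι → Fin g → ν)
    (T : Finset (Fin L)) (A : Finset (Fin g)) (q : Fin g → ν) (z : Fin L → ν) : ℝ :=
  (1 / c.p) ^ ((g - A.card) * T.card) *
    ((O.filter (fun o => (∀ j ∈ A, y o j = q j) ∧
      ∀ i ∈ T, ∀ j, j ∉ A → P.G.Adj (z i) (y o j))).card : ℝ) / O.card

/-- The setting of sections 2 and 3. -/
structure Ctx (P : Pl ν L) (c : H49.RD.Num) (R : ℕ) (B l : ℝ) (U : Finset (Fin L)) (α : Fin L → ν)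
    (Φ : Finset ν) (O : Finset ι) (y : ι → Fin g → ν) : Prop where
  ok : P.OK c
  nk : c.OK R L
  tk : c.TOK L B l
  phi : Φ ⊆ P.Out
  phic : Φ.card ≤ 3 * L
  val : P.Val U α Φ
  gw : g ≤ c.w
  fa : Fam P U α Φ O y (rho c L U.card B)

/-! ### Numbers -/

section
variable {c : H49.RD.Num} {R : ℕ} {B l : ℝ}

lemma M_ge (hc : c.OK R L) : 1 ≤ 1 / c.p := by
  rw [le_div_iff₀ hc.p_pos, one_mul]; exact hc.p_le

lemma w_le_K (hc : c.OK R L) : c.w ≤ c.K1 := by have := hc.wK; omega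

lemma w_pos (hc : c.OK R L) : 1 ≤ c.w := by
  rw [hc.w_eq]
  exact Nat.mul_pos hc.R_pos hc.f_pos

lemma K_pos (hc : c.OK R L) : 1 ≤ c.K1 := (w_pos hc).trans (w_le_K hc)

lemma t0_le_K (hc : c.OK R L) : c.t0 ≤ c.K1 := by
  have h1 := hc.DK
  have h2 : 1 ≤ c.D * c.μ := Nat.mul_pos (by have := hc.D_ge; omega) hc.μ_pos
  calc c.t0 = 1 * c.t0 := (one_mul _).symm
    _ ≤ c.D * c.μ * c.t0 := Nat.mul_le_mul_right _ h2
    _ ≤ c.K1 := h1

lemma K_le_L (hc : c.OK R L) : 8 * c.K1 ≤ L := hc.K_le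

lemma e0_one (hc : c.OK R L) : 1 ≤ c.e0 := hc.e0_one

lemma eta_pos (hc : c.OK R L) : 0 < 1 / c.e0 := by
  have := e0_one hc
  positivity

lemma eta_le (hc : c.OK R L) : 1 / c.e0 ≤ 1 := by
  rw [div_le_one (by linarith [e0_one hc])]
  exact e0_one hc

/-- Expanding all boxes costs a constant. -/
lemma eta_g (hc : c.OK R L) (hg : g ≤ c.w) : (1 + (g : ℝ) * (1 / c.e0)) ^ L ≤ 5 / 4 := by
  have h0 := e0_one hc
  have h1 := hc.e0_ge
  have hL : (1 : ℝ) ≤ L := by exact_mod_cast hc.L_pos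
  have hw : (g : ℝ) ≤ c.w := by exact_mod_cast hg
  have hg0 : (0 : ℝ) ≤ g := Nat.cast_nonneg g
  have hx : (g : ℝ) * (1 / c.e0) ≤ 1 / (8 * L) := by
    rw [mul_one_div, div_le_div_iff₀ (by linarith) (by linarith)]
    nlinarith
  have hx0 : (0 : ℝ) ≤ (g : ℝ) * (1 / c.e0) := by positivity
  have h2 : (1 : ℝ) - 1 / 8 ≤ (1 - 1 / (8 * L)) ^ L := by
    have hb := one_add_mul_le_pow (a := -(1 / (8 * (L : ℝ)))) (by
      have : 1 / (8 * (L : ℝ)) ≤ 1 := by
        rw [div_le_one (by linarith)]; linarith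
      linarith) L
    have e1 : (1 : ℝ) + L * -(1 / (8 * (L : ℝ))) = 1 - 1 / 8 := by
      field_simp
      norm_num
    rw [e1] at hb
    exact hb.trans (le_of_eq (by ring))
  have h3 : (1 + (g : ℝ) * (1 / c.e0)) ^ L * (1 - 1 / (8 * (L : ℝ))) ^ L ≤ 1 := by
    rw [← mul_pow]
    refine pow_le_one₀ ?_ ?_
    · have : 1 / (8 * (L : ℝ)) ≤ 1 := by
        rw [div_le_one (by linarith)]; linarith
      exact mul_nonneg (by linarith) (by linarith)
    · have h4 : 0 ≤ 1 / (8 * (L : ℝ)) := by positivity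
      nlinarith
  have h5 : (0 : ℝ) ≤ (1 + (g : ℝ) * (1 / c.e0)) ^ L := by positivity
  nlinarith

lemma two_le_h (hc : c.OK R L) : (2 : ℝ) ^ (100 * L) ≤ c.h := hc.FL

lemma two_pow_le_h (hc : c.OK R L) (a : ℕ) (ha : a ≤ 100 * L) : (2 : ℝ) ^ a ≤ c.h :=
  (pow_le_pow_right₀ (by norm_num) ha).trans (two_le_h hc)

lemma C_le_h (hc : c.OK R L) : 4 ^ c.K1 * (64 * 2 ^ L : ℝ) ≤ c.h := by
  have := hc.FC1
  linarith

/-- The constants of the claim. -/
lemma N1_le (hc : c.OK R L) (hg : g ≤ c.w) :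
    (2 ^ (g + c.t0 + 1) / (1 / c.e0) ^ c.t0) ^ (8 * c.μ * c.D) ≤ c.h := by
  have he := e0_one hc
  have h1 : (2 : ℝ) ^ (g + c.t0 + 1) / (1 / c.e0) ^ c.t0 = 2 ^ (g + c.t0 + 1) * c.e0 ^ c.t0 := by
    rw [one_div, inv_pow, div_inv_eq_mul]
  rw [h1]
  refine (pow_le_pow_left₀ (by positivity) ?_ _).trans hc.FQ
  refine mul_le_mul_of_nonneg_right (pow_le_pow_right₀ (by norm_num) (by omega)) (by positivity)

lemma l_pos (ht : c.TOK L B l) : 0 < l := by linarith [ht.l_ge]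

lemma Kw_one (hc : c.OK R L) : (1 : ℝ) ≤ 2 * (c.K1 : ℝ) * c.w := by
  have h1 : (1 : ℝ) ≤ c.K1 := by exact_mod_cast K_pos hc
  have h2 : (1 : ℝ) ≤ c.w := by exact_mod_cast w_pos hc
  nlinarith

lemma l_le_B (hc : c.OK R L) (ht : c.TOK L B l) : l ≤ B := by
  have h1 := ht.mB
  have h2 := Kw_one hc
  have h3 := l_pos ht
  nlinarith

lemma B_pos (hc : c.OK R L) (ht : c.TOK L B l) : 0 < B := (l_pos ht).trans_le (l_le_B hc ht)

/-- The factor per letter. -/
noncomputable def blt (c : H49.RD.Num) (B l : ℝ) : ℝ := B / (2 * (c.K1 : ℝ) * c.w * l)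

lemma bl_ge (hc : c.OK R L) (ht : c.TOK L B l) : 1 ≤ blt c B l := by
  have h2 := Kw_one hc
  have h3 := l_pos ht
  unfold blt
  rw [le_div_iff₀ (by positivity), one_mul]
  exact ht.mB

/-- The factor per letter pays for `h ^ 100`. -/
lemma bl_pay (hc : c.OK R L) (ht : c.TOK L B l) : c.h ^ 100 ≤ blt c B l ^ c.μ := by
  have h1 := ht.pay
  have h2 := Kw_one hc
  have h3 := l_pos ht
  unfold blt
  rw [div_pow, le_div_iff₀ (by positivity)]
  exact h1

lemma rho_pos (hc : c.OK R L) (ht : c.TOK L B l) (u : ℕ) : 0 < rho c L u B := by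
  unfold rho
  have h1 := B_pos hc ht
  have h2 := hc.p_pos
  positivity

lemma tht_pos (hc : c.OK R L) (ht : c.TOK L B l) (u : ℕ) : 0 < tht c L u B l :=
  div_pos (l_pos ht) (rho_pos hc ht u)

/-- The critical inequality. -/
lemma M_tht (hc : c.OK R L) (ht : c.TOK L B l) (u t : ℕ) (h : t ≤ L - u) :
    (1 / c.p) ^ t * tht c L u B l ≤ l / B := by
  have h1 := B_pos hc ht
  have h2 := l_pos ht
  have hM := M_ge hc
  have hM0 : 0 < 1 / c.p := by linarith
  unfold tht rho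
  have e : (1 / c.p) ^ t * (l / ((1 / c.p) ^ (L - u) * B)) =
      l / B * ((1 / c.p) ^ t / (1 / c.p) ^ (L - u)) := by
    field_simp
  rw [e]
  refine mul_le_of_le_one_right (by positivity) ?_
  rw [div_le_one (by positivity)]
  exact pow_le_pow_right₀ hM h

lemma M_tht_one (hc : c.OK R L) (ht : c.TOK L B l) (u t : ℕ) (h : t ≤ L - u) :
    (1 / c.p) ^ t * tht c L u B l ≤ 1 := by
  refine (M_tht hc ht u t h).trans ?_
  rw [div_le_one (B_pos hc ht)]
  exact l_le_B hc ht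

lemma tht_cr (hc : c.OK R L) (ht : c.TOK L B l) (u t : ℕ) (h : t ≤ L - u) (hg : g ≤ c.w) :
    2 * (c.K1 : ℝ) * g * (blt c B l * (1 / c.p) ^ t * tht c L u B l) ≤ 1 := by
  have h1 := B_pos hc ht
  have h2 := l_pos ht
  have h3 := M_tht hc ht u t h
  have hK : (1 : ℝ) ≤ c.K1 := by exact_mod_cast K_pos hc
  have hw : (1 : ℝ) ≤ c.w := by exact_mod_cast w_pos hc
  have hgw : (g : ℝ) ≤ c.w := by exact_mod_cast hg
  have hg0 : (0 : ℝ) ≤ g := Nat.cast_nonneg g
  have h4 : (0 : ℝ) ≤ blt c B l := by linarith [bl_ge hc ht]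
  calc 2 * (c.K1 : ℝ) * g * (blt c B l * (1 / c.p) ^ t * tht c L u B l)
      = 2 * (c.K1 : ℝ) * g * blt c B l * ((1 / c.p) ^ t * tht c L u B l) := by ring
    _ ≤ 2 * (c.K1 : ℝ) * c.w * blt c B l * (l / B) := by
        refine mul_le_mul ?_ h3 ?_ (by positivity)
        · refine mul_le_mul_of_nonneg_right ?_ h4
          exact mul_le_mul_of_nonneg_left hgw (by positivity)
        · have h5 := rho_pos hc ht u
          have h6 := hc.p_pos
          unfold tht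
          positivity
    _ = 1 := by
        unfold blt
        field_simp

lemma M_t0 (hc : c.OK R L) (t : ℕ) (ht : t ≤ c.t0) : (1 / c.p) ^ t ≤ c.h :=
  (pow_le_pow_right₀ (M_ge hc) ht).trans hc.pt0

lemma N2_le {P : Pl ν L} (h : P.OK c) (hc : c.OK R L) : (P.Out.card : ℝ) ≤ c.h ^ 450 := by
  refine le_trans ?_ hc.No_le
  exact_mod_cast h.out_card

/-- The number of components, few rows. -/
lemma cnt_few (hc : c.OK R L) (hg : g ≤ c.w) (m : ℕ) (hm : 1 ≤ m) :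
    (2 : ℝ) ^ g * (2 ^ g) ^ m * (g : ℝ) ^ m ≤ c.h ^ (4 * m) := by
  have h1 : (g : ℝ) ≤ 2 ^ g := by exact_mod_cast (Nat.lt_two_pow_self (n := g)).le
  have hw : g ≤ 100 * L := by have := w_le_K hc; have := K_le_L hc; omega
  have h2 := two_pow_le_h hc g hw
  have h3 : (1 : ℝ) ≤ c.h := hc.h_ge
  have h4 : (1 : ℝ) ≤ 2 ^ g := one_le_pow₀ (by norm_num)
  calc (2 : ℝ) ^ g * (2 ^ g) ^ m * (g : ℝ) ^ m ≤ (2 ^ g) ^ m * (2 ^ g) ^ m * (2 ^ g) ^ m := by
        refine mul_le_mul (mul_le_mul_of_nonneg_right ?_ (by positivity))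
          (pow_le_pow_left₀ (Nat.cast_nonneg _) h1 _) (by positivity) (by positivity)
        exact le_self_pow₀ h4 (by omega)
    _ = (2 ^ g) ^ (3 * m) := by ring
    _ ≤ c.h ^ (3 * m) := pow_le_pow_left₀ (by positivity) h2 _
    _ ≤ c.h ^ (4 * m) := pow_le_pow_right₀ h3 (by omega)

/-- The number of components, many rows. -/
lemma cnt_many (hc : c.OK R L) (hg : g ≤ c.w) :
    (2 : ℝ) ^ g * (2 ^ g) ^ L * 2 ^ L * (g : ℝ) ^ c.t0 ≤ c.h ^ (4 * c.t0) := by
  have h1 : (g : ℝ) ≤ 2 ^ g := by exact_mod_cast (Nat.lt_two_pow_self (n := g)).le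
  have hw : g ≤ L := by have := w_le_K hc; have := K_le_L hc; omega
  have h2 := two_pow_le_h hc g (by omega)
  have h3 : (1 : ℝ) ≤ c.h := hc.h_ge
  have h5 : (2 ^ g : ℝ) ^ L ≤ c.h ^ c.t0 := by
    refine le_trans ?_ hc.FW
    rw [← pow_mul]
    exact pow_le_pow_right₀ (by norm_num) (Nat.mul_le_mul_right _ hg)
  have h6 : (2 : ℝ) ^ g * 2 ^ L ≤ c.h := by
    rw [← pow_add]
    exact two_pow_le_h hc _ (by omega)
  calc (2 : ℝ) ^ g * (2 ^ g) ^ L * 2 ^ L * (g : ℝ) ^ c.t0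
      = (2 ^ g * 2 ^ L) * (2 ^ g) ^ L * (g : ℝ) ^ c.t0 := by ring
    _ ≤ c.h ^ c.t0 * c.h ^ c.t0 * c.h ^ c.t0 := by
        refine mul_le_mul (mul_le_mul (h6.trans (le_self_pow₀ h3 (by have := hc.t0_pos; omega))) h5
          (by positivity) (by positivity)) ?_ (by positivity) (by positivity)
        exact (pow_le_pow_left₀ (Nat.cast_nonneg _) h1 _).trans
          (pow_le_pow_left₀ (by positivity) h2 _)
    _ = c.h ^ (3 * c.t0) := by ring
    _ ≤ c.h ^ (4 * c.t0) := pow_le_pow_right₀ h3 (by omega)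

end

/-- The spread in terms of the threshold. -/
lemma Ctx.hsp {P : Pl ν L} {c : H49.RD.Num} {R : ℕ} {B l : ℝ} {U : Finset (Fin L)} {α : Fin L → ν}
    {Φ : Finset ν} {O : Finset ι} {y : ι → Fin g → ν} (X : Ctx P c R B l U α Φ O y)
    (A : Finset (Fin g)) (q : Fin g → ν) :
    ((fam O y A q).card : ℝ) ≤ (1 / rho c L U.card B) ^ A.card * O.card := by
  have h1 := X.fa.spr A q
  have h2 := rho_pos X.nk X.tk U.card
  rw [one_div, inv_pow, inv_mul_eq_div, le_div_iff₀ (pow_pos h2 _)]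
  exact h1

lemma Ctx.hsp' {P : Pl ν L} {c : H49.RD.Num} {R : ℕ} {B l : ℝ} {U : Finset (Fin L)} {α : Fin L → ν}
    {Φ : Finset ν} {O : Finset ι} {y : ι → Fin g → ν} (X : Ctx P c R B l U α Φ O y)
    (A : Finset (Fin g)) (q : Fin g → ν) :
    ((fam O y A q).card : ℝ) ≤ tht c L U.card B l ^ A.card * O.card := by
  refine (X.hsp A q).trans (mul_le_mul_of_nonneg_right ?_ (Nat.cast_nonneg _))
  have h2 := rho_pos X.nk X.tk U.card
  refine pow_le_pow_left₀ (by positivity) ?_ _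
  unfold tht
  exact div_le_div_of_nonneg_right X.tk.l_ge h2.le

end Pool.Agent.H82.RD
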