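/-
ROW RD Vb (about 150 lines). The V bound: boxes on rows without violation.
af_step: for C : Finset (Fin g) and the lexicographic order (key j, j): prod_{j in C} (1 + H j) = 1 + sum_{j in C} H j * prod_{j' in C after j} (1 + H j')  (induction on #C: remove the first element m of C: C.filter (after m) = C \ {m}, and for j <> m after-sets inside C and C \ {m} are equal).
 bx G M C v yo = prod_{j in C} (1 + HH G M v (yo j)) by cases on adjacency.
vb_st. State (T1, s): all rows of T1 are smaller than all rows of R, #T1 <= t0, 1 <= #T1: |sum_fam prod_{T1} rf (..C l ∩ af D T1 s l (s l)) prod_R bx| <= η^#T1 (1 + g η)^#R th^#A #O. Induction on #R.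
 If R = ∅ or #T1 = t0: T := T1 ∪ R has min #T t0 = #T1, T \ T1 = R, T ⊆ P nonempty: NoVio gives |ZS| <= η^#T1 th^#A; (1 + gη)^#R >= 1.
 Otherwise l := R.min' : expand the box of l by af_step with key j := lv D (ld T1 s l j). Term 1: state (T1, s), R \ {l}. Term j in C l: T1' = insert l T1, s' = Function.update s l j: ld T1' s' l' j' for l' in T1 (l' < l) and for l' = l is the same as ld T1 s l' j', so the active factors are the same (and l gets HH (j) * bx (C l ∩ af D T1' s' l j)). #C l <= g terms.
 Total: η^#T1 (1+gη)^(#R-1) + g η^(#T1+1) (1+gη)^(#R-1) = η^#T1 (1+gη)^#R.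
vb_main: the same with T1 = ∅: induction on #R: |Z(R) - #fam| <= |Z(R \ l) - #fam| + sum_{j in C l} |state ({l}, j), R \ {l}| (t0 >= 1) <= ((1+gη)^(#R-1) - 1) + g η (1+gη)^(#R-1). If g = 0 all boxes are empty and both sides are 0 (there is no s).
-/
import Pool.Agent.H82.RD.Defs

set_option autoImplicit false
set_option linter.unusedSectionVars false

open Finset

namespace Pool.Agent.H82.RD

variable {ν ι : Type} [Fintype ν] [DecidableEq ν] {L g : ℕ}

private lemma af_step (key : Fin g → ℕ) (H : Fin g → ℝ) (C : Finset (Fin g)) :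
    ∏ j ∈ C, (1 + H j) = 1 + ∑ j ∈ C, H j *
      ∏ j' ∈ C ∩ univ.filter (fun j' => key j < key j' ∨ (key j = key j' ∧ j < j')),
        (1 + H j') := by
  classical
  refine Finset.induction_on_min_value (fun j => toLex (key j, j)) C ?_ ?_
  · simp
  · intro a s ha hmin ih
    have hlt : ∀ x ∈ s, key a < key x ∨ (key a = key x ∧ a < x) := by
      intro x hx
      have h1 := hmin x hx
      rw [Prod.Lex.toLex_le_toLex] at h1
      rcases h1 with h1 | ⟨h1, h2⟩
      · exact Or.inl h1
      · refine Or.inr ⟨h1, lt_of_le_of_ne h2 ?_⟩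
        rintro rfl
        exact ha hx
    have e1 : insert a s ∩ univ.filter
        (fun j' => key a < key j' ∨ (key a = key j' ∧ a < j')) = s := by
      ext z
      simp only [mem_inter, mem_insert, mem_filter, mem_univ, true_and]
      constructor
      · rintro ⟨rfl | hz, h⟩
        · rcases h with h | h
          · exact absurd h (lt_irrefl _)
          · exact absurd h.2 (lt_irrefl _)
        · exact hz
      · intro hz
        exact ⟨Or.inr hz, hlt z hz⟩
    have e2 : ∀ j ∈ s, insert a s ∩ univ.filter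
        (fun j' => key j < key j' ∨ (key j = key j' ∧ j < j')) =
        s ∩ univ.filter (fun j' => key j < key j' ∨ (key j = key j' ∧ j < j')) := by
      intro j hj
      ext z
      simp only [mem_inter, mem_insert, mem_filter, mem_univ, true_and]
      constructor
      · rintro ⟨rfl | hz, h⟩
        · exfalso
          rcases hlt j hj with h1 | ⟨h1, h2⟩ <;> rcases h with h3 | ⟨h3, h4⟩
          · omega
          · omega
          · omega
          · exact absurd h2 (not_lt_of_gt h4)
        · exact ⟨hz, h⟩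
      · rintro ⟨hz, h⟩
        exact ⟨Or.inr hz, h⟩
    rw [prod_insert ha, sum_insert ha, e1]
    have e3 : ∑ j ∈ s, H j * ∏ j' ∈ insert a s ∩ univ.filter
        (fun j' => key j < key j' ∨ (key j = key j' ∧ j < j')), (1 + H j') =
        ∑ j ∈ s, H j * ∏ j' ∈ s ∩ univ.filter
        (fun j' => key j < key j' ∨ (key j = key j' ∧ j < j')), (1 + H j') :=
      sum_congr rfl fun j hj => by rw [e2 j hj]
    rw [e3]
    linear_combination ih

private lemma bx_eq (G : SimpleGraph ν) (M : ℝ) (C : Finset (Fin g)) (v : ν) (yo : Fin g → ν) :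
    bx G M C v yo = ∏ j ∈ C, (1 + HH G M v (yo j)) := by
  unfold bx HH
  exact prod_congr rfl fun j _ => by ring

private lemma bx_step (G : SimpleGraph ν) (M : ℝ) (D : ℕ) (T1 : Finset (Fin L))
    (s : Fin L → Fin g) (a : Fin L) (C : Finset (Fin g)) (v : ν) (yo : Fin g → ν) :
    bx G M C v yo = 1 + ∑ j ∈ C, rf G M v j (C ∩ af D T1 s a j) yo := by
  rw [bx_eq, af_step (fun j => lv D (ld T1 s a j))]
  congr 1
  refine sum_congr rfl fun j _ => ?_
  unfold rf
  rw [bx_eq]
  rfl

private lemma ld_upd {T1 : Finset (Fin L)} {s : Fin L → Fin g} {a : Fin L}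
    (hT : ∀ l ∈ T1, l < a) (j : Fin g) {l : Fin L} (hl : l ≤ a) (j' : Fin g) :
    ld (insert a T1) (Function.update s a j) l j' = ld T1 s l j' := by
  unfold ld
  congr 1
  ext l'
  simp only [mem_filter, mem_insert]
  constructor
  · rintro ⟨rfl | h1, h2, h3⟩
    · exact absurd h2 (not_lt_of_ge hl)
    · rw [Function.update_of_ne (hT l' h1).ne] at h3
      exact ⟨h1, h2, h3⟩
  · rintro ⟨h1, h2, h3⟩
    refine ⟨Or.inr h1, h2, ?_⟩
    rw [Function.update_of_ne (hT l' h1).ne]
    exact h3

private lemma af_upd {D : ℕ} {T1 : Finset (Fin L)} {s : Fin L → Fin g} {a : Fin L}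
    (hT : ∀ l ∈ T1, l < a) (j : Fin g) {l : Fin L} (hl : l ≤ a) (j0 : Fin g) :
    af D (insert a T1) (Function.update s a j) l j0 = af D T1 s l j0 := by
  unfold af
  simp only [ld_upd hT j hl]

private lemma row_step (G : SimpleGraph ν) (M : ℝ) (D : ℕ) {T1 : Finset (Fin L)}
    (s : Fin L → Fin g) {a : Fin L} (hT : ∀ l ∈ T1, l < a) (C : Fin L → Finset (Fin g))
    (x : Fin L → ν) (yo : Fin g → ν) :
    (∏ l ∈ T1, rf G M (x l) (s l) (C l ∩ af D T1 s l (s l)) yo) * bx G M (C a) (x a) yo =
      (∏ l ∈ T1, rf G M (x l) (s l) (C l ∩ af D T1 s l (s l)) yo) +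
      ∑ j ∈ C a, ∏ l ∈ insert a T1, rf G M (x l) (Function.update s a j l)
        (C l ∩ af D (insert a T1) (Function.update s a j) l (Function.update s a j l)) yo := by
  have ha : a ∉ T1 := fun h => lt_irrefl _ (hT a h)
  rw [bx_step G M D T1 s a, mul_add, mul_one, mul_sum]
  congr 1
  refine sum_congr rfl fun j _ => ?_
  rw [prod_insert ha, Function.update_self, af_upd hT j le_rfl, mul_comm]
  congr 1
  refine prod_congr rfl fun l hl => ?_
  rw [Function.update_of_ne (hT l hl).ne, af_upd hT j (hT l hl).le]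

private lemma st_step (G : SimpleGraph ν) (M : ℝ) (D : ℕ) {T1 : Finset (Fin L)}
    (s : Fin L → Fin g) {a : Fin L} (hT : ∀ l ∈ T1, l < a) (C : Fin L → Finset (Fin g))
    (x : Fin L → ν) (y : ι → Fin g → ν) (F : Finset ι) {R : Finset (Fin L)} (ha : a ∉ R) :
    ∑ o ∈ F, (∏ l ∈ T1, rf G M (x l) (s l) (C l ∩ af D T1 s l (s l)) (y o)) *
        ∏ l ∈ insert a R, bx G M (C l) (x l) (y o) =
      (∑ o ∈ F, (∏ l ∈ T1, rf G M (x l) (s l) (C l ∩ af D T1 s l (s l)) (y o)) *
        ∏ l ∈ R, bx G M (C l) (x l) (y o)) +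
      ∑ j ∈ C a, ∑ o ∈ F, (∏ l ∈ insert a T1, rf G M (x l) (Function.update s a j l)
        (C l ∩ af D (insert a T1) (Function.update s a j) l (Function.update s a j l)) (y o)) *
        ∏ l ∈ R, bx G M (C l) (x l) (y o) := by
  rw [sum_comm, ← sum_add_distrib]
  refine sum_congr rfl fun o _ => ?_
  rw [prod_insert ha, ← mul_assoc, row_step G M D s hT C x (y o), add_mul, sum_mul]

private lemma no_ZS {G : SimpleGraph ν} {M η th : ℝ} {t0 D : ℕ} {O : Finset ι}
    {y : ι → Fin g → ν} (hO : O.Nonempty) {x : Fin L → ν} {P : Finset (Fin L)}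
    (hx : NoVio G M t0 D O y η th P x) (A : Finset (Fin g)) (q : Fin g → ν)
    (C : Fin L → Finset (Fin g)) (hC : ∀ l, Disjoint (C l) A) (s : Fin L → Fin g)
    {T1 R : Finset (Fin L)} (hT1 : T1 ⊆ P) (hR : R ⊆ P) (hne : T1.Nonempty)
    (hd : Disjoint T1 R) (hc : T1.card = min (T1 ∪ R).card t0) (hs : ∀ l ∈ T1, s l ∈ C l) :
    |∑ o ∈ fam O y A q, (∏ l ∈ T1, rf G M (x l) (s l) (C l ∩ af D T1 s l (s l)) (y o)) *
        ∏ l ∈ R, bx G M (C l) (x l) (y o)| ≤ η ^ T1.card * th ^ A.card * O.card := by
  have h1 := hx (T1 ∪ R) (union_subset hT1 hR) (hne.mono subset_union_left)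
  have h2 : |ZS G M D O y A q C s T1 R x| ≤ η ^ T1.card * th ^ A.card := by
    by_contra h
    push Not at h
    refine h1 ⟨A, q, C, s, T1, subset_union_left, hc, hC, hs, ?_⟩
    have e : (T1 ∪ R) \ T1 = R := by
      rw [union_sdiff_left]
      exact sdiff_eq_self_of_disjoint hd.symm
    rw [e]
    exact h
  have hO' : (0 : ℝ) < O.card := by exact_mod_cast hO.card_pos
  unfold ZS at h2
  rw [abs_div, abs_of_pos hO', div_le_iff₀ hO'] at h2
  exact h2

private lemma vb_st {G : SimpleGraph ν} {M η th : ℝ} (hη : 0 ≤ η) (hth : 0 ≤ th) {t0 D : ℕ}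
    {O : Finset ι} {y : ι → Fin g → ν} (hO : O.Nonempty) {x : Fin L → ν}
    {P : Finset (Fin L)} (hx : NoVio G M t0 D O y η th P x) (A : Finset (Fin g)) (q : Fin g → ν)
    (C : Fin L → Finset (Fin g)) (hC : ∀ l, Disjoint (C l) A) (R : Finset (Fin L)) :
    ∀ (T1 : Finset (Fin L)) (s : Fin L → Fin g), T1 ⊆ P → R ⊆ P → T1.Nonempty → T1.card ≤ t0 →
      (∀ l ∈ T1, ∀ r ∈ R, l < r) → (∀ l ∈ T1, s l ∈ C l) →
      |∑ o ∈ fam O y A q, (∏ l ∈ T1, rf G M (x l) (s l) (C l ∩ af D T1 s l (s l)) (y o)) *
        ∏ l ∈ R, bx G M (C l) (x l) (y o)| ≤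
        η ^ T1.card * (1 + g * η) ^ R.card * (th ^ A.card * O.card) := by
  have hgη : (0 : ℝ) ≤ g * η := mul_nonneg (Nat.cast_nonneg _) hη
  have hK : (0 : ℝ) ≤ th ^ A.card * O.card := by positivity
  refine Finset.induction_on_min R ?_ ?_
  · intro T1 s hT1 hR hne hc hlt hs
    have h := no_ZS hO hx A q C hC s hT1 hR hne (disjoint_empty_right _)
      (by rw [union_empty, min_eq_left hc]) hs
    rw [card_empty, pow_zero, mul_one, ← mul_assoc]
    exact h
  · intro a R' hmin ih T1 s hT1 hR hne hc hlt hs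
    have haR : a ∉ R' := fun h => lt_irrefl _ (hmin a h)
    have hTa : ∀ l ∈ T1, l < a := fun l hl => hlt l hl a (mem_insert_self _ _)
    have haT : a ∉ T1 := fun h => lt_irrefl _ (hTa a h)
    have hR' : R' ⊆ P := (subset_insert _ _).trans hR
    rcases Nat.lt_or_ge T1.card t0 with h0 | h0
    · rw [st_step G M D s hTa C x y _ haR]
      refine (abs_add_le _ _).trans ?_
      have h1 := ih T1 s hT1 hR' hne hc
        (fun l hl r hr => hlt l hl r (mem_insert_of_mem hr)) hs
      have h2 : ∀ j ∈ C a, |∑ o ∈ fam O y A q, (∏ l ∈ insert a T1,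
          rf G M (x l) (Function.update s a j l) (C l ∩ af D (insert a T1)
          (Function.update s a j) l (Function.update s a j l)) (y o)) *
          ∏ l ∈ R', bx G M (C l) (x l) (y o)| ≤
          η ^ (T1.card + 1) * (1 + g * η) ^ R'.card * (th ^ A.card * O.card) := by
        intro j hj
        have h3 := ih (insert a T1) (Function.update s a j)
          (insert_subset (hR (mem_insert_self _ _)) hT1) hR' (insert_nonempty _ _)
          (by rw [card_insert_of_notMem haT]; omega)
          (fun l hl r hr => by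
            rcases mem_insert.1 hl with rfl | hl
            · exact hmin r hr
            · exact hlt l hl r (mem_insert_of_mem hr))
          (fun l hl => by
            rcases mem_insert.1 hl with rfl | hl
            · rw [Function.update_self]; exact hj
            · rw [Function.update_of_ne (hTa l hl).ne]; exact hs l hl)
        rwa [card_insert_of_notMem haT] at h3
      have h4 : |∑ j ∈ C a, ∑ o ∈ fam O y A q, (∏ l ∈ insert a T1,
          rf G M (x l) (Function.update s a j l) (C l ∩ af D (insert a T1)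
          (Function.update s a j) l (Function.update s a j l)) (y o)) *
          ∏ l ∈ R', bx G M (C l) (x l) (y o)| ≤
          g * (η ^ (T1.card + 1) * (1 + g * η) ^ R'.card * (th ^ A.card * O.card)) := by
        refine (abs_sum_le_sum_abs _ _).trans ((sum_le_card_nsmul _ _ _ h2).trans ?_)
        rw [nsmul_eq_mul]
        refine mul_le_mul_of_nonneg_right ?_ (by positivity)
        exact_mod_cast (card_le_univ (C a)).trans (by rw [Fintype.card_fin])
      rw [card_insert_of_notMem haR]
      refine (add_le_add h1 h4).trans (le_of_eq ?_)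
      ring
    · have h := no_ZS hO hx A q C hC s hT1 hR hne
        (disjoint_left.2 fun l hl hl' => lt_irrefl _ (hlt l hl l hl'))
        (by
          rw [min_eq_right (h0.trans (card_le_card subset_union_left))]
          exact le_antisymm hc h0) hs
      refine h.trans ?_
      rw [mul_assoc]
      refine mul_le_mul_of_nonneg_right ?_ hK
      exact le_mul_of_one_le_right (by positivity) (one_le_pow₀ (by linarith))

theorem vb_main {G : SimpleGraph ν} {M η th : ℝ} (hη : 0 ≤ η) (hth : 0 ≤ th) {t0 D : ℕ}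
    (ht0 : 1 ≤ t0) {O : Finset ι} {y : ι → Fin g → ν} (hO : O.Nonempty) {x : Fin L → ν}
    {P : Finset (Fin L)} (hx : NoVio G M t0 D O y η th P x) (A : Finset (Fin g)) (q : Fin g → ν)
    (C : Fin L → Finset (Fin g)) (hC : ∀ l, Disjoint (C l) A) (R : Finset (Fin L)) (hR : R ⊆ P) :
    |(∑ o ∈ fam O y A q, ∏ l ∈ R, bx G M (C l) (x l) (y o)) - (fam O y A q).card| ≤
      ((1 + g * η) ^ R.card - 1) * th ^ A.card * O.card := by
  have hgη : (0 : ℝ) ≤ g * η := mul_nonneg (Nat.cast_nonneg _) hη
  have hK : (0 : ℝ) ≤ th ^ A.card * O.card := by positivity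
  revert hR
  refine Finset.induction_on_min R ?_ ?_
  · intro _
    simp
  · intro a R' hmin ih hR
    have haR : a ∉ R' := fun h => lt_irrefl _ (hmin a h)
    have hR' : R' ⊆ P := (subset_insert _ _).trans hR
    have h1 := ih hR'
    rw [card_insert_of_notMem haR]
    rcases (C a).eq_empty_or_nonempty with he | ⟨j0, hj0⟩
    · have e1 : ∀ o, bx G M (C a) (x a) (y o) = 1 := by
        intro o
        unfold bx
        rw [he, prod_empty]
      have e2 : ∀ o ∈ fam O y A q, ∏ l ∈ insert a R', bx G M (C l) (x l) (y o) =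
          ∏ l ∈ R', bx G M (C l) (x l) (y o) := by
        intro o _
        rw [prod_insert haR, e1, one_mul]
      rw [sum_congr rfl e2]
      refine h1.trans ?_
      rw [mul_assoc, mul_assoc]
      refine mul_le_mul_of_nonneg_right ?_ hK
      exact sub_le_sub_right
        (pow_le_pow_right₀ (show (1 : ℝ) ≤ 1 + g * η by linarith) (Nat.le_succ R'.card)) 1
    · have h2 := st_step G M D (T1 := ∅) (fun _ => j0) (a := a) (fun l hl => absurd hl (notMem_empty _))
        C x y (fam O y A q) haR
      simp only [prod_empty, one_mul, insert_empty_eq] at h2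
      rw [h2]
      have h3 : ∀ j ∈ C a, |∑ o ∈ fam O y A q, (∏ l ∈ ({a} : Finset (Fin L)),
          rf G M (x l) (Function.update (fun _ => j0) a j l) (C l ∩ af D {a}
          (Function.update (fun _ => j0) a j) l (Function.update (fun _ => j0) a j l)) (y o)) *
          ∏ l ∈ R', bx G M (C l) (x l) (y o)| ≤
          η * (1 + g * η) ^ R'.card * (th ^ A.card * O.card) := by
        intro j hj
        have h4 := vb_st hη hth hO hx A q C hC R' {a} (Function.update (fun _ => j0) a j)
          (singleton_subset_iff.2 (hR (mem_insert_self _ _))) hR' (singleton_nonempty _)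
          (by rw [card_singleton]; exact ht0)
          (fun l hl r hr => by
            rw [mem_singleton.1 hl]
            exact hmin r hr)
          (fun l hl => by
            rw [mem_singleton.1 hl, Function.update_self]
            exact hj)
        rwa [card_singleton, pow_one] at h4
      have h5 : |∑ j ∈ C a, ∑ o ∈ fam O y A q, (∏ l ∈ ({a} : Finset (Fin L)),
          rf G M (x l) (Function.update (fun _ => j0) a j l) (C l ∩ af D {a}
          (Function.update (fun _ => j0) a j) l (Function.update (fun _ => j0) a j l)) (y o)) *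
          ∏ l ∈ R', bx G M (C l) (x l) (y o)| ≤
          g * (η * (1 + g * η) ^ R'.card * (th ^ A.card * O.card)) := by
        refine (abs_sum_le_sum_abs _ _).trans ((sum_le_card_nsmul _ _ _ h3).trans ?_)
        rw [nsmul_eq_mul]
        refine mul_le_mul_of_nonneg_right ?_ (by positivity)
        exact_mod_cast (card_le_univ (C a)).trans (by rw [Fintype.card_fin])
      rw [add_sub_right_comm]
      refine (abs_add_le _ _).trans ((add_le_add h1 h5).trans (le_of_eq ?_))
      ring

theorem vb_le {G : SimpleGraph ν} {M η th : ℝ} (hη : 0 ≤ η) (hgη : (1 + g * η) ^ L ≤ 5 / 4)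
    (hth : 0 ≤ th) {t0 D : ℕ} (ht0 : 1 ≤ t0) {O : Finset ι} {y : ι → Fin g → ν} (hO : O.Nonempty)
    (hsp : ∀ (A : Finset (Fin g)) (q : Fin g → ν), ((fam O y A q).card : ℝ) ≤ th ^ A.card * O.card)
    {x : Fin L → ν} {P : Finset (Fin L)} (hx : NoVio G M t0 D O y η th P x) (A : Finset (Fin g))
    (q : Fin g → ν) (C : Fin L → Finset (Fin g)) (hC : ∀ l, Disjoint (C l) A)
    (R : Finset (Fin L)) (hR : R ⊆ P) :
    ∑ o ∈ fam O y A q, ∏ l ∈ R, bx G M (C l) (x l) (y o) ≤ 5 / 4 * th ^ A.card * O.card := by
  have h1 := vb_main hη hth ht0 hO hx A q C hC R hR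
  have h2 := hsp A q
  have h3 : (1 + (g : ℝ) * η) ^ R.card ≤ 5 / 4 := by
    refine (pow_le_pow_right₀ ?_ ?_).trans hgη
    · have : (0 : ℝ) ≤ g * η := mul_nonneg (Nat.cast_nonneg _) hη
      linarith
    · exact (card_le_univ R).trans (by rw [Fintype.card_fin])
  have h4 : (0 : ℝ) ≤ th ^ A.card * O.card := by positivity
  have h5 := (abs_le.1 h1).2
  nlinarith

end Pool.Agent.H82.RD
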