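/-
ROW RD Fne (about 80 lines; adapt the finished proof of Pool/Agent/H82/RL/Fne.lean). M = 1/p.
PROOF. Vf(Uᶜ, A, q) = (sum_{o in fam O y A q} prod_{l in Uᶜ} bx P.G M (Aᶜ) (x l) (y o)) / #O  (bx = M^#Aᶜ if all letters on Aᶜ are adjacent, else 0; #Aᶜ = g - #A).
 Fn is NoVio on Uᶜ: fine_up is vb_le (Vb.lean) with C l := Aᶜ, η = 1/e0 (eta_pos), eta_g, th = tht (tht_pos), t0_pos, spread as in Ctx.hsp' (l >= 1): <= 5/4 th^#A <= 2 th^#A. fine_one: vb_main with A = ∅: #fam = #O (fam_empty), |Vf - 1| <= (1 + g/e0)^#Uᶜ - 1 <= 1/4 (eta_g, #Uᶜ <= L).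
-/
import Pool.Agent.H82.RD.Par
import Pool.Agent.H82.RD.Vb

set_option autoImplicit false
set_option linter.unusedSectionVars false

open Finset

namespace Pool.Agent.H82.RD

open Pool.Agent.H49.RG (nbr cell pts)
open Pool.Agent.H49.RD (Pl)

variable {ν ι : Type} [Fintype ν] [DecidableEq ν] {L g : ℕ}

/-- Box form of the proportion. -/
private lemma Fne_exp {P : Pl ν L} {c : H49.RD.Num} (U : Finset (Fin L)) (O : Finset ι)
    (y : ι → Fin g → ν) (x : Fin L → ν) (A : Finset (Fin g)) (q : Fin g → ν) :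
    Vf P c O y Uᶜ A q x =
      (∑ o ∈ fam O y A q, ∏ l ∈ Uᶜ, bx P.G (1 / c.p) Aᶜ (x l) (y o)) / O.card := by
  classical
  have h1 : ∀ o ∈ fam O y A q, ∏ l ∈ Uᶜ, bx P.G (1 / c.p) Aᶜ (x l) (y o) =
      if (∀ e ∈ Uᶜ ×ˢ Aᶜ, P.G.Adj (x e.1) (y o e.2)) then
        (1 / c.p) ^ ((g - A.card) * (Uᶜ).card) else 0 := by
    intro o _
    have h2 : ∏ l ∈ Uᶜ, bx P.G (1 / c.p) Aᶜ (x l) (y o) =
        ∏ e ∈ Uᶜ ×ˢ Aᶜ, (if P.G.Adj (x e.1) (y o e.2) then (1 / c.p) else 0) := by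
      rw [prod_product]
      refine prod_congr rfl fun l _ => ?_
      unfold bx
      refine prod_congr rfl fun j _ => ?_
      split_ifs <;> rfl
    rw [h2, prod_ite_zero, prod_const, card_product, card_compl A,
      Fintype.card_fin, mul_comm (Uᶜ).card]
    split_ifs <;> rfl
  rw [sum_congr rfl h1, ← sum_filter, sum_const, nsmul_eq_mul]
  unfold Vf
  rw [mul_comm]
  congr 3
  · refine congrArg card ?_
    ext o
    simp only [mem_filter, mem_fam, mem_product, mem_compl]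
    constructor
    · rintro ⟨h2, h3, h4⟩
      exact ⟨⟨h2, h3⟩, fun e he => h4 e.1 he.1 e.2 he.2⟩
    · rintro ⟨⟨h2, h3⟩, h4⟩
      exact ⟨h2, h3, fun i hi j hj => h4 (i, j) ⟨hi, hj⟩⟩

theorem fine_up {P : Pl ν L} {c : H49.RD.Num} {R : ℕ} (hc : c.OK R L) {B l : ℝ}
    (ht : c.TOK L B l) (U : Finset (Fin L)) (α : Fin L → ν) (Φ : Finset ν) (hg : g ≤ c.w)
    (O : Finset ι) (y : ι → Fin g → ν) (hy : Fam P U α Φ O y (rho c L U.card B))
    (x : Fin L → ν) (hx : Fn P c B l U O y x) (A : Finset (Fin g)) (q : Fin g → ν) :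
    Vf P c O y Uᶜ A q x ≤ 2 * tht c L U.card B l ^ A.card := by
  have hth0 : 0 < tht c L U.card B l := tht_pos hc ht _
  have hO : (0 : ℝ) < O.card := by exact_mod_cast hy.ne.card_pos
  have hr := rho_pos hc ht U.card
  have hsp : ∀ (A : Finset (Fin g)) (q : Fin g → ν),
      ((fam O y A q).card : ℝ) ≤ tht c L U.card B l ^ A.card * O.card := by
    intro A q
    have h3 := hy.spr A q
    have h4 : ((fam O y A q).card : ℝ) ≤ (1 / rho c L U.card B) ^ A.card * O.card := by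
      rw [one_div, inv_pow, inv_mul_eq_div, le_div_iff₀ (pow_pos hr _)]
      exact h3
    refine h4.trans (mul_le_mul_of_nonneg_right ?_ (Nat.cast_nonneg _))
    refine pow_le_pow_left₀ (by positivity) ?_ _
    unfold tht
    exact div_le_div_of_nonneg_right ht.l_ge hr.le
  have h1 := vb_le (eta_pos hc).le (eta_g hc hg) hth0.le hc.t0_pos hy.ne hsp hx A q
    (fun _ => Aᶜ) (fun _ => disjoint_compl_left) Uᶜ (Subset.refl _)
  rw [Fne_exp, div_le_iff₀ hO]
  refine h1.trans ?_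
  have h6 : 0 < tht c L U.card B l ^ A.card := pow_pos hth0 _
  nlinarith [mul_pos h6 hO]

theorem fine_one {P : Pl ν L} {c : H49.RD.Num} {R : ℕ} (hc : c.OK R L) {B l : ℝ}
    (ht : c.TOK L B l) (U : Finset (Fin L)) (α : Fin L → ν) (Φ : Finset ν) (hg : g ≤ c.w)
    (O : Finset ι) (y : ι → Fin g → ν) (hy : Fam P U α Φ O y (rho c L U.card B))
    (x : Fin L → ν) (hx : Fn P c B l U O y x) (q : Fin g → ν) :
    3 / 4 ≤ Vf P c O y Uᶜ ∅ q x ∧ Vf P c O y Uᶜ ∅ q x ≤ 5 / 4 := by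
  have hO : (0 : ℝ) < O.card := by exact_mod_cast hy.ne.card_pos
  have h1 := vb_main (eta_pos hc).le (tht_pos hc ht U.card).le hc.t0_pos hy.ne hx ∅ q
    (fun _ => ∅ᶜ) (fun _ => disjoint_compl_left) Uᶜ (Subset.refl _)
  rw [card_empty, pow_zero, mul_one, fam_empty] at h1
  have h3 : (1 + (g : ℝ) * (1 / c.e0)) ^ (Uᶜ : Finset (Fin L)).card ≤ 5 / 4 := by
    refine (pow_le_pow_right₀ ?_ ?_).trans (eta_g hc hg)
    · have : (0 : ℝ) ≤ g * (1 / c.e0) := mul_nonneg (Nat.cast_nonneg _) (eta_pos hc).le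
      linarith
    · exact (card_le_univ _).trans (by rw [Fintype.card_fin])
  obtain ⟨h4, h5⟩ := abs_le.1 h1
  rw [Fne_exp, fam_empty, le_div_iff₀ hO, div_le_iff₀ hO]
  constructor <;> nlinarith

end Pool.Agent.H82.RD
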