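/-
ROW RD Cpg (about 90 lines; adapt Pool/Agent/H82/RL/Cpy.lean, helper80). One copy, the earlier letters being the set B, for an abstract nonnegative weight f.
PROOF. Group the o of fam O y A1 om by A' = N.filter (y o j in B): the left side is sum_{A' in N.powerset} La^#A' sum_{o : ..} f o; for fixed A' the inner sum is <= sum over q' in Fintype.piFinset (fun j => if j in A' then B else {om j}) of sum_{o in fam O y (A1 ∪ A') q'} f o <= #B^#A' K0 κ^#A'.
 Total K0 sum_{A'} (#B La κ)^#A' = K0 (1 + #B La κ)^#N <= K0 (1 + #B La κ)^g (Finset.sum_pow_mul_eq_add_pow).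
-/
import Pool.Agent.H82.RD.Defs

set_option autoImplicit false
set_option linter.unusedSectionVars false

open Finset

namespace Pool.Agent.H82.RD

variable {ν ι : Type} [Fintype ν] [DecidableEq ν] {L g : ℕ}

theorem copy_gen {κ K0 La : ℝ} (hκ : 0 ≤ κ) (hK0 : 0 ≤ K0) (hLa : 1 ≤ La) {O : Finset ι}
    {y : ι → Fin g → ν} (f : ι → ℝ) (hf : ∀ o, 0 ≤ f o) (A1 N : Finset (Fin g))
    (hAN : Disjoint A1 N) (om : Fin g → ν)
    (hb : ∀ A' ⊆ N, ∀ q' : Fin g → ν, ∑ o ∈ fam O y (A1 ∪ A') q', f o ≤ K0 * κ ^ A'.card)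
    (B : Finset ν) :
    ∑ o ∈ fam O y A1 om, f o * La ^ ((N.filter fun j => y o j ∈ B).card) ≤
      K0 * (1 + B.card * (La * κ)) ^ g := by
  classical
  have hL0 : (0 : ℝ) < La := by linarith
  set bp : ι → Finset (Fin g) := fun o => N.filter fun j => y o j ∈ B with hbp
  -- group by the positions with letters in `B`
  have h1 : ∑ o ∈ fam O y A1 om, f o * La ^ (bp o).card =
      ∑ A' ∈ N.powerset, ∑ o ∈ (fam O y A1 om).filter (fun o => bp o = A'),
        f o * La ^ (bp o).card := by
    rw [sum_fiberwise_of_maps_to]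
    intro o _
    exact mem_powerset.2 (filter_subset _ _)
  -- the sum for one set of positions
  have h2 : ∀ A' ∈ N.powerset, ∑ o ∈ (fam O y A1 om).filter (fun o => bp o = A'),
        f o * La ^ (bp o).card ≤ La ^ A'.card * ((B.card : ℝ) ^ A'.card *
          (K0 * κ ^ A'.card)) := by
    intro A' hA'
    rw [mem_powerset] at hA'
    have hAA' : Disjoint A1 A' := hAN.mono_right hA'
    have e1 : ∑ o ∈ (fam O y A1 om).filter (fun o => bp o = A'), f o * La ^ (bp o).card =
        La ^ A'.card * ∑ o ∈ (fam O y A1 om).filter (fun o => bp o = A'), f o := by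
      rw [mul_sum]
      refine sum_congr rfl fun o ho => ?_
      rw [(mem_filter.1 ho).2, mul_comm]
    rw [e1]
    refine mul_le_mul_of_nonneg_left ?_ (by positivity)
    set Q : Finset (Fin g → ν) := Fintype.piFinset (fun j => if j ∈ A' then B else {om j}) with hQ
    set mp : ι → (Fin g → ν) := fun o j => if j ∈ A' then y o j else om j with hmp
    have hQc : (Q.card : ℝ) = (B.card : ℝ) ^ A'.card := by
      rw [hQ, Fintype.card_piFinset]
      push_cast
      have : ∀ j : Fin g, (((if j ∈ A' then B else {om j} : Finset ν).card : ℕ) : ℝ) =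
          if j ∈ A' then (B.card : ℝ) else 1 := by
        intro j
        split_ifs <;> simp
      rw [prod_congr rfl fun j _ => this j, prod_ite_mem, univ_inter, prod_const]
    have e2 : ∑ o ∈ (fam O y A1 om).filter (fun o => bp o = A'), f o ≤
        ∑ q ∈ Q, ∑ o ∈ fam O y (A1 ∪ A') q, f o := by
      rw [← sum_fiberwise_of_maps_to (s := (fam O y A1 om).filter (fun o => bp o = A'))
        (t := Q) (g := mp)]
      · refine sum_le_sum fun q _ => ?_
        refine sum_le_sum_of_subset_of_nonneg ?_ fun o _ _ => hf o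
        intro o ho
        obtain ⟨ho1, ho2⟩ := mem_filter.1 ho
        obtain ⟨ho3, _⟩ := mem_filter.1 ho1
        obtain ⟨ho4, ho5⟩ := mem_fam.1 ho3
        refine mem_fam.2 ⟨ho4, fun j hj => ?_⟩
        rw [← ho2]
        rcases mem_union.1 hj with hj | hj
        · have : j ∉ A' := fun h => disjoint_left.1 hAA' hj h
          simp only [hmp, this, if_false]
          exact ho5 j hj
        · simp only [hmp, hj, if_true]
      · intro o ho
        obtain ⟨_, ho1⟩ := mem_filter.1 ho
        rw [hQ, Fintype.mem_piFinset]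
        intro j
        by_cases hj : j ∈ A'
        · simp only [hmp, hj, if_true]
          rw [← ho1] at hj
          exact (mem_filter.1 hj).2
        · simp [hmp, hj]
    refine e2.trans ?_
    rw [← hQc, ← nsmul_eq_mul, ← sum_const]
    exact sum_le_sum fun q _ => hb A' hA' q
  -- the sum over the sets of positions
  rw [h1]
  refine (sum_le_sum h2).trans ?_
  have h3 : ∀ A' ∈ N.powerset, La ^ A'.card * ((B.card : ℝ) ^ A'.card * (K0 * κ ^ A'.card)) =
      K0 * ((B.card : ℝ) * (La * κ)) ^ A'.card := by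
    intro A' _
    rw [mul_pow, mul_pow]
    ring
  rw [sum_congr rfl h3, ← mul_sum]
  have hc0 : (0 : ℝ) ≤ (B.card : ℝ) * (La * κ) := by positivity
  have h4 : ∑ A' ∈ N.powerset, ((B.card : ℝ) * (La * κ)) ^ A'.card =
      (1 + B.card * (La * κ)) ^ N.card := by
    have := Finset.sum_pow_mul_eq_add_pow ((B.card : ℝ) * (La * κ)) 1 N
    simp only [one_pow, mul_one] at this
    rw [this, add_comm]
  rw [h4]
  refine mul_le_mul_of_nonneg_left ?_ hK0
  refine pow_le_pow_right₀ (by linarith) ?_
  have := card_le_univ N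
  rwa [Fintype.card_fin] at this

end Pool.Agent.H82.RD
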