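/-
ROW RowI (about 60 lines). RowOK for an indexed family of letters.
PROOF. D := I.image lt, a d := #(I.filter (lt i = d)): prod_{i in I} HH v (lt i) = prod_{d in D} HH v d ^ a d (Finset.prod_comp), 1 <= a d <= #I <= m, #D <= #I <= s,
 sum_{d in D} (a d - 1) = #I - #D (Finset.card_eq_sum_card_image; Nat.sub with a d >= 1). A lonely index gives a d = 1.
-/
import Pool.Agent.H82.RD.Defs

set_option autoImplicit false
set_option linter.unusedSectionVars false

open Finset

namespace Pool.Agent.H82.RD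

variable {ν : Type} [Fintype ν] [DecidableEq ν]

theorem row_index {G : SimpleGraph ν} {M C τ : ℝ} {V Λ : Finset ν} {s m : ℕ}
    (h : RowOK G M V Λ s m C τ) {κ : Type} (I : Finset κ) (lt : κ → ν)
    (hΛ : ∀ i ∈ I, lt i ∈ Λ) (hs : I.card ≤ s) (hm : I.card ≤ m) :
    |∑ v ∈ V, ∏ i ∈ I, HH G M v (lt i)| ≤ V.card * (C * M ^ (I.card - (I.image lt).card)) ∧
    ((∃ i ∈ I, ∀ i' ∈ I, lt i' = lt i → i' = i) →
      τ * |∑ v ∈ V, ∏ i ∈ I, HH G M v (lt i)| ≤ V.card * (C * M ^ (I.card - (I.image lt).card))) := by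
  classical
  have ha : ∀ d ∈ I.image lt, 1 ≤ (I.filter (fun i => lt i = d)).card ∧
      (I.filter (fun i => lt i = d)).card ≤ m := by
    intro d hd
    obtain ⟨i, hi, rfl⟩ := mem_image.1 hd
    exact ⟨card_pos.2 ⟨i, mem_filter.2 ⟨hi, rfl⟩⟩, le_trans (card_le_card (filter_subset _ _)) hm⟩
  have hsum : ∑ d ∈ I.image lt, ((I.filter (fun i => lt i = d)).card - 1) =
      I.card - (I.image lt).card := by
    have e1 : (I.image lt).card = ∑ _d ∈ I.image lt, 1 := by simp
    have e2 : I.card = ∑ d ∈ I.image lt, (I.filter (fun i => lt i = d)).card :=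
      card_eq_sum_card_image lt I
    have e3 : ∑ d ∈ I.image lt, ((I.filter (fun i => lt i = d)).card - 1) +
        (I.image lt).card = I.card := by
      rw [e2, e1, ← sum_add_distrib]
      exact sum_congr rfl fun d hd => Nat.sub_add_cancel (ha d hd).1
    omega
  have hprod : ∀ v, ∏ i ∈ I, HH G M v (lt i) =
      ∏ d ∈ I.image lt, HH G M v d ^ (I.filter (fun i => lt i = d)).card :=
    fun v => prod_comp (fun d => HH G M v d) lt
  have hD : I.image lt ⊆ Λ := by
    intro d hd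
    obtain ⟨i, hi, rfl⟩ := mem_image.1 hd
    exact hΛ i hi
  obtain ⟨h1, h2⟩ := h (I.image lt) (fun d => (I.filter (fun i => lt i = d)).card) hD
    (card_image_le.trans hs) ha
  simp only [hprod]
  rw [hsum] at h1 h2
  refine ⟨h1, ?_⟩
  rintro ⟨i, hi, hl⟩
  refine h2 ⟨lt i, mem_image_of_mem lt hi, ?_⟩
  rw [card_eq_one]
  refine ⟨i, ?_⟩
  ext i'
  rw [mem_filter, mem_singleton]
  constructor
  · rintro ⟨h3, h4⟩
    exact hl i' h3 h4
  · rintro rfl
    exact ⟨hi, rfl⟩

end Pool.Agent.H82.RD
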