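/-
ROW RD Rw5 (about 120 lines). One row: server letters with boxes. y (o r) j0 are the server letters, D the box.
PROOF. bx G M D v yo = prod_{j in D} (1 + HH G M v (yo j)) (cases on adjacency). So prod_r rf v j0 D (y (o r)) = (prod_r HH v (y (o r) j0)) * prod_{(r,j) in univ ×ˢ D} (1 + HH v (y (o r) j)) = sum_{F in (univ ×ˢ D).powerset} prod_{i in F ∪ univ ×ˢ {j0}} HH v (lt i), lt (r,j) = y (o r) j (Finset.prod_one_add; the union is disjoint, j0 not in D).
 For each F let I := F ∪ univ ×ˢ {j0}: #I <= 2k (#D + 1) <= 2 KK, row_index (RowI.lean): |sum_v| <= #V C M^(#I - #I.image). #I - #I.image <= #I' - #I'.image for I ⊆ I' := univ ×ˢ insert j0 D (adding one index raises # by 1 and the image by at most 1: card_image_le on I' \ I and card_union_le), M >= 1. Number of F: 2^(2k #D) <= 4^KK.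
 If the server index (r, j0) is alone in I', it is alone in every I, so row_index gives the factor τ in every term (τ |sum| <= sum of τ |terms|).
-/
import Pool.Agent.H82.RD.RowI

set_option autoImplicit false
set_option linter.unusedSectionVars false

open Finset

namespace Pool.Agent.H82.RD

variable {ν ι : Type} [Fintype ν] [DecidableEq ν] {L g : ℕ}

private lemma Rw5_bx (G : SimpleGraph ν) (M : ℝ) (D : Finset (Fin g)) (v : ν) (yo : Fin g → ν) :
    bx G M D v yo = ∏ j ∈ D, (1 + HH G M v (yo j)) := by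
  classical
  unfold bx HH
  refine prod_congr rfl fun j _ => ?_
  by_cases h : G.Adj v (yo j)
  · simp only [if_pos h]; ring
  · simp only [if_neg h]; ring

private lemma Rw5_exp (G : SimpleGraph ν) (M : ℝ) (k : ℕ) (y : ι → Fin g → ν) (j0 : Fin g)
    (D : Finset (Fin g)) (hj0 : j0 ∉ D) (o : Fin k → ι) (v : ν) :
    ∏ r, rf G M v j0 D (y (o r)) =
      ∑ F ∈ ((univ : Finset (Fin k)) ×ˢ D).powerset,
        ∏ i ∈ F ∪ (univ : Finset (Fin k)) ×ˢ {j0}, HH G M v (y (o i.1) i.2) := by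
  have h1 : ∏ r, rf G M v j0 D (y (o r)) =
      (∏ i ∈ (univ : Finset (Fin k)) ×ˢ D, (1 + HH G M v (y (o i.1) i.2))) *
        ∏ i ∈ (univ : Finset (Fin k)) ×ˢ {j0}, HH G M v (y (o i.1) i.2) := by
    rw [prod_product, prod_product, ← prod_mul_distrib]
    refine prod_congr rfl fun r _ => ?_
    unfold rf
    rw [Rw5_bx, prod_singleton, mul_comm]
  rw [h1, prod_one_add, sum_mul]
  refine sum_congr rfl fun F hF => ?_
  rw [prod_union]
  rw [disjoint_left]
  rintro ⟨r, j⟩ h2 h3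
  have h4 := mem_product.1 (mem_powerset.1 hF h2)
  have h5 := mem_product.1 h3
  rw [mem_singleton] at h5
  exact hj0 (h5.2 ▸ h4.2)

private lemma Rw5_sum (G : SimpleGraph ν) (M : ℝ) (V : Finset ν) (k : ℕ) (y : ι → Fin g → ν)
    (j0 : Fin g) (D : Finset (Fin g)) (hj0 : j0 ∉ D) (o : Fin k → ι) (t X : ℝ) (ht : 0 ≤ t)
    (h : ∀ F ∈ ((univ : Finset (Fin k)) ×ˢ D).powerset,
      t * |∑ v ∈ V, ∏ i ∈ F ∪ (univ : Finset (Fin k)) ×ˢ {j0}, HH G M v (y (o i.1) i.2)| ≤ X) :
    t * |∑ v ∈ V, ∏ r, rf G M v j0 D (y (o r))| ≤ 2 ^ (k * D.card) * X := by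
  have h1 : ∑ v ∈ V, ∏ r, rf G M v j0 D (y (o r)) =
      ∑ F ∈ ((univ : Finset (Fin k)) ×ˢ D).powerset,
        ∑ v ∈ V, ∏ i ∈ F ∪ (univ : Finset (Fin k)) ×ˢ {j0}, HH G M v (y (o i.1) i.2) := by
    rw [sum_comm]
    exact sum_congr rfl fun v _ => Rw5_exp G M k y j0 D hj0 o v
  rw [h1]
  calc t * |∑ F ∈ ((univ : Finset (Fin k)) ×ˢ D).powerset,
        ∑ v ∈ V, ∏ i ∈ F ∪ (univ : Finset (Fin k)) ×ˢ {j0}, HH G M v (y (o i.1) i.2)|
      ≤ t * ∑ F ∈ ((univ : Finset (Fin k)) ×ˢ D).powerset,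
        |∑ v ∈ V, ∏ i ∈ F ∪ (univ : Finset (Fin k)) ×ˢ {j0}, HH G M v (y (o i.1) i.2)| :=
        mul_le_mul_of_nonneg_left (abs_sum_le_sum_abs _ _) ht
    _ = ∑ F ∈ ((univ : Finset (Fin k)) ×ˢ D).powerset,
        t * |∑ v ∈ V, ∏ i ∈ F ∪ (univ : Finset (Fin k)) ×ˢ {j0}, HH G M v (y (o i.1) i.2)| :=
        mul_sum _ _ _
    _ ≤ ((univ : Finset (Fin k)) ×ˢ D).powerset.card • X := sum_le_card_nsmul _ _ _ h
    _ = 2 ^ (k * D.card) * X := by
        rw [nsmul_eq_mul, card_powerset, card_product, card_univ, Fintype.card_fin]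
        push_cast
        rfl

private lemma Rw5_card {κ : Type} [DecidableEq κ] (lt : κ → ν) (I I' : Finset κ) (h : I ⊆ I') :
    I.card - (I.image lt).card ≤ I'.card - (I'.image lt).card := by
  have h1 : (I'.image lt).card ≤ (I.image lt).card + (I' \ I).card := by
    have e : I'.image lt = I.image lt ∪ (I' \ I).image lt := by
      rw [← image_union, union_sdiff_of_subset h]
    rw [e]
    exact (card_union_le _ _).trans (Nat.add_le_add_left card_image_le _)
  have h2 : (I' \ I).card + I.card = I'.card := card_sdiff_add_card_eq_card h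
  have h3 : (I.image lt).card ≤ I.card := card_image_le
  omega

theorem row_sv {G : SimpleGraph ν} {M C τ : ℝ} {V Λ : Finset ν} {k KK : ℕ} (hM : 1 ≤ M)
    (hC : 1 ≤ C) (hτ : 1 ≤ τ) (h : RowOK G M V Λ (2 * KK) (2 * KK) C τ) {y : ι → Fin g → ν}
    (j0 : Fin g) (D : Finset (Fin g)) (hj0 : j0 ∉ D) (hKK : k * (D.card + 1) ≤ KK)
    (o : Fin (2 * k) → ι) (hΛ : ∀ r, ∀ j, y (o r) j ∈ Λ) :
    |∑ v ∈ V, ∏ r, rf G M v j0 D (y (o r))| ≤ V.card * (4 ^ KK * C * M ^ (2 * k * (D.card + 1) -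
        (((univ : Finset (Fin (2 * k))) ×ˢ insert j0 D).image (fun p => y (o p.1) p.2)).card)) ∧
    ((∃ r, ∀ r' j', j' ∈ insert j0 D → y (o r') j' = y (o r) j0 → r' = r ∧ j' = j0) →
      τ * |∑ v ∈ V, ∏ r, rf G M v j0 D (y (o r))| ≤
        V.card * (4 ^ KK * C * M ^ (2 * k * (D.card + 1) -
          (((univ : Finset (Fin (2 * k))) ×ˢ insert j0 D).image (fun p => y (o p.1) p.2)).card))) := by
  have hM0 : (0 : ℝ) ≤ M := by linarith
  have hsub : ∀ F ∈ ((univ : Finset (Fin (2 * k))) ×ˢ D).powerset,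
      F ∪ (univ : Finset (Fin (2 * k))) ×ˢ {j0} ⊆ (univ : Finset (Fin (2 * k))) ×ˢ insert j0 D := by
    intro F hF
    refine union_subset ?_ ?_
    · exact (mem_powerset.1 hF).trans (product_subset_product_right (subset_insert _ _))
    · exact product_subset_product_right (singleton_subset_iff.2 (mem_insert_self _ _))
  have hcI : ((univ : Finset (Fin (2 * k))) ×ˢ insert j0 D).card = 2 * k * (D.card + 1) := by
    rw [card_product, card_univ, Fintype.card_fin, card_insert_of_notMem hj0]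
  have hK2 : 2 * k * (D.card + 1) ≤ 2 * KK := by
    rw [mul_assoc]
    exact Nat.mul_le_mul_left _ hKK
  have hrow : ∀ F ∈ ((univ : Finset (Fin (2 * k))) ×ˢ D).powerset, _ := fun F hF =>
    row_index h (F ∪ (univ : Finset (Fin (2 * k))) ×ˢ {j0})
      (fun p : Fin (2 * k) × Fin g => y (o p.1) p.2) (fun i _ => hΛ i.1 i.2)
      (((card_le_card (hsub F hF)).trans hcI.le).trans hK2)
      (((card_le_card (hsub F hF)).trans hcI.le).trans hK2)
  have hX : ∀ F ∈ ((univ : Finset (Fin (2 * k))) ×ˢ D).powerset,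
      (V.card : ℝ) * (C * M ^ ((F ∪ (univ : Finset (Fin (2 * k))) ×ˢ {j0}).card -
        ((F ∪ (univ : Finset (Fin (2 * k))) ×ˢ {j0}).image
          (fun p : Fin (2 * k) × Fin g => y (o p.1) p.2)).card)) ≤
      V.card * (C * M ^ (2 * k * (D.card + 1) -
        (((univ : Finset (Fin (2 * k))) ×ˢ insert j0 D).image (fun p => y (o p.1) p.2)).card)) := by
    intro F hF
    have h1 := Rw5_card (fun p : Fin (2 * k) × Fin g => y (o p.1) p.2) _ _ (hsub F hF)
    rw [hcI] at h1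
    refine mul_le_mul_of_nonneg_left ?_ (Nat.cast_nonneg _)
    refine mul_le_mul_of_nonneg_left (pow_le_pow_right₀ hM h1) (by linarith)
  have hnum : (2 : ℝ) ^ (2 * k * D.card) ≤ 4 ^ KK := by
    rw [show (4 : ℝ) = 2 ^ 2 by norm_num, ← pow_mul]
    refine pow_le_pow_right₀ (by norm_num) ?_
    refine le_trans ?_ hK2
    exact Nat.mul_le_mul_left _ (Nat.le_succ _)
  have hfin : ∀ t : ℝ, 0 ≤ t → (∀ F ∈ ((univ : Finset (Fin (2 * k))) ×ˢ D).powerset,
      t * |∑ v ∈ V, ∏ i ∈ F ∪ (univ : Finset (Fin (2 * k))) ×ˢ {j0},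
        HH G M v (y (o i.1) i.2)| ≤
      (V.card : ℝ) * (C * M ^ ((F ∪ (univ : Finset (Fin (2 * k))) ×ˢ {j0}).card -
        ((F ∪ (univ : Finset (Fin (2 * k))) ×ˢ {j0}).image
          (fun p : Fin (2 * k) × Fin g => y (o p.1) p.2)).card))) →
      t * |∑ v ∈ V, ∏ r, rf G M v j0 D (y (o r))| ≤ V.card * (4 ^ KK * C *
        M ^ (2 * k * (D.card + 1) -
        (((univ : Finset (Fin (2 * k))) ×ˢ insert j0 D).image (fun p => y (o p.1) p.2)).card)) := by
    intro t ht hF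
    refine (Rw5_sum G M V (2 * k) y j0 D hj0 o t _ ht
      (fun F hF' => (hF F hF').trans (hX F hF'))).trans ?_
    calc (2 : ℝ) ^ (2 * k * D.card) * (V.card * (C * M ^ (2 * k * (D.card + 1) -
          (((univ : Finset (Fin (2 * k))) ×ˢ insert j0 D).image (fun p => y (o p.1) p.2)).card)))
        ≤ 4 ^ KK * (V.card * (C * M ^ (2 * k * (D.card + 1) -
          (((univ : Finset (Fin (2 * k))) ×ˢ insert j0 D).image
            (fun p => y (o p.1) p.2)).card))) := by
          refine mul_le_mul_of_nonneg_right hnum ?_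
          have : 0 ≤ C := by linarith
          positivity
      _ = _ := by ring
  refine ⟨?_, ?_⟩
  · have := hfin 1 zero_le_one (fun F hF => by rw [one_mul]; exact (hrow F hF).1)
    rwa [one_mul] at this
  · rintro ⟨r, hr⟩
    refine hfin τ (by linarith) (fun F hF => (hrow F hF).2 ?_)
    refine ⟨(r, j0), mem_union_right _ (mem_product.2 ⟨mem_univ _, mem_singleton_self _⟩), ?_⟩
    rintro ⟨r', j'⟩ h1 h2
    have h3 := (mem_product.1 (hsub F hF h1)).2
    obtain ⟨h4, h5⟩ := hr r' j' h3 h2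
    rw [h4, h5]

end Pool.Agent.H82.RD
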