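/-
ROW RD Rwb (about 110 lines; adapt the proof of Pool/Agent/H82/RL/Rwb.lean, helper83). The rows of one stage, for a fixed tuple of 2k copies.
row_sv (Rw5.lean) for l in Mm with j0 := s l, D := Cf l, #(insert (s l) (Cf l)) = #Cf l + 1 <= #(S ∪ N), so k (#Cf l + 1) <= KK. rep_card (Seq.lean, K = 2k, I = insert (s l) (Cf l), S, N; I \ S ⊆ N by hsN): 2k #I - #image <= (2k-1) #S + sum_r #Rep r =: e. So for all l in Mm: |sum_v| <= #W_l (4^KK C) M^e, and τ |sum_v| <= the same for l lonely (= the condition of row_sv).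
Gp := {l in Gs | l not lonely}, Q := Gp.image s ⊆ N. pair_card (now with partners in N): for j = s l in Q, l not lonely, every r has (r', j') <> (r, j), j' in insert (s l) (Cf l), with y (o r') j' = y (o r) j; j' not in S (else y (o r) j' = om j' = y (o r') j' = y (o r) j, so j = j' in S by injectivity, but j in N, hSN), so j' in N.
 Hence 2k #Q <= 2 sum_r #Rep r and μ #Gp <= k #Q <= sum_r #Rep r (hexp), τ^#Gp <= bl^(μ #Gp) <= bl^(sum #Rep). The end is as in the RL version: τ^#Gs = τ^#Gp τ^#(Gs \ Gp), one τ for every lonely l in Gs.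
-/
import Pool.Agent.H82.RD.Seq
import Pool.Agent.H82.RD.Rw5

set_option autoImplicit false
set_option linter.unusedSectionVars false

open Finset

namespace Pool.Agent.H82.RD

variable {ν ι : Type} [Fintype ν] [DecidableEq ν] {L g : ℕ}

theorem row_prod {G : SimpleGraph ν} {M C τ bl : ℝ} (hM : 1 ≤ M) (hC : 1 ≤ C) (hτ : 1 ≤ τ)
    (hbl : 1 ≤ bl) {O : Finset ι} {y : ι → Fin g → ν} (hinj : ∀ o ∈ O, Function.Injective (y o))
    {Λ : Finset ν} (hΛ : ∀ o ∈ O, ∀ j, y o j ∈ Λ) (W : Fin L → Finset ν)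
    (Mm Gs : Finset (Fin L)) (hG : Gs ⊆ Mm) (k KK : ℕ) (hk : 1 ≤ k) (S N : Finset (Fin g))
    (hSN : Disjoint S N) (hKK : k * (S ∪ N).card ≤ KK)
    (hrow : ∀ l ∈ Mm, RowOK G M (W l) Λ (2 * KK) (2 * KK) C τ) (μ : ℕ) (hμ : τ ≤ bl ^ μ)
    (s : Fin L → Fin g) (Cf : Fin L → Finset (Fin g)) (hsf : ∀ l ∈ Mm, s l ∉ Cf l)
    (hsN : ∀ l ∈ Mm, insert (s l) (Cf l) ⊆ S ∪ N) (hsG : ∀ l ∈ Gs, s l ∈ N)
    (hexp : ∀ S' ⊆ Gs, μ * S'.card ≤ k * (S'.image s).card)
    (om : Fin g → ν) (o : Fin (2 * k) → ι) (ho : ∀ r, o r ∈ O)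
    (hom : ∀ r, ∀ j ∈ S, y (o r) j = om j) :
    τ ^ Gs.card * ∏ l ∈ Mm, |∑ v ∈ W l, ∏ r, rf G M v (s l) (Cf l) (y (o r))| ≤
      (∏ l ∈ Mm, ((W l).card : ℝ)) * (4 ^ KK * C) ^ Mm.card *
        (M ^ Mm.card) ^ ((2 * k - 1) * S.card) *
        ∏ r, (M ^ Mm.card * bl) ^ (Rep y N o r).card := by
  classical
  have hM0 : (0 : ℝ) ≤ M := zero_le_one.trans hM
  have hC0 : (0 : ℝ) ≤ C := zero_le_one.trans hC
  have hτ0 : (0 : ℝ) ≤ τ := zero_le_one.trans hτ
  have hbl0 : (0 : ℝ) ≤ bl := zero_le_one.trans hbl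
  set R : ℕ := ∑ r, (Rep y N o r).card with hR
  set e : ℕ := (2 * k - 1) * S.card + R with he
  have hyi : ∀ r, Function.Injective (y (o r)) := fun r => hinj _ (ho r)
  have hcI : ∀ l ∈ Mm, (insert (s l) (Cf l)).card = (Cf l).card + 1 := fun l hl =>
    card_insert_of_notMem (hsf l hl)
  have hKl : ∀ l ∈ Mm, k * ((Cf l).card + 1) ≤ KK := by
    intro l hl
    rw [← hcI l hl]
    exact (Nat.mul_le_mul_left _ (card_le_card (hsN l hl))).trans hKK
  have hexpo : ∀ l ∈ Mm, 2 * k * ((Cf l).card + 1) -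
      (((univ : Finset (Fin (2 * k))) ×ˢ insert (s l) (Cf l)).image
        (fun p => y (o p.1) p.2)).card ≤ e := by
    intro l hl
    have h1 := rep_card y o hyi (insert (s l) (Cf l)) S N om hom (by
      intro j hj
      rw [mem_sdiff] at hj
      rcases mem_union.1 (hsN l hl hj.1) with h | h
      · exact absurd h hj.2
      · exact h)
    have h2 : (2 * k - 1) * (S ∩ insert (s l) (Cf l)).card ≤ (2 * k - 1) * S.card :=
      Nat.mul_le_mul_left _ (card_le_card inter_subset_left)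
    rw [hcI l hl] at h1
    omega
  set Ln : Fin L → Prop := fun l => ∃ r, ∀ r' j', j' ∈ insert (s l) (Cf l) →
    y (o r') j' = y (o r) (s l) → r' = r ∧ j' = s l with hLn
  set a : Fin L → ℝ := fun l => |∑ v ∈ W l, ∏ r, rf G M v (s l) (Cf l) (y (o r))| with ha
  have ha0 : ∀ l, 0 ≤ a l := fun l => abs_nonneg _
  have hri : ∀ l ∈ Mm, a l ≤ (W l).card * (4 ^ KK * C * M ^ e) ∧
      (Ln l → τ * a l ≤ (W l).card * (4 ^ KK * C * M ^ e)) := by
    intro l hl
    have h := row_sv (k := k) (KK := KK) hM hC hτ (hrow l hl) (y := y) (s l) (Cf l) (hsf l hl)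
      (hKl l hl) o (fun r j => hΛ _ (ho _) _)
    have h5 : ((W l).card : ℝ) * (4 ^ KK * C * M ^ (2 * k * ((Cf l).card + 1) -
        (((univ : Finset (Fin (2 * k))) ×ˢ insert (s l) (Cf l)).image
          (fun p => y (o p.1) p.2)).card)) ≤ (W l).card * (4 ^ KK * C * M ^ e) := by
      have := pow_le_pow_right₀ hM (hexpo l hl)
      gcongr
    exact ⟨h.1.trans h5, fun hh => (h.2 hh).trans h5⟩
  set Gp : Finset (Fin L) := Gs.filter (fun l => ¬ Ln l) with hGp
  have hGpG : Gp ⊆ Gs := filter_subset _ _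
  set Q : Finset (Fin g) := Gp.image s with hQ
  have hQN : Q ⊆ N := by
    intro j hj
    obtain ⟨l, hl, rfl⟩ := mem_image.1 hj
    exact hsG l (hGpG hl)
  have hpair := pair_card y o hyi Q N hQN (by
    intro r j hj
    obtain ⟨l, hl, rfl⟩ := mem_image.1 hj
    have hnl := (mem_filter.1 hl).2
    have hlG := hGpG hl
    by_contra hcon
    refine hnl ⟨r, fun r' j' hj' heq => ?_⟩
    by_contra hne
    refine hcon ⟨r', j', ?_, fun h => hne ?_, heq⟩
    · rcases mem_union.1 (hsN l (hG hlG) hj') with hS' | hN'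
      · exfalso
        have e1 : y (o r) j' = y (o r) (s l) := by
          rw [hom r j' hS', ← hom r' j' hS']
          exact heq
        have e2 := hyi r e1
        rw [e2] at hS'
        exact disjoint_left.1 hSN hS' (hsG l hlG)
      · exact hN'
    · exact ⟨congrArg Prod.fst h, congrArg Prod.snd h⟩)
  have hGR : μ * Gp.card ≤ R := by
    have h1 : μ * Gp.card ≤ k * Q.card := hexp Gp hGpG
    have h2 : 2 * (k * Q.card) ≤ 2 * R := by
      calc 2 * (k * Q.card) = 2 * k * Q.card := by ring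
        _ ≤ 2 * R := hpair
    exact h1.trans (by omega)
  have hτGp : τ ^ Gp.card ≤ bl ^ R := by
    calc τ ^ Gp.card ≤ (bl ^ μ) ^ Gp.card := pow_le_pow_left₀ hτ0 hμ _
      _ = bl ^ (μ * Gp.card) := by rw [← pow_mul]
      _ ≤ bl ^ R := pow_le_pow_right₀ hbl hGR
  have hsplit : τ ^ Gs.card = τ ^ Gp.card * ∏ l ∈ Mm, (if l ∈ Gs \ Gp then τ else 1) := by
    rw [prod_ite_mem, inter_eq_right.2 (sdiff_subset.trans hG), prod_const, ← pow_add]
    congr 1
    have := card_sdiff_add_card_eq_card hGpG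
    omega
  have hmain : ∏ l ∈ Mm, ((if l ∈ Gs \ Gp then τ else 1) * a l) ≤
      ∏ l ∈ Mm, (((W l).card : ℝ) * (4 ^ KK * C * M ^ e)) := by
    refine prod_le_prod (fun l _ => ?_) (fun l hl => ?_)
    · refine mul_nonneg ?_ (ha0 l)
      split_ifs
      · exact hτ0
      · exact zero_le_one
    · split_ifs with h
      · refine (hri l hl).2 ?_
        by_contra hcon
        rw [mem_sdiff] at h
        exact h.2 (mem_filter.2 ⟨h.1, hcon⟩)
      · rw [one_mul]
        exact (hri l hl).1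
  have hpr : ∏ r, (M ^ Mm.card * bl) ^ (Rep y N o r).card = (M ^ Mm.card * bl) ^ R := by
    rw [prod_pow_eq_pow_sum]
  change τ ^ Gs.card * ∏ l ∈ Mm, a l ≤ _
  rw [hpr, hsplit, mul_assoc, ← prod_mul_distrib]
  calc τ ^ Gp.card * ∏ l ∈ Mm, ((if l ∈ Gs \ Gp then τ else 1) * a l)
      ≤ bl ^ R * ∏ l ∈ Mm, (((W l).card : ℝ) * (4 ^ KK * C * M ^ e)) := by
        refine mul_le_mul hτGp hmain (prod_nonneg fun l _ => ?_) (by positivity)
        refine mul_nonneg ?_ (ha0 l)
        split_ifs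
        · exact hτ0
        · exact zero_le_one
    _ = _ := by
        rw [prod_mul_distrib, prod_const, he]
        ring

end Pool.Agent.H82.RD
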