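/-
ROW RD Mom (about 100 lines; adapt Pool/Agent/H82/RL/Mom.lean, helper7). The moment of one stage, abstract weights wt with |wt| <= f. F := fam O y A1 om.
PROOF. (sum_{o in F} wt o prod_{Mm} rf)^(2k) = sum over o in Fintype.piFinset (fun _ : Fin (2k) => F) of prod_r wt (o r) * prod_{l in Mm} prod_r rf (Finset.prod_univ_sum with constant factors, prod_comm). Exchange sums; sum over the box of prod_{l in Mm} prod_r rf (x l) = prod_{l in Mm} sum_{v in W l} prod_r rf v (box_sum).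
 Absolute values: |prod_r wt (o r)| <= prod_r f (o r); row_prod (o r in F ⊆ O; hom: S ⊆ A1 and mem_fam). So τ^#Gs * LHS <= prodW (4^KK C)^#Mm (M^#Mm)^((2k-1) #S) sum_o prod_r (f (o r) (M^#Mm bl)^#Rep r), and seq_sum (Seq.lean) with K = 2k, Λ = M^#Mm bl >= 1, c = Q0 (hcp).
-/
import Pool.Agent.H82.RD.Rwb
import Pool.Agent.H82.RD.Box

set_option autoImplicit false
set_option linter.unusedSectionVars false

open Finset

namespace Pool.Agent.H82.RD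

variable {ν ι : Type} [Fintype ν] [DecidableEq ν] {L g : ℕ}

theorem moment {G : SimpleGraph ν} {M C τ bl : ℝ} (hM : 1 ≤ M) (hC : 1 ≤ C) (hτ : 1 ≤ τ)
    (hbl : 1 ≤ bl) {O : Finset ι} {y : ι → Fin g → ν} (hinj : ∀ o ∈ O, Function.Injective (y o))
    {Λ : Finset ν} (hΛ : ∀ o ∈ O, ∀ j, y o j ∈ Λ) (W : Fin L → Finset ν)
    (Mm Gs : Finset (Fin L)) (hG : Gs ⊆ Mm) (k KK : ℕ) (hk : 1 ≤ k) (A1 S N : Finset (Fin g))
    (hSA : S ⊆ A1) (hSN : Disjoint S N) (hKK : k * (S ∪ N).card ≤ KK)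
    (hrow : ∀ l ∈ Mm, RowOK G M (W l) Λ (2 * KK) (2 * KK) C τ) (μ : ℕ) (hμ : τ ≤ bl ^ μ)
    (s : Fin L → Fin g) (Cf : Fin L → Finset (Fin g)) (hsf : ∀ l ∈ Mm, s l ∉ Cf l)
    (hsN : ∀ l ∈ Mm, insert (s l) (Cf l) ⊆ S ∪ N) (hsG : ∀ l ∈ Gs, s l ∈ N)
    (hexp : ∀ S' ⊆ Gs, μ * S'.card ≤ k * (S'.image s).card)
    (om : Fin g → ν) (wt f : ι → ℝ) (hwt : ∀ o, |wt o| ≤ f o) (Q0 : ℝ)
    (hcp : ∀ B : Finset ν, B.card ≤ 2 * k * g →
      ∑ o ∈ fam O y A1 om, f o * (M ^ Mm.card * bl) ^ ((N.filter fun j => y o j ∈ B).card) ≤ Q0)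
    (x0 : Fin L → ν) :
    τ ^ Gs.card * ∑ x ∈ box W Mm x0, (∑ o ∈ fam O y A1 om,
        wt o * ∏ l ∈ Mm, rf G M (x l) (s l) (Cf l) (y o)) ^ (2 * k) ≤
      (∏ l ∈ Mm, ((W l).card : ℝ)) * (4 ^ KK * C) ^ Mm.card *
        (M ^ Mm.card) ^ ((2 * k - 1) * S.card) * Q0 ^ (2 * k) := by
  classical
  have hM0 : (0 : ℝ) ≤ M := zero_le_one.trans hM
  have hC0 : (0 : ℝ) ≤ C := zero_le_one.trans hC
  have hτ0 : (0 : ℝ) ≤ τ := zero_le_one.trans hτ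
  set F : Finset ι := fam O y A1 om with hF
  set La : ℝ := M ^ Mm.card * bl with hLa
  set rw' : (Fin (2 * k) → ι) → Fin L → ν → ℝ :=
    fun o l v => ∏ r, rf G M v (s l) (Cf l) (y (o r)) with hrw'
  have hf0 : ∀ o, 0 ≤ f o := fun o => (abs_nonneg _).trans (hwt o)
  have hLa1 : 1 ≤ La := one_le_mul_of_one_le_of_one_le (one_le_pow₀ hM) hbl
  -- the power of one component
  have hZ : ∀ x ∈ box W Mm x0, (∑ o ∈ F, wt o * ∏ l ∈ Mm, rf G M (x l) (s l) (Cf l) (y o)) ^ (2 * k) =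
      ∑ o ∈ Fintype.piFinset (fun _ : Fin (2 * k) => F),
        (∏ r, wt (o r)) * ∏ l ∈ Mm, rw' o l (x l) := by
    intro x _
    have h1 : (∑ o ∈ F, wt o * ∏ l ∈ Mm, rf G M (x l) (s l) (Cf l) (y o)) ^ (2 * k) =
        ∏ _r : Fin (2 * k), ∑ o ∈ F, wt o * ∏ l ∈ Mm, rf G M (x l) (s l) (Cf l) (y o) := by
      rw [prod_const, card_univ, Fintype.card_fin]
    rw [h1, prod_univ_sum]
    refine sum_congr rfl fun o _ => ?_
    rw [prod_mul_distrib]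
    congr 1
    rw [hrw']
    simp only
    rw [prod_comm]
  -- the sum over the box
  have hsum : ∑ x ∈ box W Mm x0,
      (∑ o ∈ F, wt o * ∏ l ∈ Mm, rf G M (x l) (s l) (Cf l) (y o)) ^ (2 * k) =
      ∑ o ∈ Fintype.piFinset (fun _ : Fin (2 * k) => F),
        (∏ r, wt (o r)) * ∏ l ∈ Mm, ∑ v ∈ W l, rw' o l v := by
    rw [sum_congr rfl hZ, sum_comm]
    refine sum_congr rfl fun o _ => ?_
    rw [← mul_sum, box_sum]
  -- one tuple of copies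
  have hone : ∀ o ∈ Fintype.piFinset (fun _ : Fin (2 * k) => F),
      τ ^ Gs.card * ((∏ r, wt (o r)) * ∏ l ∈ Mm, ∑ v ∈ W l, rw' o l v) ≤
      ((∏ l ∈ Mm, ((W l).card : ℝ)) * (4 ^ KK * C) ^ Mm.card *
        (M ^ Mm.card) ^ ((2 * k - 1) * S.card)) *
        ∏ r, (f (o r) * La ^ (Rep y N o r).card) := by
    intro o ho
    rw [Fintype.mem_piFinset] at ho
    have hoF : ∀ r, o r ∈ O ∧ ∀ j ∈ A1, y (o r) j = om j := fun r => mem_fam.1 (ho r)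
    have h1 := row_prod hM hC hτ hbl hinj hΛ W Mm Gs hG k KK hk S N hSN hKK hrow μ hμ s Cf hsf hsN
      hsG hexp om o (fun r => (hoF r).1) (fun r j hj => (hoF r).2 j (hSA hj))
    have h2 : (∏ r, wt (o r)) * ∏ l ∈ Mm, ∑ v ∈ W l, rw' o l v ≤
        (∏ r, f (o r)) * ∏ l ∈ Mm, |∑ v ∈ W l, rw' o l v| := by
      refine (le_abs_self _).trans ?_
      rw [abs_mul, abs_prod, abs_prod]
      exact mul_le_mul_of_nonneg_right
        (prod_le_prod (fun r _ => abs_nonneg _) (fun r _ => hwt _))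
        (prod_nonneg fun _ _ => abs_nonneg _)
    calc τ ^ Gs.card * ((∏ r, wt (o r)) * ∏ l ∈ Mm, ∑ v ∈ W l, rw' o l v)
        ≤ τ ^ Gs.card * ((∏ r, f (o r)) * ∏ l ∈ Mm, |∑ v ∈ W l, rw' o l v|) :=
          mul_le_mul_of_nonneg_left h2 (by positivity)
      _ = (∏ r, f (o r)) * (τ ^ Gs.card * ∏ l ∈ Mm, |∑ v ∈ W l, rw' o l v|) := by ring
      _ ≤ (∏ r, f (o r)) * ((∏ l ∈ Mm, ((W l).card : ℝ)) * (4 ^ KK * C) ^ Mm.card *
            (M ^ Mm.card) ^ ((2 * k - 1) * S.card) * ∏ r, (M ^ Mm.card * bl) ^ (Rep y N o r).card) :=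
          mul_le_mul_of_nonneg_left h1 (prod_nonneg fun r _ => hf0 _)
      _ = _ := by
          rw [prod_mul_distrib]
          ring
  -- the sum over the copies
  have hseq := seq_sum y N F (2 * k) f (fun o _ => hf0 o) La hLa1 Q0 hcp
  have hpW : (0 : ℝ) ≤ ∏ l ∈ Mm, ((W l).card : ℝ) := prod_nonneg fun _ _ => Nat.cast_nonneg _
  have hK0 : (0 : ℝ) ≤ (∏ l ∈ Mm, ((W l).card : ℝ)) * (4 ^ KK * C) ^ Mm.card *
      (M ^ Mm.card) ^ ((2 * k - 1) * S.card) :=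
    mul_nonneg (mul_nonneg hpW (pow_nonneg (mul_nonneg (by positivity) hC0) _))
      (pow_nonneg (pow_nonneg hM0 _) _)
  rw [hsum, mul_sum]
  calc ∑ o ∈ Fintype.piFinset (fun _ : Fin (2 * k) => F),
        τ ^ Gs.card * ((∏ r, wt (o r)) * ∏ l ∈ Mm, ∑ v ∈ W l, rw' o l v)
      ≤ ∑ o ∈ Fintype.piFinset (fun _ : Fin (2 * k) => F),
          ((∏ l ∈ Mm, ((W l).card : ℝ)) * (4 ^ KK * C) ^ Mm.card *
            (M ^ Mm.card) ^ ((2 * k - 1) * S.card)) *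
            ∏ r, (f (o r) * La ^ (Rep y N o r).card) := sum_le_sum hone
    _ = ((∏ l ∈ Mm, ((W l).card : ℝ)) * (4 ^ KK * C) ^ Mm.card *
            (M ^ Mm.card) ^ ((2 * k - 1) * S.card)) *
          ∑ o ∈ Fintype.piFinset (fun _ : Fin (2 * k) => F),
            ∏ r, (f (o r) * La ^ (Rep y N o r).card) := by rw [mul_sum]
    _ ≤ ((∏ l ∈ Mm, ((W l).card : ℝ)) * (4 ^ KK * C) ^ Mm.card *
            (M ^ Mm.card) ^ ((2 * k - 1) * S.card)) * Q0 ^ (2 * k) :=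
        mul_le_mul_of_nonneg_left hseq hK0

end Pool.Agent.H82.RD
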