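/-
ROW RD Wt (about 100 lines). The weights of the rows before the stage (P1 active, R boxes), positions A' fixed in addition.
PROOF. |HH v d| <= 1 + (if adj then M else 0) (M >= 1), so |rf v j0 D yo| <= bx D + bx (insert j0 D) (j0 not in D). The product over P1 is <= sum over Z in P1.powerset of prod_{l in P1} bx (if l in Z then insert (s l) (Cf l) else Cf l) (Finset.prod_add).
 Each of the 2^#P1 terms: rows P1 ∪ R (disjoint) with column sets C' l ⊆ C l (C' l := C l on R, ∅ elsewhere). bx (C' l) = bx (C' l ∩ A') * bx (C' l \ A') <= M^#A' bx (C' l \ A'). So the sum over fam O y (A ∪ A') q is <= (M^#A')^(#P1 + #R) * vb_le for (A ∪ A', C' \ A', P1 ∪ R): <= (5/4) th^(#A + #A') #O, 5/4 <= 2.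
-/
import Pool.Agent.H82.RD.Vb

set_option autoImplicit false
set_option linter.unusedSectionVars false

open Finset

namespace Pool.Agent.H82.RD

variable {ν ι : Type} [Fintype ν] [DecidableEq ν] {L g : ℕ}

theorem Wt_bx_insert {G : SimpleGraph ν} {M : ℝ} (v : ν) (j0 : Fin g)
    (D : Finset (Fin g)) (hj : j0 ∉ D) (yo : Fin g → ν) :
    bx G M (insert j0 D) v yo = (HH G M v (yo j0) + 1) * bx G M D v yo := by
  classical
  unfold bx HH
  rw [prod_insert hj]
  congr 1
  split_ifs <;> ring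

theorem abs_rf_le {G : SimpleGraph ν} {M : ℝ} (hM : 1 ≤ M) (v : ν) (j0 : Fin g)
    (D : Finset (Fin g)) (hj : j0 ∉ D) (yo : Fin g → ν) :
    |rf G M v j0 D yo| ≤ bx G M D v yo + bx G M (insert j0 D) v yo := by
  have h0 := bx_nonneg (G := G) (le_trans zero_le_one hM) D v yo
  have h1 := abs_HH_le' (G := G) hM v (yo j0)
  rw [Wt_bx_insert v j0 D hj yo]
  unfold rf
  rw [abs_mul, abs_of_nonneg h0]
  have h2 := mul_le_mul_of_nonneg_right h1 h0
  linarith [h2]

theorem Wt_bx_le {G : SimpleGraph ν} {M : ℝ} (hM : 1 ≤ M) (v : ν)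
    (C A' : Finset (Fin g)) (yo : Fin g → ν) :
    bx G M C v yo ≤ M ^ A'.card * bx G M (C \ A') v yo := by
  classical
  have h0 := bx_nonneg (G := G) (le_trans zero_le_one hM) (C \ A') v yo
  have h1 : bx G M C v yo = bx G M (C ∩ A') v yo * bx G M (C \ A') v yo := by
    unfold bx
    rw [← prod_union]
    · rw [union_comm, sdiff_union_inter]
    · exact (disjoint_sdiff_inter C A').symm
  have h2 : bx G M (C ∩ A') v yo ≤ M ^ A'.card := by
    unfold bx
    have h3 : ∏ j ∈ C ∩ A', (if G.Adj v (yo j) then M else 0) ≤ ∏ _j ∈ C ∩ A', M := by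
      refine prod_le_prod (fun j _ => ?_) fun j _ => ?_
      · split_ifs <;> linarith
      · split_ifs <;> linarith
    refine h3.trans ?_
    rw [prod_const]
    exact pow_le_pow_right₀ hM (card_le_card inter_subset_right)
  rw [h1]
  exact mul_le_mul_of_nonneg_right h2 h0

theorem Wt_one {G : SimpleGraph ν} {M η th : ℝ} (hM : 1 ≤ M) (hη : 0 ≤ η)
    (hgη : (1 + g * η) ^ L ≤ 5 / 4) (hth : 0 ≤ th) {t0 D : ℕ} (ht0 : 1 ≤ t0) {O : Finset ι}
    {y : ι → Fin g → ν} (hO : O.Nonempty)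
    (hsp : ∀ (A : Finset (Fin g)) (q : Fin g → ν), ((fam O y A q).card : ℝ) ≤ th ^ A.card * O.card)
    {x : Fin L → ν} {P : Finset (Fin L)} (hx : NoVio G M t0 D O y η th P x)
    (A A' : Finset (Fin g)) (hAA : Disjoint A A') (q : Fin g → ν)
    (C : Fin L → Finset (Fin g)) (hC : ∀ l, Disjoint (C l) A) (T : Finset (Fin L)) (hT : T ⊆ P) :
    ∑ o ∈ fam O y (A ∪ A') q, ∏ l ∈ T, bx G M (C l) (x l) (y o) ≤
      (M ^ A'.card) ^ T.card * (5 / 4 * th ^ (A.card + A'.card) * O.card) := by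
  have hM0 : 0 ≤ M := le_trans zero_le_one hM
  have h1 : ∑ o ∈ fam O y (A ∪ A') q, ∏ l ∈ T, bx G M (C l) (x l) (y o) ≤
      ∑ o ∈ fam O y (A ∪ A') q, (M ^ A'.card) ^ T.card * ∏ l ∈ T, bx G M (C l \ A') (x l) (y o) := by
    refine sum_le_sum fun o _ => ?_
    rw [← prod_const, ← prod_mul_distrib]
    exact prod_le_prod (fun l _ => bx_nonneg hM0 _ _ _) fun l _ => Wt_bx_le hM _ _ _ _
  refine h1.trans ?_
  rw [← mul_sum]
  refine mul_le_mul_of_nonneg_left ?_ (by positivity)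
  have h2 := vb_le hη hgη hth ht0 hO hsp hx (A ∪ A') q (fun l => C l \ A') (fun l => ?_) T hT
  · rw [card_union_of_disjoint hAA] at h2
    exact h2
  · rw [disjoint_union_right]
    exact ⟨(hC l).mono_left sdiff_subset, sdiff_disjoint⟩

theorem wt_bound {G : SimpleGraph ν} {M η th : ℝ} (hM : 1 ≤ M) (hη : 0 ≤ η)
    (hgη : (1 + g * η) ^ L ≤ 5 / 4) (hth : 0 ≤ th) {t0 D : ℕ} (ht0 : 1 ≤ t0) {O : Finset ι}
    {y : ι → Fin g → ν} (hO : O.Nonempty)
    (hsp : ∀ (A : Finset (Fin g)) (q : Fin g → ν), ((fam O y A q).card : ℝ) ≤ th ^ A.card * O.card)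
    {x : Fin L → ν} {P : Finset (Fin L)} (hx : NoVio G M t0 D O y η th P x)
    (A A' : Finset (Fin g)) (hAA : Disjoint A A') (q : Fin g → ν)
    (C Cf : Fin L → Finset (Fin g)) (hC : ∀ l, Disjoint (C l) A) (s : Fin L → Fin g)
    (P1 R : Finset (Fin L)) (hPR : Disjoint P1 R) (hP : P1 ∪ R ⊆ P)
    (hCf : ∀ l ∈ P1, insert (s l) (Cf l) ⊆ C l) (hs : ∀ l ∈ P1, s l ∉ Cf l) :
    ∑ o ∈ fam O y (A ∪ A') q, (∏ l ∈ P1, |rf G M (x l) (s l) (Cf l) (y o)|) *
        ∏ l ∈ R, bx G M (C l) (x l) (y o) ≤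
      2 ^ (P1.card + 1) * (M ^ (P1.card + R.card)) ^ A'.card * th ^ (A.card + A'.card) * O.card := by
  classical
  have hM0 : 0 ≤ M := le_trans zero_le_one hM
  set K : ℝ := (M ^ A'.card) ^ (P1 ∪ R).card * (5 / 4 * th ^ (A.card + A'.card) * O.card) with hK
  have h1 : ∑ o ∈ fam O y (A ∪ A') q, (∏ l ∈ P1, |rf G M (x l) (s l) (Cf l) (y o)|) *
        ∏ l ∈ R, bx G M (C l) (x l) (y o) ≤
      ∑ o ∈ fam O y (A ∪ A') q, ∑ Z ∈ P1.powerset,
        ∏ l ∈ P1 ∪ R, bx G M (if l ∈ R then C l else if l ∈ P1 then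
          (if l ∈ Z then insert (s l) (Cf l) else Cf l) else ∅) (x l) (y o) := by
    refine sum_le_sum fun o _ => ?_
    have h2 : ∏ l ∈ P1, |rf G M (x l) (s l) (Cf l) (y o)| ≤
        ∏ l ∈ P1, (bx G M (insert (s l) (Cf l)) (x l) (y o) + bx G M (Cf l) (x l) (y o)) := by
      refine prod_le_prod (fun l _ => abs_nonneg _) fun l hl => ?_
      rw [add_comm]
      exact abs_rf_le hM _ _ _ (hs l hl) _
    have h3 : 0 ≤ ∏ l ∈ R, bx G M (C l) (x l) (y o) :=
      prod_nonneg fun l _ => bx_nonneg hM0 _ _ _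
    refine (mul_le_mul_of_nonneg_right h2 h3).trans (le_of_eq ?_)
    rw [prod_add, sum_mul]
    refine sum_congr rfl fun Z hZ => ?_
    rw [mem_powerset] at hZ
    rw [prod_union hPR]
    congr 1
    · rw [← prod_sdiff hZ, mul_comm]
      congr 1
      · refine prod_congr rfl fun l hl => ?_
        rw [mem_sdiff] at hl
        rw [if_neg (disjoint_left.1 hPR hl.1), if_pos hl.1, if_neg hl.2]
      · refine prod_congr rfl fun l hl => ?_
        rw [if_neg (disjoint_left.1 hPR (hZ hl)), if_pos (hZ hl), if_pos hl]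
    · refine prod_congr rfl fun l hl => ?_
      rw [if_pos hl]
  refine h1.trans ?_
  rw [sum_comm]
  have h4 : ∀ Z ∈ P1.powerset, ∑ o ∈ fam O y (A ∪ A') q,
        ∏ l ∈ P1 ∪ R, bx G M (if l ∈ R then C l else if l ∈ P1 then
          (if l ∈ Z then insert (s l) (Cf l) else Cf l) else ∅) (x l) (y o) ≤ K := by
    intro Z hZ
    refine Wt_one hM hη hgη hth ht0 hO hsp hx A A' hAA q _ (fun l => ?_) (P1 ∪ R) hP
    by_cases hR : l ∈ R
    · rw [if_pos hR]
      exact hC l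
    · rw [if_neg hR]
      by_cases hP1 : l ∈ P1
      · rw [if_pos hP1]
        refine (hC l).mono_left ?_
        by_cases hl : l ∈ Z
        · rw [if_pos hl]
          exact hCf l hP1
        · rw [if_neg hl]
          exact (subset_insert _ _).trans (hCf l hP1)
      · rw [if_neg hP1]
        exact disjoint_empty_left _
  refine (sum_le_card_nsmul _ _ K h4).trans ?_
  rw [card_powerset, nsmul_eq_mul, hK, card_union_of_disjoint hPR]
  have h5 : (M ^ A'.card) ^ (P1.card + R.card) = (M ^ (P1.card + R.card)) ^ A'.card := by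
    rw [← pow_mul, ← pow_mul, mul_comm]
  rw [h5, pow_succ]
  push_cast
  have h6 : 0 ≤ (2 : ℝ) ^ P1.card * (M ^ (P1.card + R.card)) ^ A'.card * th ^ (A.card + A'.card) * O.card := by
    positivity
  nlinarith [h6]

end Pool.Agent.H82.RD
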