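/-
ROW RD Ev (about 130 lines; adapt Pool/Agent/H82/RL/Ev.lean, helper18). Markov for one stage. F om := fam O y (A ∪ S) om, wt o := prod_{P1} rf (x0 l) .. * prod_R bx (x0 l) .., f := prod_{P1} |rf| * prod_R bx (= |wt|, as bx >= 0), Q := the piFinset, #Q = #Out^#S, t' := #T3.
 On box W Mm x0 the P1 and R factors do not change (they are already written with x0).
 copy_gen (Cpg.lean) with A1 := A ∪ S, N, κ := M^(#P1 + #R) th, K0 := 2^(#P1+1) (M^(#P1+#R))^#S th^(#A + #S) #O, La := M^#Mm bl: hb from wt_bound (Wt.lean) with A' := S ∪ A'' (disjoint from A; A ∪ S ∪ A'' = A ∪ (S ∪ A'')). For #B <= 2 k g: #B La κ <= 2 k g bl M^(..) th <= 1 (hcr), so Q0 := K0 2^g.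
 moment: τ^#Gs sum_box |sum_{F om}|^(2k) <= prodW (4^KK C)^#Mm (M^#Mm)^((2k-1) #S) Q0^(2k), the same bound for every om.
 On the event: thr th^#A #O < M^(t' #S) sum_{om in Q} |sum_{F om} ..|; raise to the power 2k (even): (sum_Q a)^(2k) <= #Q^(2k-1) sum_Q a^(2k) (inner_le_nnorm / pow_sum_div / Finset.inner... : inequality of power means, as in the RL version). Sum over x:
 τ^#Gs #EV (thr th^#A #O)^(2k) <= M^(2k t' #S) #Q^(2k) prodW (4^KK C)^#Mm (M^#Mm)^(2k #S) Q0^(2k) (M >= 1). Divide by (th^#A #O)^(2k) > 0 and thr^(2k): the factor is ((#Out M^(t' + #Mm + #P1 + #R) th)^#S 2^(#P1+1+g) / thr)^(2k).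
-/
import Pool.Agent.H82.RD.Mom
import Pool.Agent.H82.RD.Wt
import Pool.Agent.H82.RD.Cpg

set_option autoImplicit false
set_option linter.unusedSectionVars false

open Finset

namespace Pool.Agent.H82.RD

variable {ν ι : Type} [Fintype ν] [DecidableEq ν] {L g : ℕ}

theorem Ev_markov {α β : Type} (B : Finset α) (Q : Finset β) (Z : β → α → ℝ) (a t : ℝ) (k : ℕ)
    (hk : 1 ≤ k) (ha : 0 ≤ a) (ht : 0 ≤ t) (EV : Finset α) (hEV : EV ⊆ B)
    (hlt : ∀ x ∈ EV, a < t * ∑ om ∈ Q, |Z om x|) (D τG : ℝ) (hτ : 0 ≤ τG)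
    (hm : ∀ om ∈ Q, τG * ∑ x ∈ B, Z om x ^ (2 * k) ≤ D) :
    τG * (EV.card * a ^ (2 * k)) ≤ (t * Q.card) ^ (2 * k) * D := by
  obtain ⟨k', rfl⟩ : ∃ k', k = k' + 1 := ⟨k - 1, by omega⟩
  have hev : ∀ z : ℝ, |z| ^ (2 * (k' + 1)) = z ^ (2 * (k' + 1)) := fun z => by
    rw [pow_mul, pow_mul, sq_abs]
  have e1 : ∀ x ∈ EV, a ^ (2 * (k' + 1)) ≤
      t ^ (2 * (k' + 1)) * ((Q.card : ℝ) ^ (2 * k' + 1) * ∑ om ∈ Q, Z om x ^ (2 * (k' + 1))) := by
    intro x hx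
    have h1 : a ^ (2 * (k' + 1)) ≤ (t * ∑ om ∈ Q, |Z om x|) ^ (2 * (k' + 1)) :=
      pow_le_pow_left₀ ha (hlt x hx).le _
    refine h1.trans ?_
    rw [mul_pow]
    refine mul_le_mul_of_nonneg_left ?_ (by positivity)
    have h2 := pow_sum_le_card_mul_sum_pow (s := Q) (f := fun om => |Z om x|)
      (fun i _ => abs_nonneg _) (2 * k' + 1)
    have e : 2 * k' + 1 + 1 = 2 * (k' + 1) := by ring
    rw [e] at h2
    simpa only [hev] using h2
  calc τG * (EV.card * a ^ (2 * (k' + 1))) = τG * ∑ x ∈ EV, a ^ (2 * (k' + 1)) := by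
        rw [sum_const, nsmul_eq_mul]
    _ ≤ τG * ∑ x ∈ EV, t ^ (2 * (k' + 1)) *
          ((Q.card : ℝ) ^ (2 * k' + 1) * ∑ om ∈ Q, Z om x ^ (2 * (k' + 1))) :=
        mul_le_mul_of_nonneg_left (sum_le_sum e1) hτ
    _ ≤ τG * ∑ x ∈ B, t ^ (2 * (k' + 1)) *
          ((Q.card : ℝ) ^ (2 * k' + 1) * ∑ om ∈ Q, Z om x ^ (2 * (k' + 1))) := by
        refine mul_le_mul_of_nonneg_left (sum_le_sum_of_subset_of_nonneg hEV ?_) hτ
        intro x _ _
        have : ∀ om ∈ Q, 0 ≤ Z om x ^ (2 * (k' + 1)) := fun om _ => by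
          rw [pow_mul]; positivity
        have := sum_nonneg this
        positivity
    _ = t ^ (2 * (k' + 1)) * (Q.card : ℝ) ^ (2 * k' + 1) *
          ∑ om ∈ Q, τG * ∑ x ∈ B, Z om x ^ (2 * (k' + 1)) := by
        rw [← mul_sum, ← mul_sum, sum_comm, ← mul_sum]; ring
    _ ≤ t ^ (2 * (k' + 1)) * (Q.card : ℝ) ^ (2 * k' + 1) * ∑ om ∈ Q, D :=
        mul_le_mul_of_nonneg_left (sum_le_sum hm) (by positivity)
    _ = (t * Q.card) ^ (2 * (k' + 1)) * D := by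
        rw [sum_const, nsmul_eq_mul, mul_pow]; ring

open Classical in
theorem Ev_card (Out : Finset ν) (S : Finset (Fin g)) (q : Fin g → ν) :
    (Fintype.piFinset (fun j => if j ∈ S then Out else {q j})).card = Out.card ^ S.card := by
  rw [Fintype.card_piFinset]
  have : ∀ j : Fin g, (if j ∈ S then Out else {q j}).card = if j ∈ S then Out.card else 1 := by
    intro j; split_ifs <;> simp
  rw [prod_congr rfl fun j _ => this j, prod_ite_mem, univ_inter, prod_const]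

theorem Ev_fin {τG Nn u thr X t Qc MM D0 Q0 : ℝ} {k n m : ℕ} (hu : 0 < u)
    (hthr : 0 < thr) (hD0 : 0 ≤ D0) (hMM : 1 ≤ MM) (hQ0 : 0 ≤ Q0) (hn : n ≤ 2 * k * m)
    (hX : t * Qc * MM ^ m * Q0 = X * u)
    (hmain : τG * (Nn * (thr * u) ^ (2 * k)) ≤ (t * Qc) ^ (2 * k) * (D0 * MM ^ n * Q0 ^ (2 * k))) :
    τG * Nn ≤ D0 * (X / thr) ^ (2 * k) := by
  have ha : 0 < (thr * u) ^ (2 * k) := by positivity
  have e0 : 0 ≤ (t * Qc) ^ (2 * k) := by rw [pow_mul]; positivity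
  have e1 : (t * Qc) ^ (2 * k) * (D0 * MM ^ n * Q0 ^ (2 * k)) ≤
      (t * Qc) ^ (2 * k) * (D0 * MM ^ (2 * k * m) * Q0 ^ (2 * k)) := by
    refine mul_le_mul_of_nonneg_left ?_ e0
    refine mul_le_mul_of_nonneg_right ?_ (by positivity)
    exact mul_le_mul_of_nonneg_left (pow_le_pow_right₀ hMM hn) hD0
  have e2 : (t * Qc) ^ (2 * k) * (D0 * MM ^ (2 * k * m) * Q0 ^ (2 * k)) =
      D0 * (t * Qc * MM ^ m * Q0) ^ (2 * k) := by
    have : MM ^ (2 * k * m) = (MM ^ m) ^ (2 * k) := by rw [← pow_mul]; congr 1; ring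
    rw [this, mul_pow, mul_pow]; ring
  have e3 : (X * u) ^ (2 * k) = (X / thr) ^ (2 * k) * (thr * u) ^ (2 * k) := by
    rw [← mul_pow]; congr 1; field_simp
  have e4 : (τG * Nn) * (thr * u) ^ (2 * k) ≤ (D0 * (X / thr) ^ (2 * k)) * (thr * u) ^ (2 * k) := by
    calc (τG * Nn) * (thr * u) ^ (2 * k) = τG * (Nn * (thr * u) ^ (2 * k)) := by ring
      _ ≤ _ := hmain
      _ ≤ _ := e1
      _ = D0 * (X * u) ^ (2 * k) := by rw [e2, hX]
      _ = _ := by rw [e3]; ring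
  exact le_of_mul_le_mul_right e4 ha

open Classical in
theorem ev_bound {G : SimpleGraph ν} {M C τ bl η th : ℝ} (hM : 1 ≤ M) (hC : 1 ≤ C) (hτ : 1 ≤ τ)
    (hbl : 1 ≤ bl) (hη : 0 ≤ η) (hgη : (1 + g * η) ^ L ≤ 5 / 4) (hth : 0 < th) {t0 D : ℕ}
    (ht0 : 1 ≤ t0) {O : Finset ι} {y : ι → Fin g → ν} (hO : O.Nonempty)
    (hinj : ∀ o ∈ O, Function.Injective (y o))
    (hsp : ∀ (A : Finset (Fin g)) (q : Fin g → ν), ((fam O y A q).card : ℝ) ≤ th ^ A.card * O.card)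
    {Λ : Finset ν} (hΛ : ∀ o ∈ O, ∀ j, y o j ∈ Λ) (W : Fin L → Finset ν)
    (P1 R Mm Gs : Finset (Fin L)) (hPR : Disjoint P1 R) (hG : Gs ⊆ Mm) (k KK : ℕ) (hk : 1 ≤ k)
    (A S N : Finset (Fin g)) (hAS : Disjoint A S) (hAN : Disjoint A N) (hSN : Disjoint S N)
    (hKK : k * (S ∪ N).card ≤ KK)
    (hrow : ∀ l ∈ Mm, RowOK G M (W l) Λ (2 * KK) (2 * KK) C τ) (μ : ℕ) (hμ : τ ≤ bl ^ μ)
    (C0 : Fin L → Finset (Fin g)) (hC0 : ∀ l, Disjoint (C0 l) A)
    (s : Fin L → Fin g) (Cf : Fin L → Finset (Fin g)) (hsf : ∀ l, s l ∉ Cf l)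
    (hCf : ∀ l ∈ P1, insert (s l) (Cf l) ⊆ C0 l)
    (hsN : ∀ l ∈ Mm, insert (s l) (Cf l) ⊆ S ∪ N) (hsG : ∀ l ∈ Gs, s l ∈ N)
    (hexp : ∀ S' ⊆ Gs, μ * S'.card ≤ k * (S'.image s).card)
    (x0 : Fin L → ν) (hx : NoVio G M t0 D O y η th (P1 ∪ R) x0)
    (hcr : 2 * k * g * (bl * M ^ (P1.card + R.card + Mm.card) * th) ≤ 1)
    (t' : ℕ) (Out : Finset ν) (q : Fin g → ν) (thr : ℝ) (hthr : 0 < thr) :
    τ ^ Gs.card * (((box W Mm x0).filter fun x => thr * th ^ A.card * O.card < M ^ (t' * S.card) *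
      ∑ om ∈ Fintype.piFinset (fun j => if j ∈ S then Out else {q j}),
        |∑ o ∈ fam O y (A ∪ S) om, ((∏ l ∈ P1, rf G M (x0 l) (s l) (Cf l) (y o)) *
          ∏ l ∈ R, bx G M (C0 l) (x0 l) (y o)) *
            ∏ l ∈ Mm, rf G M (x l) (s l) (Cf l) (y o)|).card : ℝ) ≤
      (∏ l ∈ Mm, ((W l).card : ℝ)) * (4 ^ KK * C) ^ Mm.card *
        ((Out.card * M ^ (t' + Mm.card + P1.card + R.card) * th) ^ S.card *
          2 ^ (P1.card + 1 + g) / thr) ^ (2 * k) := by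
  have hM0 : (0 : ℝ) < M := by linarith
  have hτ0 : 0 ≤ τ := by linarith
  have hOc : (0 : ℝ) < O.card := by exact_mod_cast card_pos.2 hO
  set wt : ι → ℝ := fun o => (∏ l ∈ P1, rf G M (x0 l) (s l) (Cf l) (y o)) *
    ∏ l ∈ R, bx G M (C0 l) (x0 l) (y o) with hwtd
  set f : ι → ℝ := fun o => (∏ l ∈ P1, |rf G M (x0 l) (s l) (Cf l) (y o)|) *
    ∏ l ∈ R, bx G M (C0 l) (x0 l) (y o) with hfd
  have hR0 : ∀ o, 0 ≤ ∏ l ∈ R, bx G M (C0 l) (x0 l) (y o) := fun o =>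
    prod_nonneg fun l _ => bx_nonneg hM0.le _ _ _
  have hf0 : ∀ o, 0 ≤ f o := fun o =>
    mul_nonneg (prod_nonneg fun l _ => abs_nonneg _) (hR0 o)
  have hwt : ∀ o, |wt o| ≤ f o := fun o => by
    rw [hwtd, hfd]
    simp only
    rw [abs_mul, abs_of_nonneg (hR0 o), abs_prod]
  set κ : ℝ := M ^ (P1.card + R.card) * th with hκ
  set K0 : ℝ := 2 ^ (P1.card + 1) * (M ^ (P1.card + R.card)) ^ S.card * th ^ (A.card + S.card) *
    O.card with hK0
  have hκ0 : 0 ≤ κ := by positivity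
  have hK00 : 0 ≤ K0 := by positivity
  set La : ℝ := M ^ Mm.card * bl with hLa
  have hLa1 : 1 ≤ La := one_le_mul_of_one_le_of_one_le (one_le_pow₀ hM) hbl
  have hA1N : Disjoint (A ∪ S) N := disjoint_union_left.2 ⟨hAN, hSN⟩
  have hb : ∀ A' ⊆ N, ∀ q' : Fin g → ν, ∑ o ∈ fam O y ((A ∪ S) ∪ A') q', f o ≤
      K0 * κ ^ A'.card := by
    intro A' hA' q'
    have hdis : Disjoint A (S ∪ A') := disjoint_union_right.2 ⟨hAS, hAN.mono_right hA'⟩
    have h1 := wt_bound hM hη hgη hth.le ht0 hO hsp hx A (S ∪ A') hdis q' C0 Cf hC0 s P1 R hPR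
      (Subset.refl _) hCf (fun l _ => hsf l)
    rw [union_assoc]
    refine h1.trans (le_of_eq ?_)
    rw [card_union_of_disjoint (hSN.mono_right hA'), hK0, hκ, mul_pow, pow_add (M ^ _) S.card,
      ← add_assoc, pow_add th (A.card + S.card)]
    ring
  have hcp : ∀ (om : Fin g → ν) (B : Finset ν), B.card ≤ 2 * k * g →
      ∑ o ∈ fam O y (A ∪ S) om, f o * (M ^ Mm.card * bl) ^
        ((N.filter fun j => y o j ∈ B).card) ≤ K0 * 2 ^ g := by
    intro om B hB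
    refine (copy_gen hκ0 hK00 hLa1 f hf0 (A ∪ S) N hA1N om hb B).trans ?_
    refine mul_le_mul_of_nonneg_left (pow_le_pow_left₀ (by positivity) ?_ _) hK00
    have h2 : (B.card : ℝ) * (La * κ) ≤ 1 := by
      calc (B.card : ℝ) * (La * κ) ≤ (2 * k * g) * (La * κ) := by
            refine mul_le_mul_of_nonneg_right ?_ (by positivity)
            exact_mod_cast hB
        _ = 2 * k * g * (bl * M ^ (P1.card + R.card + Mm.card) * th) := by
            rw [hLa, hκ, pow_add M (P1.card + R.card) Mm.card]; ring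
        _ ≤ 1 := hcr
    linarith
  have hmom := fun om : Fin g → ν => moment hM hC hτ hbl hinj hΛ W Mm Gs hG k KK hk (A ∪ S) S N
    subset_union_right hSN hKK hrow μ hμ s Cf (fun l _ => hsf l) hsN hsG hexp om wt f hwt
    (K0 * 2 ^ g) (hcp om) x0
  have hu : (0 : ℝ) < th ^ A.card * O.card := by positivity
  have hmk := Ev_markov (box W Mm x0) (Fintype.piFinset (fun j => if j ∈ S then Out else {q j}))
    (fun om x => ∑ o ∈ fam O y (A ∪ S) om, wt o * ∏ l ∈ Mm, rf G M (x l) (s l) (Cf l) (y o))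
    (thr * (th ^ A.card * O.card)) (M ^ (t' * S.card)) k hk (by positivity) (by positivity)
    ((box W Mm x0).filter fun x => thr * th ^ A.card * O.card < M ^ (t' * S.card) *
      ∑ om ∈ Fintype.piFinset (fun j => if j ∈ S then Out else {q j}),
        |∑ o ∈ fam O y (A ∪ S) om, ((∏ l ∈ P1, rf G M (x0 l) (s l) (Cf l) (y o)) *
          ∏ l ∈ R, bx G M (C0 l) (x0 l) (y o)) *
            ∏ l ∈ Mm, rf G M (x l) (s l) (Cf l) (y o)|) (filter_subset _ _)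
    (fun x hx' => by
      have := (mem_filter.1 hx').2
      rw [← mul_assoc]
      exact this)
    _ (τ ^ Gs.card) (by positivity) (fun om _ => hmom om)
  rw [Ev_card] at hmk
  refine Ev_fin (u := th ^ A.card * O.card) (m := S.card) hu hthr ?_ (one_le_pow₀ hM)
    (by positivity : (0 : ℝ) ≤ K0 * 2 ^ g) ?_ ?_ hmk
  · exact mul_nonneg (prod_nonneg fun l _ => Nat.cast_nonneg _) (by positivity)
  · exact Nat.mul_le_mul_right _ (Nat.sub_le _ _)
  · rw [hK0]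
    push_cast
    rw [mul_pow, mul_pow, ← pow_mul, ← pow_mul, ← pow_mul, pow_add th, pow_add 2 (P1.card + 1)]
    have e1 : M ^ ((t' + Mm.card + P1.card + R.card) * S.card) =
        M ^ (t' * S.card) * M ^ (Mm.card * S.card) * M ^ ((P1.card + R.card) * S.card) := by
      rw [← pow_add, ← pow_add]; congr 1; ring
    rw [e1]
    ring

end Pool.Agent.H82.RD
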