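/-
ROW RD Pty (about 70 lines). Uses Tt_zero, Tt_sub, Tt_succ, Tt_ne, Tt_end of Lvl.lean.
I_p := {e in range (#T1+1) | e % 2 = p, (Tt e).Nonempty}; sum over I_0 and I_1 of #G_e is #T1 (G_e empty if Tt e empty; Tt_end; telescoping). Take p with the larger sum X; sum over I_p of #G_(e+1) <= the sum of the other class (e -> e+1 is injective; terms with Tt (e+1) empty vanish) <= X.
geo: sum over I of D^e: all D^e <= D #T1 (Tt_ne), distinct powers of D >= 2: sum <= 2 * max.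
The last item: the sets Tt e \ Tt (e+2), e in I (same parity), are disjoint subsets of T1.
-/
import Pool.Agent.H82.RD.Lvl

set_option autoImplicit false
set_option linter.unusedSectionVars false

open Finset

namespace Pool.Agent.H82.RD

variable {L g : ℕ}

theorem parity_anti {D : ℕ} (T1 : Finset (Fin L)) (s : Fin L → Fin g) :
    Antitone (fun e => Tt D T1 s e) := by
  refine antitone_nat_of_succ_le fun e => ?_
  exact Tt_succ e

theorem parity_tel {D : ℕ} (T1 : Finset (Fin L)) (s : Fin L → Fin g) (n : ℕ) :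
    ∑ e ∈ range n, (Tt D T1 s e \ Tt D T1 s (e + 1)).card + (Tt D T1 s n).card = T1.card := by
  induction n with
  | zero => simp [Tt_zero]
  | succ n ih =>
    rw [sum_range_succ]
    have h := card_sdiff_add_card_eq_card (Tt_succ (D := D) (T1 := T1) (s := s) n)
    omega

theorem parity_geo {D : ℕ} (hD : 2 ≤ D) (I : Finset ℕ) (M : ℕ) (h : ∀ e ∈ I, D ^ e ≤ M) :
    ∑ e ∈ I, D ^ e ≤ 2 * M := by
  rcases I.eq_empty_or_nonempty with hI | hI
  · simp [hI]
  · have hm := I.max'_mem hI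
    rw [← add_sum_erase I (fun e => D ^ e) hm]
    have h1 : ∑ k ∈ I.erase (I.max' hI), D ^ k < D ^ (I.max' hI) := by
      refine Nat.geomSum_lt hD fun k hk => ?_
      rw [mem_erase] at hk
      exact lt_of_le_of_ne (I.le_max' k hk.2) hk.1
    have h2 := h _ hm
    omega

theorem parity_dis {D : ℕ} (T1 : Finset (Fin L)) (s : Fin L → Fin g) (I : Finset ℕ) (p : ℕ)
    (hI : ∀ e ∈ I, e % 2 = p) :
    ∑ e ∈ I, (Tt D T1 s e \ Tt D T1 s (e + 2)).card ≤ T1.card := by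
  rw [← card_biUnion]
  · refine card_le_card ?_
    intro l hl
    rw [mem_biUnion] at hl
    obtain ⟨e, -, he⟩ := hl
    exact Tt_sub e (mem_sdiff.1 he).1
  · have key : ∀ e ∈ I, ∀ e' ∈ I, e < e' →
        Disjoint (Tt D T1 s e \ Tt D T1 s (e + 2)) (Tt D T1 s e' \ Tt D T1 s (e' + 2)) := by
      intro e he e' he' hlt
      have h1 := hI e he
      have h2 := hI e' he'
      have h3 : e + 2 ≤ e' := by omega
      rw [disjoint_left]
      intro l hl hl'
      exact (mem_sdiff.1 hl).2 (parity_anti T1 s h3 (mem_sdiff.1 hl').1)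
    intro e he e' he' hne
    rcases lt_or_gt_of_ne hne with h | h
    · exact key e he e' he' h
    · exact (key e' he' e he h).symm

/-- The levels of parity `p`. -/
def pcl (D : ℕ) (T1 : Finset (Fin L)) (s : Fin L → Fin g) (p : ℕ) : Finset ℕ :=
  (range (T1.card + 1)).filter fun e => e % 2 = p ∧ (Tt D T1 s e).Nonempty

theorem pcl_sum {D : ℕ} (T1 : Finset (Fin L)) (s : Fin L → Fin g) (p : ℕ) :
    ∑ e ∈ pcl D T1 s p, (Tt D T1 s e \ Tt D T1 s (e + 1)).card =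
      ∑ e ∈ range (T1.card + 1),
        if e % 2 = p then (Tt D T1 s e \ Tt D T1 s (e + 1)).card else 0 := by
  unfold pcl
  rw [sum_filter]
  refine sum_congr rfl fun e _ => ?_
  by_cases hp : e % 2 = p
  · by_cases hn : (Tt D T1 s e).Nonempty
    · simp [hp, hn]
    · rw [not_nonempty_iff_eq_empty] at hn
      simp [hn]
  · simp [hp]

theorem pcl_shift {D : ℕ} (hD : 1 ≤ D) (T1 : Finset (Fin L)) (s : Fin L → Fin g) (p q : ℕ)
    (hpq : ∀ e, e % 2 = p → (e + 1) % 2 = q) :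
    ∑ e ∈ pcl D T1 s p, (Tt D T1 s (e + 1) \ Tt D T1 s (e + 2)).card ≤
      ∑ e ∈ pcl D T1 s q, (Tt D T1 s e \ Tt D T1 s (e + 1)).card := by
  rw [pcl_sum]
  calc ∑ e ∈ pcl D T1 s p, (Tt D T1 s (e + 1) \ Tt D T1 s (e + 2)).card
      = ∑ e ∈ pcl D T1 s p, (if (e + 1) % 2 = q then
          (Tt D T1 s (e + 1) \ Tt D T1 s (e + 1 + 1)).card else 0) := by
        refine sum_congr rfl fun e he => ?_
        unfold pcl at he
        rw [mem_filter] at he
        rw [if_pos (hpq e he.2.1)]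
    _ ≤ ∑ e ∈ range (T1.card + 1), (if (e + 1) % 2 = q then
          (Tt D T1 s (e + 1) \ Tt D T1 s (e + 1 + 1)).card else 0) :=
        sum_le_sum_of_subset (filter_subset _ _)
    _ ≤ ∑ e ∈ range (T1.card + 1 + 1),
        (if e % 2 = q then (Tt D T1 s e \ Tt D T1 s (e + 1)).card else 0) := by
        rw [sum_range_succ' _ (T1.card + 1)]
        exact Nat.le_add_right _ _
    _ = _ := by
        rw [sum_range_succ, Tt_end hD (T1.card + 1) (Nat.le_succ _)]
        simp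

theorem parity {D : ℕ} (hD : 2 ≤ D) (T1 : Finset (Fin L)) (s : Fin L → Fin g) :
    ∃ (I : Finset ℕ) (p : ℕ), (∀ e ∈ I, e % 2 = p) ∧ (∀ e ∈ I, (Tt D T1 s e).Nonempty) ∧
      T1.card ≤ 2 * ∑ e ∈ I, (Tt D T1 s e \ Tt D T1 s (e + 1)).card ∧
      ∑ e ∈ I, (Tt D T1 s (e + 1) \ Tt D T1 s (e + 2)).card ≤
        ∑ e ∈ I, (Tt D T1 s e \ Tt D T1 s (e + 1)).card ∧
      ∑ e ∈ I, D ^ e ≤ 2 * D * T1.card ∧
      ∑ e ∈ I, (Tt D T1 s e \ Tt D T1 s (e + 2)).card ≤ T1.card := by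
  have hD1 : 1 ≤ D := by omega
  have hsum : ∑ e ∈ pcl D T1 s 0, (Tt D T1 s e \ Tt D T1 s (e + 1)).card +
      ∑ e ∈ pcl D T1 s 1, (Tt D T1 s e \ Tt D T1 s (e + 1)).card = T1.card := by
    rw [pcl_sum, pcl_sum, ← sum_add_distrib]
    have h := parity_tel (D := D) T1 s (T1.card + 1)
    rw [Tt_end hD1 (T1.card + 1) (Nat.le_succ _), card_empty, add_zero] at h
    refine Eq.trans ?_ h
    refine sum_congr rfl fun e _ => ?_
    rcases Nat.mod_two_eq_zero_or_one e with h0 | h0 <;> simp [h0]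
  have main : ∀ p q : ℕ, (∀ e, e % 2 = p → (e + 1) % 2 = q) →
      ∑ e ∈ pcl D T1 s q, (Tt D T1 s e \ Tt D T1 s (e + 1)).card ≤
        ∑ e ∈ pcl D T1 s p, (Tt D T1 s e \ Tt D T1 s (e + 1)).card →
      ∑ e ∈ pcl D T1 s p, (Tt D T1 s e \ Tt D T1 s (e + 1)).card +
        ∑ e ∈ pcl D T1 s q, (Tt D T1 s e \ Tt D T1 s (e + 1)).card = T1.card →
      ∃ (I : Finset ℕ) (p : ℕ), (∀ e ∈ I, e % 2 = p) ∧ (∀ e ∈ I, (Tt D T1 s e).Nonempty) ∧
      T1.card ≤ 2 * ∑ e ∈ I, (Tt D T1 s e \ Tt D T1 s (e + 1)).card ∧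
      ∑ e ∈ I, (Tt D T1 s (e + 1) \ Tt D T1 s (e + 2)).card ≤
        ∑ e ∈ I, (Tt D T1 s e \ Tt D T1 s (e + 1)).card ∧
      ∑ e ∈ I, D ^ e ≤ 2 * D * T1.card ∧
      ∑ e ∈ I, (Tt D T1 s e \ Tt D T1 s (e + 2)).card ≤ T1.card := by
    intro p q hpq hle hs
    have hpar : ∀ e ∈ pcl D T1 s p, e % 2 = p := fun e he => (mem_filter.1 he).2.1
    have hne : ∀ e ∈ pcl D T1 s p, (Tt D T1 s e).Nonempty := fun e he => (mem_filter.1 he).2.2
    refine ⟨pcl D T1 s p, p, hpar, hne, by omega, (pcl_shift hD1 T1 s p q hpq).trans hle, ?_,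
      parity_dis T1 s _ p hpar⟩
    rw [mul_assoc]
    exact parity_geo hD _ _ fun e he => Tt_ne hD1 e (hne e he)
  rcases le_total (∑ e ∈ pcl D T1 s 1, (Tt D T1 s e \ Tt D T1 s (e + 1)).card)
    (∑ e ∈ pcl D T1 s 0, (Tt D T1 s e \ Tt D T1 s (e + 1)).card) with h | h
  · exact main 0 1 (fun e he => by omega) h hsum
  · exact main 1 0 (fun e he => by omega) h (by omega)

end Pool.Agent.H82.RD
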