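/-
ROW RD Spt (about 70 lines; adapt Pool/Agent/H82/RL/Spt.lean, helper90). The rows T3 whose positions lie in S are split off.
PROOF. fam O y A q is the disjoint union over om in Fintype.piFinset (fun j => if j in S then Out else {q j}) of fam O y (A ∪ S) om (om := y o on S; om = q on A since A, S are disjoint). On fam O y (A ∪ S) om the product over T3 is a constant (y o = om on insert (s l) (Cf l) ⊆ S), of absolute value <= prod_{T3} M^#(insert (s l) (Cf l)) <= M^(#T3 #S)  (|HH| <= M, 0 <= bx <= M^#Cf l, s l not in Cf l, M >= 1).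
-/
import Pool.Agent.H82.RD.Defs

set_option autoImplicit false
set_option linter.unusedSectionVars false

open Finset

namespace Pool.Agent.H82.RD

variable {ν ι : Type} [Fintype ν] [DecidableEq ν] {L g : ℕ}

theorem split_bound {G : SimpleGraph ν} {M : ℝ} (hM : 1 ≤ M)
    {O : Finset ι} {y : ι → Fin g → ν} {Out : Finset ν} (hout : ∀ o ∈ O, ∀ j, y o j ∈ Out)
    (A S : Finset (Fin g)) (q : Fin g → ν) (hAS : Disjoint A S) (T3 : Finset (Fin L))
    (s : Fin L → Fin g) (Cf : Fin L → Finset (Fin g)) (hsf : ∀ l ∈ T3, s l ∉ Cf l)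
    (hS : ∀ l ∈ T3, insert (s l) (Cf l) ⊆ S) (F : ι → ℝ) (x : Fin L → ν) :
    |∑ o ∈ fam O y A q, F o * ∏ l ∈ T3, rf G M (x l) (s l) (Cf l) (y o)| ≤
      M ^ (T3.card * S.card) *
      ∑ om ∈ Fintype.piFinset (fun j => if j ∈ S then Out else {q j}),
        |∑ o ∈ fam O y (A ∪ S) om, F o| := by
  have hM0 : (0 : ℝ) ≤ M := le_trans zero_le_one hM
  -- the value of the product over `T3` is bounded
  have hbx : ∀ (C : Finset (Fin g)) (v : ν) (yo : Fin g → ν), bx G M C v yo ≤ M ^ C.card := by
    intro C v yo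
    unfold bx
    rw [← prod_const]
    refine prod_le_prod (fun j _ => ?_) (fun j _ => ?_)
    · split_ifs
      · exact hM0
      · exact le_rfl
    · split_ifs
      · exact le_rfl
      · exact hM0
  have hc : ∀ om : Fin g → ν, |∏ l ∈ T3, rf G M (x l) (s l) (Cf l) om| ≤
      M ^ (T3.card * S.card) := by
    intro om
    rw [abs_prod, mul_comm, pow_mul, ← prod_const]
    refine prod_le_prod (fun l _ => abs_nonneg _) (fun l hl => ?_)
    unfold rf
    rw [abs_mul, abs_of_nonneg (bx_nonneg hM0 _ _ _)]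
    have h1 : |HH G M (x l) (om (s l))| * bx G M (Cf l) (x l) om ≤ M * M ^ (Cf l).card :=
      mul_le_mul (abs_HH_le hM _ _) (hbx _ _ _) (bx_nonneg hM0 _ _ _) hM0
    refine h1.trans ?_
    rw [← pow_succ']
    refine pow_le_pow_right₀ hM ?_
    rw [← card_insert_of_notMem (hsf l hl)]
    exact card_le_card (hS l hl)
  -- the fibres
  let φ : ι → Fin g → ν := fun o j => if j ∈ S then y o j else q j
  have hφ : ∀ o ∈ fam O y A q, φ o ∈
      Fintype.piFinset (fun j => if j ∈ S then Out else {q j}) := by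
    intro o ho
    rw [Fintype.mem_piFinset]
    intro j
    simp only [φ]
    by_cases hj : j ∈ S
    · rw [if_pos hj, if_pos hj]
      exact hout o (fam_sub _ _ _ _ ho) j
    · rw [if_neg hj, if_neg hj]
      exact mem_singleton_self _
  rw [← sum_fiberwise_of_maps_to hφ, mul_sum]
  refine (abs_sum_le_sum_abs _ _).trans (sum_le_sum fun om hom => ?_)
  rw [Fintype.mem_piFinset] at hom
  have hom' : ∀ j, j ∉ S → om j = q j := by
    intro j hj
    have h1 := hom j
    rw [if_neg hj, mem_singleton] at h1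
    exact h1
  have hfib : (fam O y A q).filter (fun o => φ o = om) = fam O y (A ∪ S) om := by
    ext o
    rw [mem_filter, mem_fam, mem_fam]
    constructor
    · rintro ⟨⟨h1, h2⟩, h3⟩
      refine ⟨h1, fun j hj => ?_⟩
      rcases mem_union.1 hj with hj | hj
      · rw [h2 j hj, hom' j (fun h => disjoint_left.1 hAS hj h)]
      · have h4 := congrFun h3 j
        simp only [φ, if_pos hj] at h4
        exact h4
    · rintro ⟨h1, h2⟩
      refine ⟨⟨h1, fun j hj => ?_⟩, ?_⟩
      · rw [h2 j (mem_union_left _ hj), hom' j (fun h => disjoint_left.1 hAS hj h)]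
      · funext j
        simp only [φ]
        by_cases hj : j ∈ S
        · rw [if_pos hj, h2 j (mem_union_right _ hj)]
        · rw [if_neg hj, hom' j hj]
  rw [hfib]
  have hconst : ∀ o ∈ fam O y (A ∪ S) om,
      F o * ∏ l ∈ T3, rf G M (x l) (s l) (Cf l) (y o) =
      F o * ∏ l ∈ T3, rf G M (x l) (s l) (Cf l) om := by
    intro o ho
    have h2 := (mem_fam.1 ho).2
    have h3 : ∀ j ∈ S, y o j = om j := fun j hj => h2 j (mem_union_right _ hj)
    congr 1
    refine prod_congr rfl fun l hl => ?_
    unfold rf bx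
    rw [h3 (s l) (hS l hl (mem_insert_self _ _))]
    congr 1
    refine prod_congr rfl fun j hj => ?_
    rw [h3 j (hS l hl (mem_insert_of_mem hj))]
  rw [sum_congr rfl hconst, ← sum_mul, abs_mul, mul_comm]
  exact mul_le_mul_of_nonneg_right (hc om) (abs_nonneg _)

end Pool.Agent.H82.RD
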