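/-
ROW RD Clm (about 200 lines; adapt Pool/Agent/H82/RL/Clm.lean, helper43). The claim of section 3: all stages together. Tt e, Jt e, parity, ...: Lvl.lean. Cf l := C l ∩ af D T1 s l (s l), t := #T1.
PROOF. I, p from parity. iter (Box.lean) with T e := Tt D T1 s e, Cond x := the violation and no proper violation, and for e in I: k := μ D^e, G_e := Tt e \ Tt (e+1), Mm := Tt e \ Tt (e+2), T3 := Tt (e+2), P1 := T1 \ Tt e, S := Jt (e+2), N := (Jt e \ S) \ A, Gs := {l in G_e | s l ∉ S},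
 c e := (τ^#Gs)^-1 (4^KK C)^#Mm (h^(450 #S) 2^(t0+1+g) / η^t0)^(2k).
 hstep: if the set is empty, trivial (c e >= 0). Otherwise some x' in box W Mm x and x'' in box W T3 x' satisfy Cond x''; x'' = x on P1 ∪ R, which is a proper subset of T1 ∪ R (Tt e nonempty): NoVio (P1 ∪ R) x (NoVio_congr).
 For every x' in the set: ZS .. T1 R x'' with T1 = P1 ∪ Mm ∪ T3 (disjoint): split_bound (Spt.lean) with T3, F o := prod_{P1} rf * prod_R bx * prod_{Mm} rf (rows P1, R: x'' = x; Mm: x'' = x'), so the event of ev_bound holds with thr := η^t, t' := #T3, x0 := x.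
 Hypotheses of ev_bound: A disjoint from S (Jt_sv: j = s l with l in T1, s l in C l) and from N; sv_mem, af_sub: for l in Tt e insert (s l) (Cf l) ⊆ Jt e ∩ C l, so ⊆ S ∪ N for l in Mm and ⊆ S for l in T3. hKK: e = 0: #(S ∪ N) <= g, μ g <= KK. e = e'+1: μ D^(e'+1) #Jt (e'+1) <= μ D #G_e' <= μ D t0 <= KK (Jt_card; S ⊆ Jt e since zz is monotone, or use (S ∪ N) ⊆ Jt e).
 hexp: sv_card. hcr: k <= μ D t <= KK (Tt_ne) and #P1 + #R + #Mm <= #T1 + #R. The factor: #Out M^(#T1 + #R) th <= #Out <= h^450 (N2, hM1), #P1 <= t0, thr = η^t >= η^t0.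
 Product over I. τ >= h^100. sum_I #Gs >= X - Y / D, X := sum_I #G_e >= t/2, Y := sum_I #G_(e+1) <= X (Gs_card, parity). 900 k #S = 900 μ D^e #Jt (e+2), and D * (D^e #Jt (e+2)) <= #G_(e+1) (Jt_card (e+1)): the total of the exponents of h is >= 100 X - (100 + 900 μ) X / D >= 96 X >= 48 t as D >= 320 μ + 1 (work with D times the exponents in N or with reals).
 prod (4^KK C)^#Mm <= h^t (parity, N0). prod (2^(t0+1+g) / η^t0)^(2k) <= (..)^(2 μ sum_I D^e) <= (..)^(4 μ D t) with (..)^(8 μ D) <= h (N1): <= h^t (base >= 1). Total h^(-46 t) <= h^(-40 t).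
-/
import Pool.Agent.H82.RD.Ev
import Pool.Agent.H82.RD.Spt
import Pool.Agent.H82.RD.Pty

set_option autoImplicit false
set_option linter.unusedSectionVars false

open Finset

namespace Pool.Agent.H82.RD

variable {ν ι : Type} [Fintype ν] [DecidableEq ν] {L g : ℕ}

private lemma Clm_card {α : Type} (s : Finset α) (p : α → Prop) (i1 i2 : DecidablePred p) :
    ((@Finset.filter α p i1 s).card : ℝ) ≤ ((@Finset.filter α p i2 s).card : ℝ) := by
  rw [Subsingleton.elim i1 i2]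

private lemma Clm_zz (D : ℕ) {e e' : ℕ} (h : e ≤ e') : zz D e ≤ zz D e' := by
  unfold zz
  exact sum_le_sum_of_subset (range_mono h)

private lemma Clm_Jt {D : ℕ} {T1 : Finset (Fin L)} {s : Fin L → Fin g} {e e' : ℕ} (h : e ≤ e') :
    Jt D T1 s e' ⊆ Jt D T1 s e := by
  intro j hj
  unfold Jt at hj ⊢
  rw [mem_filter] at hj ⊢
  exact ⟨hj.1, (Clm_zz D h).trans hj.2⟩

/-- Arithmetic of one stage. -/
private lemma Clm_arith {h τ E P Q X B : ℝ} (hh : 1 ≤ h) (hτh : h ^ 100 ≤ τ) {a m S k : ℕ}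
    (hE : 0 ≤ E) (hP : 0 ≤ P) (hQ0 : 0 ≤ Q) (hQ : Q ≤ h) (hX0 : 0 ≤ X)
    (hX : X ≤ h ^ (450 * S) * B) (key : τ ^ a * E ≤ P * Q ^ m * X ^ (2 * k)) :
    E ≤ (h ^ (100 * a))⁻¹ * (h ^ (m + 900 * (k * S)) * B ^ (2 * k)) * P := by
  have h0 : 0 < h := by linarith
  have h1 : h ^ (100 * a) ≤ τ ^ a := by
    rw [pow_mul]
    exact pow_le_pow_left₀ (by positivity) hτh a
  have h2 : Q ^ m ≤ h ^ m := pow_le_pow_left₀ hQ0 hQ m
  have h3 : X ^ (2 * k) ≤ (h ^ (450 * S) * B) ^ (2 * k) := pow_le_pow_left₀ hX0 hX _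
  have h4 : h ^ (100 * a) * E ≤ P * h ^ m * (h ^ (450 * S) * B) ^ (2 * k) := by
    calc h ^ (100 * a) * E ≤ τ ^ a * E := mul_le_mul_of_nonneg_right h1 hE
      _ ≤ P * Q ^ m * X ^ (2 * k) := key
      _ ≤ P * h ^ m * (h ^ (450 * S) * B) ^ (2 * k) := by
        refine mul_le_mul (mul_le_mul_of_nonneg_left h2 hP) h3 (by positivity) (by positivity)
  have h5 : P * h ^ m * (h ^ (450 * S) * B) ^ (2 * k) =
      h ^ (m + 900 * (k * S)) * B ^ (2 * k) * P := by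
    rw [mul_pow, ← pow_mul, pow_add, show 450 * S * (2 * k) = 900 * (k * S) by ring]
    ring
  rw [h5] at h4
  have h6 : 0 < h ^ (100 * a) := by positivity
  rw [mul_assoc, inv_mul_eq_div, le_div_iff₀ h6, mul_comm]
  exact h4

open Classical in
private theorem Clm_step {G : SimpleGraph ν} {M C τ bl η th h : ℝ} (hM : 1 ≤ M) (hC : 1 ≤ C)
    (hh : 1 ≤ h) (hτh : h ^ 100 ≤ τ) (hbl : 1 ≤ bl) (hη : 0 < η) (hη1 : η ≤ 1)
    (hgη : (1 + g * η) ^ L ≤ 5 / 4) (hth : 0 < th) {O : Finset ι} {y : ι → Fin g → ν}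
    (hO : O.Nonempty) (hinj : ∀ o ∈ O, Function.Injective (y o))
    (hsp : ∀ (A : Finset (Fin g)) (q : Fin g → ν), ((fam O y A q).card : ℝ) ≤ th ^ A.card * O.card)
    {Λ Out : Finset ν} (hΛ : ∀ o ∈ O, ∀ j, y o j ∈ Λ) (hOut : ∀ o ∈ O, ∀ j, y o j ∈ Out)
    (W : Fin L → Finset ν) (T1 R : Finset (Fin L)) (hTR : Disjoint T1 R)
    (KK μ D t0 : ℕ) (hμ1 : 1 ≤ μ) (hD : 1 ≤ D) (ht0 : T1.card ≤ t0)
    (hKD : D * μ * t0 ≤ KK) (hgK : μ * g ≤ KK)
    (hrow : ∀ l ∈ T1, RowOK G M (W l) Λ (2 * KK) (2 * KK) C τ) (hμ : τ ≤ bl ^ μ)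
    (hcr : 2 * KK * g * (bl * M ^ (T1.card + R.card) * th) ≤ 1)
    (hM1 : M ^ (T1.card + R.card) * th ≤ 1)
    (N0 : 4 ^ KK * C ≤ h) (N2 : (Out.card : ℝ) ≤ h ^ 450)
    (A : Finset (Fin g)) (q : Fin g → ν) (C0 : Fin L → Finset (Fin g)) (hCA : ∀ l, Disjoint (C0 l) A)
    (s : Fin L → Fin g) (hs : ∀ l ∈ T1, s l ∈ C0 l) (e : ℕ) (Ta Tb Tc : Finset (Fin L))
    (hTa : Ta = Tt D T1 s e) (hTb : Tb = Tt D T1 s (e + 1)) (hTc : Tc = Tt D T1 s (e + 2))
    (hne : Ta.Nonempty) (x : Fin L → ν) :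
    (((box W (Ta \ Tc) x).filter fun x' => ∃ x'' ∈ box W Tc x',
      (η ^ T1.card * th ^ A.card < |ZS G M D O y A q C0 s T1 R x''| ∧
      ∀ T' ⊆ T1 ∪ R, T' ≠ T1 ∪ R → T'.Nonempty → ¬ Vio G M t0 D O y η th T' x'')).card : ℝ) ≤
      (h ^ (100 * ((Ta \ Tb).filter fun l => s l ∉ Jt D T1 s (e + 2)).card))⁻¹ *
      (h ^ ((Ta \ Tc).card + 900 * (μ * D ^ e * (Jt D T1 s (e + 2)).card)) *
        (2 ^ (g + t0 + 1) / η ^ t0) ^ (2 * (μ * D ^ e))) *
      ∏ l ∈ Ta \ Tc, ((W l).card : ℝ) := by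
  have hTaT : Ta ⊆ T1 := by rw [hTa]; exact Tt_sub e
  have hTba : Tb ⊆ Ta := by rw [hTa, hTb]; exact Tt_succ e
  have hTcb : Tc ⊆ Tb := by rw [hTb, hTc]; exact Tt_succ (e + 1)
  have hTca : Tc ⊆ Ta := hTcb.trans hTba
  have h0 : 0 < h := by linarith
  have hM0 : 0 < M := by linarith
  have hO0 : (0 : ℝ) < O.card := by exact_mod_cast card_pos.2 hO
  by_cases hem : ∃ x' ∈ box W (Ta \ Tc) x, ∃ x'' ∈ box W Tc x',
      (η ^ T1.card * th ^ A.card < |ZS G M D O y A q C0 s T1 R x''| ∧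
      ∀ T' ⊆ T1 ∪ R, T' ≠ T1 ∪ R → T'.Nonempty → ¬ Vio G M t0 D O y η th T' x'')
  swap
  · have h1 : ((box W (Ta \ Tc) x).filter fun x' => ∃ x'' ∈ box W Tc x',
      (η ^ T1.card * th ^ A.card < |ZS G M D O y A q C0 s T1 R x''| ∧
      ∀ T' ⊆ T1 ∪ R, T' ≠ T1 ∪ R → T'.Nonempty → ¬ Vio G M t0 D O y η th T' x'')) = ∅ := by
      rw [filter_eq_empty_iff]
      intro x' hx' hx''
      exact hem ⟨x', hx', hx''⟩
    rw [h1, card_empty, Nat.cast_zero]
    positivity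
  obtain ⟨z', hz', z'', hz'', hzZ, hzV⟩ := hem
  rw [mem_box] at hz' hz''
  set P1 : Finset (Fin L) := T1 \ Ta with hP1
  set Mm : Finset (Fin L) := Ta \ Tc with hMm
  set Cf : Fin L → Finset (Fin g) := fun l => C0 l ∩ af D T1 s l (s l) with hCf
  have hPTa : ∀ l ∈ P1 ∪ R, l ∉ Ta := by
    intro l hl
    rw [mem_union, hP1, mem_sdiff] at hl
    rcases hl with hl | hl
    · exact hl.2
    · exact fun h' => disjoint_left.1 hTR (hTaT h') hl
  have hzx : ∀ l ∈ P1 ∪ R, z'' l = x l := by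
    intro l hl
    have h1 := hPTa l hl
    rw [hz''.2 l (fun h => h1 (hTca h)), hz'.2 l (fun h => h1 (mem_sdiff.1 h).1)]
  have hPsub : P1 ∪ R ⊆ T1 ∪ R := union_subset_union sdiff_subset (Subset.refl _)
  have hNo : NoVio G M t0 D O y η th (P1 ∪ R) x := by
    refine NoVio_congr (x := z'') hzx ?_
    intro T' h1 h2
    refine hzV T' (h1.trans hPsub) ?_ h2
    intro heq
    obtain ⟨l, hl⟩ := hne
    have h3 : l ∈ T' := by
      rw [heq]
      exact mem_union_left _ (hTaT hl)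
    exact hPTa l (h1 h3) hl
  set S : Finset (Fin g) := Jt D T1 s (e + 2) with hS
  set N : Finset (Fin g) := (Jt D T1 s e \ S) \ A with hN
  have hSJ : S ⊆ Jt D T1 s e := Clm_Jt (by omega)
  have hSN : S ∪ N ⊆ Jt D T1 s e :=
    union_subset hSJ (sdiff_subset.trans sdiff_subset)
  have hAS : Disjoint A S := by
    rw [disjoint_left]
    intro j hj hj'
    obtain ⟨l, hl, rfl⟩ := Jt_sv hD (e := e + 1) hj'
    exact disjoint_left.1 (hCA l) (hs l hl) hj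
  have hins : ∀ l ∈ T1, insert (s l) (Cf l) ⊆ C0 l := by
    intro l hl
    rw [insert_subset_iff]
    exact ⟨hs l hl, inter_subset_left⟩
  have hinJ : ∀ e', ∀ l ∈ Tt D T1 s e', insert (s l) (Cf l) ⊆ Jt D T1 s e' := by
    intro e' l hl
    rw [insert_subset_iff]
    exact ⟨sv_mem hD hl, inter_subset_right.trans (af_sub hD hl)⟩
  have hsf : ∀ l, s l ∉ Cf l := by
    intro l hl
    exact af_irrefl (mem_inter.1 hl).2
  set k : ℕ := μ * D ^ e with hk
  have hk1 : 1 ≤ k := Nat.mul_pos hμ1 (Nat.pow_pos hD)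
  have hkKK : k ≤ KK := by
    calc k = μ * D ^ e := hk
      _ ≤ μ * (D * T1.card) := Nat.mul_le_mul_left _ (Tt_ne hD e (by rw [← hTa]; exact hne))
      _ ≤ μ * (D * t0) := Nat.mul_le_mul_left _ (Nat.mul_le_mul_left _ ht0)
      _ = D * μ * t0 := by ring
      _ ≤ KK := hKD
  have hKK : k * (S ∪ N).card ≤ KK := by
    refine (Nat.mul_le_mul_left _ (card_le_card hSN)).trans ?_
    rw [hk]
    rcases e with _ | e
    · rw [pow_zero, mul_one]
      refine le_trans (Nat.mul_le_mul_left _ ((card_le_univ _).trans ?_)) hgK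
      rw [Fintype.card_fin]
    · calc μ * D ^ (e + 1) * (Jt D T1 s (e + 1)).card
          = D * μ * ((Jt D T1 s (e + 1)).card * D ^ e) := by ring
        _ ≤ D * μ * t0 := Nat.mul_le_mul_left _ ((Jt_card hD e).trans
            ((card_le_card (sdiff_subset.trans (Tt_sub e))).trans ht0))
        _ ≤ KK := hKD
  set Gs : Finset (Fin L) := (Ta \ Tb).filter fun l => s l ∉ S with hGs
  have hGM : Gs ⊆ Mm := (filter_subset _ _).trans (sdiff_subset_sdiff (Subset.refl _) hTcb)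
  have hinSN : ∀ l ∈ Ta, ∀ j ∈ insert (s l) (Cf l), j ∉ S → j ∈ N := by
    intro l hl j hj hjS
    rw [hN, mem_sdiff, mem_sdiff]
    exact ⟨⟨hinJ e l (by rw [← hTa]; exact hl) hj, hjS⟩, fun hA => disjoint_left.1 (hCA l) (hins l (hTaT hl) hj) hA⟩
  have hcardT : P1.card + Mm.card + Tc.card = T1.card := by
    have h1 := card_sdiff_add_card_eq_card hTaT
    have h2 := card_sdiff_add_card_eq_card hTca
    rw [hP1, hMm]
    omega
  have hthr : 0 < η ^ T1.card := by positivity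
  have hbl0 : 0 < bl := by linarith
  have hMle : M ^ (P1.card + R.card + Mm.card) ≤ M ^ (T1.card + R.card) :=
    pow_le_pow_right₀ hM (by omega)
  have key := ev_bound (G := G) (M := M) (C := C) (τ := τ) (bl := bl) (η := η) (th := th) hM hC
    (le_trans (one_le_pow₀ hh) hτh) hbl hη.le hgη hth (t0 := t0) (D := D)
    (by
      obtain ⟨l, hl⟩ := hne
      exact (card_pos.2 ⟨l, hTaT hl⟩).trans_le ht0) (O := O) (y := y) hO hinj hsp (Λ := Λ) hΛ W P1 R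
    Mm Gs (disjoint_of_subset_left sdiff_subset hTR) hGM k KK hk1 A S N hAS disjoint_sdiff
    (disjoint_of_subset_right sdiff_subset disjoint_sdiff) hKK
    (fun l hl => hrow l (hTaT (mem_sdiff.1 hl).1)) μ hμ C0 hCA s Cf hsf
    (fun l hl => hins l (mem_sdiff.1 hl).1)
    (fun l hl j hj => by
      rw [mem_union]
      by_cases hjS : j ∈ S
      · exact Or.inl hjS
      · exact Or.inr (hinSN l (mem_sdiff.1 hl).1 j hj hjS))
    (fun l hl => by
      rw [hGs, mem_filter, mem_sdiff] at hl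
      exact hinSN l hl.1.1 _ (mem_insert_self _ _) hl.2)
    (fun S' hS' => by
      have h1 := sv_card (T1 := T1) (s := s) hD e S' (by
        rw [← hTa, ← hTb]
        exact hS'.trans (filter_subset _ _))
      calc μ * S'.card ≤ μ * ((S'.image s).card * D ^ e) := Nat.mul_le_mul_left _ h1
        _ = k * (S'.image s).card := by rw [hk]; ring)
    x hNo
    (by
      refine le_trans ?_ hcr
      have h1 : (k : ℝ) ≤ KK := by exact_mod_cast hkKK
      gcongr)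
    Tc.card Out q (η ^ T1.card) hthr
  have hev : (((box W Mm x).filter fun x' => ∃ x'' ∈ box W Tc x',
      (η ^ T1.card * th ^ A.card < |ZS G M D O y A q C0 s T1 R x''| ∧
      ∀ T' ⊆ T1 ∪ R, T' ≠ T1 ∪ R → T'.Nonempty → ¬ Vio G M t0 D O y η th T' x'')).card : ℝ) ≤
      (((box W Mm x).filter fun x' => η ^ T1.card * th ^ A.card * O.card <
        M ^ (Tc.card * S.card) *
      ∑ om ∈ Fintype.piFinset (fun j => if j ∈ S then Out else {q j}),
        |∑ o ∈ fam O y (A ∪ S) om, ((∏ l ∈ P1, rf G M (x l) (s l) (Cf l) (y o)) *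
          ∏ l ∈ R, bx G M (C0 l) (x l) (y o)) *
            ∏ l ∈ Mm, rf G M (x' l) (s l) (Cf l) (y o)|).card : ℝ) := by
    have hsub : ((box W Mm x).filter fun x' => ∃ x'' ∈ box W Tc x',
      (η ^ T1.card * th ^ A.card < |ZS G M D O y A q C0 s T1 R x''| ∧
      ∀ T' ⊆ T1 ∪ R, T' ≠ T1 ∪ R → T'.Nonempty → ¬ Vio G M t0 D O y η th T' x'')) ⊆
      ((box W Mm x).filter fun x' => η ^ T1.card * th ^ A.card * O.card <
        M ^ (Tc.card * S.card) *
      ∑ om ∈ Fintype.piFinset (fun j => if j ∈ S then Out else {q j}),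
        |∑ o ∈ fam O y (A ∪ S) om, ((∏ l ∈ P1, rf G M (x l) (s l) (Cf l) (y o)) *
          ∏ l ∈ R, bx G M (C0 l) (x l) (y o)) *
            ∏ l ∈ Mm, rf G M (x' l) (s l) (Cf l) (y o)|) := by
      intro x' hx'
      rw [mem_filter] at hx' ⊢
      refine ⟨hx'.1, ?_⟩
      obtain ⟨x'', hx''1, hx''2, -⟩ := hx'.2
      have hx1 := mem_box.1 hx'.1
      rw [mem_box] at hx''1
      have hsp := split_bound (G := G) hM hOut A S q hAS Tc s Cf (fun l _ => hsf l)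
        (fun l hl => hinJ (e + 2) l (by rw [← hTc]; exact hl))
        (fun o => ((∏ l ∈ P1, rf G M (x l) (s l) (Cf l) (y o)) *
          ∏ l ∈ R, bx G M (C0 l) (x l) (y o)) *
            ∏ l ∈ Mm, rf G M (x' l) (s l) (Cf l) (y o)) x''
      refine lt_of_lt_of_le ?_ hsp
      unfold ZS at hx''2
      rw [abs_div, abs_of_pos hO0, lt_div_iff₀ hO0] at hx''2
      refine lt_of_lt_of_le hx''2 (le_of_eq ?_)
      congr 1
      refine sum_congr rfl fun o _ => ?_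
      have e1 : ∏ l ∈ P1, rf G M (x l) (s l) (Cf l) (y o) =
          ∏ l ∈ P1, rf G M (x'' l) (s l) (C0 l ∩ af D T1 s l (s l)) (y o) := by
        refine prod_congr rfl fun l hl => ?_
        have h1 := hPTa l (mem_union_left _ hl)
        rw [hx''1.2 l (fun h => h1 (hTca h)), hx1.2 l (fun h => h1 (mem_sdiff.1 h).1)]
      have e2 : ∏ l ∈ R, bx G M (C0 l) (x l) (y o) = ∏ l ∈ R, bx G M (C0 l) (x'' l) (y o) := by
        refine prod_congr rfl fun l hl => ?_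
        have h1 := hPTa l (mem_union_right _ hl)
        rw [hx''1.2 l (fun h => h1 (hTca h)), hx1.2 l (fun h => h1 (mem_sdiff.1 h).1)]
      have e3 : ∏ l ∈ Mm, rf G M (x' l) (s l) (Cf l) (y o) =
          ∏ l ∈ Mm, rf G M (x'' l) (s l) (C0 l ∩ af D T1 s l (s l)) (y o) := by
        refine prod_congr rfl fun l hl => ?_
        rw [hx''1.2 l (mem_sdiff.1 hl).2]
      rw [e1, e2, e3, ← prod_sdiff hTaT, ← prod_sdiff hTca]
      ring
    exact_mod_cast card_le_card hsub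
  refine le_trans hev ?_
  clear hev
  have hW0 : (0 : ℝ) ≤ ∏ l ∈ Mm, ((W l).card : ℝ) := prod_nonneg fun l _ => Nat.cast_nonneg _
  have hQ0 : 0 ≤ 4 ^ KK * C := mul_nonneg (pow_nonneg (by norm_num) _) (by linarith)
  have hOM : 0 ≤ (Out.card : ℝ) * M ^ (Tc.card + Mm.card + P1.card + R.card) * th :=
    mul_nonneg (mul_nonneg (Nat.cast_nonneg _) (pow_nonneg hM0.le _)) hth.le
  have hX0 : 0 ≤ ((Out.card : ℝ) * M ^ (Tc.card + Mm.card + P1.card + R.card) * th) ^ S.card *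
      2 ^ (P1.card + 1 + g) / η ^ T1.card :=
    div_nonneg (mul_nonneg (pow_nonneg hOM _) (pow_nonneg (by norm_num) _)) hthr.le
  refine Clm_arith hh hτh (Nat.cast_nonneg _) hW0 hQ0 N0 hX0 ?_ key
  have h1 : (Out.card : ℝ) * M ^ (Tc.card + Mm.card + P1.card + R.card) * th ≤ h ^ 450 := by
    rw [show Tc.card + Mm.card + P1.card + R.card = T1.card + R.card by omega, mul_assoc]
    calc (Out.card : ℝ) * (M ^ (T1.card + R.card) * th) ≤ Out.card * 1 :=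
          mul_le_mul_of_nonneg_left hM1 (Nat.cast_nonneg _)
      _ = Out.card := mul_one _
      _ ≤ h ^ 450 := N2
  have h2 : ((Out.card : ℝ) * M ^ (Tc.card + Mm.card + P1.card + R.card) * th) ^ S.card ≤
      h ^ (450 * S.card) := by
    rw [pow_mul]
    exact pow_le_pow_left₀ hOM h1 _
  have h3 : (2 : ℝ) ^ (P1.card + 1 + g) ≤ 2 ^ (g + t0 + 1) :=
    pow_le_pow_right₀ (by norm_num) (by omega)
  have h4 : η ^ t0 ≤ η ^ T1.card := pow_le_pow_of_le_one hη.le hη1 ht0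
  have h5 : (2 : ℝ) ^ (P1.card + 1 + g) / η ^ T1.card ≤ 2 ^ (g + t0 + 1) / η ^ t0 :=
    div_le_div₀ (pow_nonneg (by norm_num) _) h3 (pow_pos hη _) h4
  rw [mul_div_assoc]
  exact mul_le_mul h2 h5 (div_nonneg (pow_nonneg (by norm_num) _) hthr.le) (pow_nonneg h0.le _)

open Classical in
theorem claim {G : SimpleGraph ν} {M C τ bl η th h : ℝ} (hM : 1 ≤ M) (hC : 1 ≤ C) (hh : 1 ≤ h)
    (hτh : h ^ 100 ≤ τ) (hbl : 1 ≤ bl) (hη : 0 < η) (hη1 : η ≤ 1)
    (hgη : (1 + g * η) ^ L ≤ 5 / 4) (hth : 0 < th) {O : Finset ι} {y : ι → Fin g → ν}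
    (hO : O.Nonempty) (hinj : ∀ o ∈ O, Function.Injective (y o))
    (hsp : ∀ (A : Finset (Fin g)) (q : Fin g → ν), ((fam O y A q).card : ℝ) ≤ th ^ A.card * O.card)
    {Λ Out : Finset ν} (hΛ : ∀ o ∈ O, ∀ j, y o j ∈ Λ) (hOut : ∀ o ∈ O, ∀ j, y o j ∈ Out)
    (W : Fin L → Finset ν) (T1 R : Finset (Fin L)) (hTR : Disjoint T1 R) (hT1 : T1.Nonempty)
    (KK μ D t0 : ℕ) (hμ1 : 1 ≤ μ) (hD : 320 * μ + 1 ≤ D) (ht0 : T1.card ≤ t0)
    (hKD : D * μ * t0 ≤ KK) (hgK : μ * g ≤ KK)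
    (hrow : ∀ l ∈ T1, RowOK G M (W l) Λ (2 * KK) (2 * KK) C τ) (hμ : τ ≤ bl ^ μ)
    (hcr : 2 * KK * g * (bl * M ^ (T1.card + R.card) * th) ≤ 1)
    (hM1 : M ^ (T1.card + R.card) * th ≤ 1)
    (N0 : 4 ^ KK * C ≤ h) (N1 : (2 ^ (g + t0 + 1) / η ^ t0) ^ (8 * μ * D) ≤ h)
    (N2 : (Out.card : ℝ) ≤ h ^ 450)
    (A : Finset (Fin g)) (q : Fin g → ν) (C0 : Fin L → Finset (Fin g)) (hCA : ∀ l, Disjoint (C0 l) A)
    (s : Fin L → Fin g) (hs : ∀ l ∈ T1, s l ∈ C0 l) (x0 : Fin L → ν) :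
    (((box W T1 x0).filter fun x => η ^ T1.card * th ^ A.card < |ZS G M D O y A q C0 s T1 R x| ∧
      ∀ T' ⊆ T1 ∪ R, T' ≠ T1 ∪ R → T'.Nonempty → ¬ Vio G M t0 D O y η th T' x).card : ℝ) *
      h ^ (40 * T1.card) ≤ ∏ l ∈ T1, ((W l).card : ℝ) := by
  have hD1 : 1 ≤ D := by omega
  have hD2 : 2 ≤ D := by omega
  have h0 : 0 < h := by linarith
  obtain ⟨I, p, hIp, hIne, hI1, hI2, hI3, hI4⟩ := parity hD2 T1 s
  have hit := iter W (fun e => Tt D T1 s e) (fun e => Tt_succ e) I p hIp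
    (fun e => (h ^ (100 * ((Tt D T1 s e \ Tt D T1 s (e + 1)).filter
        fun l => s l ∉ Jt D T1 s (e + 2)).card))⁻¹ *
      (h ^ ((Tt D T1 s e \ Tt D T1 s (e + 2)).card +
        900 * (μ * D ^ e * (Jt D T1 s (e + 2)).card)) *
        (2 ^ (g + t0 + 1) / η ^ t0) ^ (2 * (μ * D ^ e)))) (fun e _ => by positivity)
    (fun x => η ^ T1.card * th ^ A.card < |ZS G M D O y A q C0 s T1 R x| ∧
      ∀ T' ⊆ T1 ∪ R, T' ≠ T1 ∪ R → T'.Nonempty → ¬ Vio G M t0 D O y η th T' x) x0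
    (fun e he x _ => by
      have hst := Clm_step hM hC hh hτh hbl hη hη1 hgη hth hO hinj hsp hΛ hOut W T1 R hTR KK μ D t0
        hμ1 hD1 ht0 hKD hgK hrow hμ hcr hM1 N0 N2 A q C0 hCA s hs e _ _ _ rfl rfl rfl (hIne e he) x
      exact le_trans (Clm_card _ _ _ _) hst)
  simp only [Tt_zero] at hit
  set F : ℝ := (((box W T1 x0).filter fun x => η ^ T1.card * th ^ A.card <
      |ZS G M D O y A q C0 s T1 R x| ∧
      ∀ T' ⊆ T1 ∪ R, T' ≠ T1 ∪ R → T'.Nonempty → ¬ Vio G M t0 D O y η th T' x).card : ℝ) with hF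
  have hF0 : 0 ≤ F := Nat.cast_nonneg _
  have hit' := le_trans (le_of_eq hF) (le_trans (Clm_card _ _ _ _) hit)
  set B : ℝ := 2 ^ (g + t0 + 1) / η ^ t0 with hB
  have hB1 : 1 ≤ B := by
    rw [hB, le_div_iff₀ (by positivity), one_mul]
    exact (pow_le_one₀ hη.le hη1).trans (one_le_pow₀ (by norm_num))
  -- sums
  set a : ℕ := ∑ e ∈ I, ((Tt D T1 s e \ Tt D T1 s (e + 1)).filter
        fun l => s l ∉ Jt D T1 s (e + 2)).card with ha
  set b : ℕ := ∑ e ∈ I, ((Tt D T1 s e \ Tt D T1 s (e + 1)).filter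
        fun l => s l ∈ Jt D T1 s (e + 2)).card with hb
  set J : ℕ := ∑ e ∈ I, D ^ e * (Jt D T1 s (e + 2)).card with hJ
  set X : ℕ := ∑ e ∈ I, (Tt D T1 s e \ Tt D T1 s (e + 1)).card with hX
  set Y : ℕ := ∑ e ∈ I, (Tt D T1 s (e + 1) \ Tt D T1 s (e + 2)).card with hY
  have hab : a + b = X := by
    rw [ha, hb, hX, ← sum_add_distrib]
    refine sum_congr rfl fun e _ => ?_
    rw [add_comm]
    exact card_filter_add_card_filter_not _
  have hbD : b * D ≤ Y := by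
    rw [hb, hY, sum_mul]
    exact sum_le_sum fun e _ => Gs_card hD1 e
  have hJD : D * J ≤ Y := by
    rw [hJ, hY, mul_sum]
    refine sum_le_sum fun e _ => ?_
    calc D * (D ^ e * (Jt D T1 s (e + 2)).card)
        = (Jt D T1 s (e + 1 + 1)).card * D ^ (e + 1) := by ring
      _ ≤ _ := Jt_card hD1 (e + 1)
  have hb3 : 320 * b ≤ X := by
    calc 320 * b = b * 320 := mul_comm _ _
      _ ≤ b * D := Nat.mul_le_mul_left _ (by omega)
      _ ≤ X := hbD.trans hI2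
  have hJ3 : 320 * (μ * J) ≤ X := by
    calc 320 * (μ * J) = (320 * μ) * J := by ring
      _ ≤ D * J := Nat.mul_le_mul_right _ (by omega)
      _ ≤ X := hJD.trans hI2
  have hfin : 42 * T1.card + 900 * (μ * J) ≤ 100 * a := by omega
  have hprod : ∏ e ∈ I, ((h ^ (100 * ((Tt D T1 s e \ Tt D T1 s (e + 1)).filter
        fun l => s l ∉ Jt D T1 s (e + 2)).card))⁻¹ *
      (h ^ ((Tt D T1 s e \ Tt D T1 s (e + 2)).card +
        900 * (μ * D ^ e * (Jt D T1 s (e + 2)).card)) * B ^ (2 * (μ * D ^ e)))) =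
      (h ^ (100 * a))⁻¹ * (h ^ (∑ e ∈ I, (Tt D T1 s e \ Tt D T1 s (e + 2)).card +
        900 * (μ * J)) * B ^ (2 * (μ * ∑ e ∈ I, D ^ e))) := by
    rw [prod_mul_distrib, prod_mul_distrib, prod_inv_distrib, prod_pow_eq_pow_sum,
      prod_pow_eq_pow_sum, prod_pow_eq_pow_sum, sum_add_distrib]
    have e1 : ∑ e ∈ I, 100 * ((Tt D T1 s e \ Tt D T1 s (e + 1)).filter
        fun l => s l ∉ Jt D T1 s (e + 2)).card = 100 * a := by rw [ha, mul_sum]
    have e2 : ∑ e ∈ I, 900 * (μ * D ^ e * (Jt D T1 s (e + 2)).card) = 900 * (μ * J) := by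
      rw [hJ, mul_sum, mul_sum]
      refine sum_congr rfl fun e _ => ?_
      ring
    have e3 : ∑ e ∈ I, 2 * (μ * D ^ e) = 2 * (μ * ∑ e ∈ I, D ^ e) := by
      rw [mul_sum, mul_sum]
    rw [e1, e2, e3]
  rw [hprod] at hit'
  have hBh : B ^ (2 * (μ * ∑ e ∈ I, D ^ e)) ≤ h ^ T1.card := by
    have h1 : 2 * (μ * ∑ e ∈ I, D ^ e) ≤ 8 * μ * D * T1.card := by
      calc 2 * (μ * ∑ e ∈ I, D ^ e) ≤ 2 * (μ * (2 * D * T1.card)) :=
            Nat.mul_le_mul_left _ (Nat.mul_le_mul_left _ hI3)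
        _ = 4 * μ * D * T1.card := by ring
        _ ≤ 8 * μ * D * T1.card := by
          refine Nat.mul_le_mul_right _ (Nat.mul_le_mul_right _ (Nat.mul_le_mul_right _ ?_))
          norm_num
    calc B ^ (2 * (μ * ∑ e ∈ I, D ^ e)) ≤ B ^ (8 * μ * D * T1.card) := pow_le_pow_right₀ hB1 h1
      _ = (B ^ (8 * μ * D)) ^ T1.card := by rw [← pow_mul]
      _ ≤ h ^ T1.card := pow_le_pow_left₀ (by positivity) N1 _
  have htot : h ^ (∑ e ∈ I, (Tt D T1 s e \ Tt D T1 s (e + 2)).card + 900 * (μ * J)) *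
      B ^ (2 * (μ * ∑ e ∈ I, D ^ e)) * h ^ (40 * T1.card) ≤ h ^ (100 * a) := by
    calc h ^ (∑ e ∈ I, (Tt D T1 s e \ Tt D T1 s (e + 2)).card + 900 * (μ * J)) *
      B ^ (2 * (μ * ∑ e ∈ I, D ^ e)) * h ^ (40 * T1.card)
        ≤ h ^ (T1.card + 900 * (μ * J)) * h ^ T1.card * h ^ (40 * T1.card) := by
          refine mul_le_mul_of_nonneg_right (mul_le_mul (pow_le_pow_right₀ hh (by omega)) hBh
            (by positivity) (by positivity)) (by positivity)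
      _ = h ^ (T1.card + 900 * (μ * J) + T1.card + 40 * T1.card) := by
          rw [pow_add h _ (40 * T1.card), pow_add h _ T1.card]
      _ ≤ h ^ (100 * a) := pow_le_pow_right₀ hh (by omega)
  have hpos : 0 < h ^ (100 * a) := by positivity
  have hW0 : 0 ≤ ∏ l ∈ T1, ((W l).card : ℝ) := prod_nonneg fun l _ => Nat.cast_nonneg _
  calc F * h ^ (40 * T1.card)
      ≤ (h ^ (100 * a))⁻¹ * (h ^ (∑ e ∈ I, (Tt D T1 s e \ Tt D T1 s (e + 2)).card +
        900 * (μ * J)) * B ^ (2 * (μ * ∑ e ∈ I, D ^ e))) * (∏ l ∈ T1, ((W l).card : ℝ)) *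
        h ^ (40 * T1.card) := mul_le_mul_of_nonneg_right hit' (by positivity)
    _ = (h ^ (100 * a))⁻¹ * (h ^ (∑ e ∈ I, (Tt D T1 s e \ Tt D T1 s (e + 2)).card +
        900 * (μ * J)) * B ^ (2 * (μ * ∑ e ∈ I, D ^ e)) * h ^ (40 * T1.card)) *
        (∏ l ∈ T1, ((W l).card : ℝ)) := by ring
    _ ≤ (h ^ (100 * a))⁻¹ * h ^ (100 * a) * (∏ l ∈ T1, ((W l).card : ℝ)) :=
        mul_le_mul_of_nonneg_right (mul_le_mul_of_nonneg_left htot (by positivity)) hW0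
    _ = ∏ l ∈ T1, ((W l).card : ℝ) := by rw [inv_mul_cancel₀ hpos.ne', one_mul]

end Pool.Agent.H82.RD
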