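/-
ROW RD Ty1 (about 150 lines; adapt the finished proof of Pool/Agent/H82/RL/Ty1.lean, helper45). Violations with few prescribed letters: one component (A, C0, s, T1), R := T \ T1, m := min #T t0 = #T1.
BAD := the filter on the left. Q := Fintype.piFinset (fun j => if j in A then Out else {α0}) (any letter α0): ZS depends on q only on A (fam), and if it is nonzero then fam is nonempty, so q j ∈ Out on A. #Q = #Out^#A <= h^(450 #A) (N2_le).
nat_fib with T1, T2 := T \ T1, Q := the event for one q: #BAD_q = sum_{z2 in natT T2} #((natT P (U ∪ T2) z2 Φ T1).filter ..). For z2: W l := nbr P.G (P.V l) (Φ ∪ (U ∪ T2).image z2): natT P (U ∪ T2) z2 Φ T1 ⊆ box W T1 z2. claim (Clm.lean) with x0 := z2, M = 1/p, C = 64 * 2^L, τ = h^100, bl = blt c B l, η = 1/e0, th = tht, KK = K1, μ, D, t0 of c,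
 Λ := Out \ (Φ ∪ image), Out := P.Out; rows: row_ok (Rok.lean; the set has at most 4 L elements and is disjoint from P.V l); numbers from Par.lean: eta_pos, eta_le, eta_g, bl_ge, bl_pay, tht_cr and M_tht_one with t = #T1 + #R = #T <= L - #U, C_le_h, N1_le, N2_le, Ctx.hsp', D_ge, DK, μwK (μ g <= μ w <= K1).
 So #BAD_q * h^(40 m) <= sum_{z2} prod_{l in T1} #W l <= 64^m M^(m.choose 2) #natT (nat_sum), 64^m <= h^m, M^(m.choose 2) <= (M^t0)^m <= h^m (pt0). Sum over q: #BAD h^(40 m) <= h^(450 #A) h^(2 m) #natT and 450 #A <= 8 m (60 #A <= m): #BAD h^(30 m) <= #natT.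
-/
import Pool.Agent.H82.RD.Nat
import Pool.Agent.H82.RD.Rok
import Pool.Agent.H82.RD.Clm

set_option autoImplicit false
set_option linter.unusedSectionVars false

open Finset

namespace Pool.Agent.H82.RD

open Pool.Agent.H49.RG (nbr cell pts)
open Pool.Agent.H49.RD (Pl)

variable {ν ι : Type} [Fintype ν] [DecidableEq ν] {L g : ℕ}

private def Ty1_Q (P : Pl ν L) (c : H49.RD.Num) (B l : ℝ) (u : ℕ) (O : Finset ι)
    (y : ι → Fin g → ν) (A : Finset (Fin g)) (C0 : Fin L → Finset (Fin g)) (s : Fin L → Fin g)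
    (T1 R T : Finset (Fin L)) (q : Fin g → ν) (z : Fin L → ν) : Prop :=
  (1 / c.e0) ^ T1.card * tht c L u B l ^ A.card <
      |ZS P.G (1 / c.p) c.D O y A q C0 s T1 R z| ∧
    ∀ T' ⊆ T, T' ≠ T → T'.Nonempty →
      ¬ Vio P.G (1 / c.p) c.t0 c.D O y (1 / c.e0) (tht c L u B l) T' z

private lemma Ty1_card {α : Type} (s t : Finset α) (p q : α → Prop) (i1 : DecidablePred p)
    (i2 : DecidablePred q) (hst : s ⊆ t) (hpq : ∀ a, p a → q a) :
    ((@Finset.filter α p i1 s).card : ℝ) ≤ ((@Finset.filter α q i2 t).card : ℝ) := by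
  have h : @Finset.filter α p i1 s ⊆ @Finset.filter α q i2 t := by
    intro a ha
    rw [mem_filter] at ha ⊢
    exact ⟨hst ha.1, hpq a ha.2⟩
  exact_mod_cast card_le_card h

open Classical in
private theorem Ty1_z {P : Pl ν L} {c : H49.RD.Num} {R : ℕ} {B l : ℝ} {U : Finset (Fin L)}
    {α : Fin L → ν} {Φ : Finset ν} {O : Finset ι} {y : ι → Fin g → ν}
    (X : Ctx P c R B l U α Φ O y) (T1 T2 : Finset (Fin L)) (h12 : Disjoint T1 T2)
    (hT : Disjoint (T1 ∪ T2) U) (ht1 : T1.Nonempty) (ht0 : T1.card ≤ c.t0)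
    (A : Finset (Fin g)) (C0 : Fin L → Finset (Fin g)) (hC : ∀ l, Disjoint (C0 l) A)
    (s : Fin L → Fin g) (hs : ∀ l ∈ T1, s l ∈ C0 l) (q : Fin g → ν)
    (z2 : Fin L → ν) (hz2 : z2 ∈ natT P U α Φ T2) :
    (((natT P (U ∪ T2) z2 Φ T1).filter
        (Ty1_Q P c B l U.card O y A C0 s T1 T2 (T1 ∪ T2) q)).card : ℝ) *
      c.h ^ (40 * T1.card) ≤
      ∏ l ∈ T1, ((nbr P.G (P.V l) (Φ ∪ (U ∪ T2).image z2)).card : ℝ) := by
  have hz := mem_natT.1 hz2
  have hT1U : Disjoint T1 U := disjoint_of_subset_left subset_union_left hT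
  have hT2U : Disjoint T2 U := disjoint_of_subset_left subset_union_right hT
  have himg : ∀ v ∈ (U ∪ T2).image z2, ∃ i ∈ U ∪ T2, v ∈ P.V i := by
    intro v hv
    obtain ⟨i, hi, rfl⟩ := mem_image.1 hv
    exact ⟨i, hi, hz.2.1 i hi⟩
  have hcard : T1.card + T2.card ≤ L - U.card := by
    have h1 : (T1 ∪ T2).card + U.card ≤ L := by
      rw [← card_union_of_disjoint hT]
      refine (card_le_univ _).trans ?_
      rw [Fintype.card_fin]
    rw [card_union_of_disjoint h12] at h1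
    omega
  have key := claim (G := P.G) (M := 1 / c.p) (C := 64 * 2 ^ L) (τ := c.h ^ 100)
    (bl := blt c B l)
    (η := 1 / c.e0) (th := tht c L U.card B l) (h := c.h) (M_ge X.nk) (by
      have : (1 : ℝ) ≤ 2 ^ L := one_le_pow₀ (by norm_num)
      linarith) X.nk.h_ge (le_refl _) (bl_ge X.nk X.tk) (eta_pos X.nk) (eta_le X.nk)
    (eta_g X.nk X.gw) (tht_pos X.nk X.tk _) (O := O) (y := y) X.fa.ne X.fa.inj X.hsp'
    (Λ := P.Out \ (Φ ∪ (U ∪ T2).image z2)) (Out := P.Out) (by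
      intro o ho j
      rw [mem_sdiff, mem_union]
      refine ⟨X.fa.out o ho j, ?_⟩
      rintro (h | h)
      · exact X.fa.dis o ho j h
      · obtain ⟨i, -, hi⟩ := himg _ h
        exact disjoint_left.1 (X.ok.out i) (X.fa.out o ho j) hi) X.fa.out
    (fun l => nbr P.G (P.V l) (Φ ∪ (U ∪ T2).image z2)) T1 T2 h12 ht1 c.K1 c.μ c.D c.t0 X.nk.μ_pos
    X.nk.D_ge ht0 X.nk.DK ((Nat.mul_le_mul_left _ X.gw).trans X.nk.μwK) (by
      intro l hl
      refine row_ok X.ok X.nk l _ ?_ ?_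
      · refine (card_union_le _ _).trans ?_
        have h1 := X.phic
        have h2 : ((U ∪ T2).image z2).card ≤ L := by
          refine card_image_le.trans ((card_le_univ _).trans ?_)
          rw [Fintype.card_fin]
        omega
      · rw [disjoint_union_left]
        refine ⟨disjoint_of_subset_left X.phi (X.ok.out l), ?_⟩
        rw [disjoint_left]
        intro v hv hvl
        obtain ⟨i, hi, hvi⟩ := himg v hv
        have hil : i ≠ l := by
          rintro rfl
          rcases mem_union.1 hi with hi | hi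
          · exact disjoint_left.1 hT1U hl hi
          · exact disjoint_left.1 h12 hl hi
        exact disjoint_left.1 (X.ok.dis i l hil) hvi hvl) (bl_pay X.nk X.tk)
    (tht_cr X.nk X.tk U.card _ hcard X.gw) (M_tht_one X.nk X.tk U.card _ hcard)
    (C_le_h X.nk) (N1_le X.nk X.gw) (N2_le X.ok X.nk) A q C0 hC s hs z2
  refine le_trans (mul_le_mul_of_nonneg_right ?_ (by
    have := X.nk.h_ge
    positivity)) key
  refine Ty1_card _ _ _ _ _ _ ?_ (fun a ha => ha)
  intro z hzz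
  have h := mem_natT.1 hzz
  rw [mem_box]
  refine ⟨?_, h.1⟩
  intro i hi
  have hi' : i ∈ U ∪ T2 ∪ T1 := mem_union_right _ hi
  rw [H49.RG.mem_nbr]
  refine ⟨h.2.1 i hi', ?_⟩
  intro v hv
  rcases mem_union.1 hv with hv | hv
  · exact h.2.2.2 i hi' v hv
  · obtain ⟨k, hk, rfl⟩ := mem_image.1 hv
    have hk1 : k ∉ T1 := by
      intro hk1
      rcases mem_union.1 hk with hk | hk
      · exact disjoint_left.1 hT1U hk1 hk
      · exact disjoint_left.1 h12 hk1 hk
    rw [← h.1 k hk1]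
    exact h.2.2.1 i hi' k (mem_union_left _ hk) (by rintro rfl; exact hk1 hi)

open Classical in
private theorem Ty1_q {P : Pl ν L} {c : H49.RD.Num} {R : ℕ} {B l : ℝ} {U : Finset (Fin L)}
    {α : Fin L → ν} {Φ : Finset ν} {O : Finset ι} {y : ι → Fin g → ν}
    (X : Ctx P c R B l U α Φ O y) (T1 T2 : Finset (Fin L)) (h12 : Disjoint T1 T2)
    (hT : Disjoint (T1 ∪ T2) U) (ht1 : T1.Nonempty) (ht0 : T1.card ≤ c.t0)
    (A : Finset (Fin g)) (C0 : Fin L → Finset (Fin g)) (hC : ∀ l, Disjoint (C0 l) A)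
    (s : Fin L → Fin g) (hs : ∀ l ∈ T1, s l ∈ C0 l) (q : Fin g → ν) :
    (((natT P U α Φ (T1 ∪ T2)).filter
        (Ty1_Q P c B l U.card O y A C0 s T1 T2 (T1 ∪ T2) q)).card : ℝ) *
      c.h ^ (40 * T1.card) ≤ c.h ^ (2 * T1.card) * (natT P U α Φ (T1 ∪ T2)).card := by
  have hh := X.nk.h_ge
  have hh0 : 0 < c.h := by linarith
  rw [nat_fib P U α Φ T1 T2 h12 hT, Nat.cast_sum, sum_mul]
  refine (sum_le_sum fun z2 hz2 => Ty1_z X T1 T2 h12 hT ht1 ht0 A C0 hC s hs q z2 hz2).trans ?_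
  refine (nat_sum X.ok X.nk U α Φ X.phi X.phic X.val T1 T2 h12 hT).trans ?_
  refine mul_le_mul_of_nonneg_right ?_ (Nat.cast_nonneg _)
  have h1 : (64 : ℝ) ≤ c.h := by
    refine le_trans ?_ (two_le_h X.nk)
    calc (64 : ℝ) = 2 ^ 6 := by norm_num
      _ ≤ _ := by
          refine pow_le_pow_right₀ (by norm_num) ?_
          have hL := X.nk.L_pos
          omega
  have h2 : (1 / c.p) ^ (T1.card.choose 2) ≤ c.h ^ T1.card := by
    calc (1 / c.p) ^ (T1.card.choose 2) ≤ (1 / c.p) ^ (c.t0 * T1.card) := by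
          refine pow_le_pow_right₀ (M_ge X.nk) ?_
          rw [Nat.choose_two_right]
          refine (Nat.div_le_self _ _).trans ?_
          rw [Nat.mul_comm c.t0]
          exact Nat.mul_le_mul_left _ ((Nat.sub_le _ _).trans ht0)
      _ = ((1 / c.p) ^ c.t0) ^ T1.card := pow_mul _ _ _
      _ ≤ c.h ^ T1.card := pow_le_pow_left₀ (by have := X.nk.p_pos; positivity) X.nk.pt0 _
  have h3 : (64 : ℝ) ^ T1.card ≤ c.h ^ T1.card := pow_le_pow_left₀ (by norm_num) h1 _
  calc (64 : ℝ) ^ T1.card * (1 / c.p) ^ (T1.card.choose 2) ≤ c.h ^ T1.card * c.h ^ T1.card :=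
        mul_le_mul h3 h2 (by have := X.nk.p_pos; positivity) (by positivity)
    _ = c.h ^ (2 * T1.card) := by rw [← pow_add, two_mul]

open Classical in
/-- Violations with few prescribed letters. -/
theorem ty1 {P : Pl ν L} {c : H49.RD.Num} {R : ℕ} {B l : ℝ} {U : Finset (Fin L)} {α : Fin L → ν}
    {Φ : Finset ν} {O : Finset ι} {y : ι → Fin g → ν} (X : Ctx P c R B l U α Φ O y)
    (T : Finset (Fin L)) (hT0 : T.Nonempty) (hT : Disjoint T U) (A : Finset (Fin g))
    (C0 : Fin L → Finset (Fin g)) (hC : ∀ l, Disjoint (C0 l) A) (s : Fin L → Fin g)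
    (T1 : Finset (Fin L)) (hT1 : T1 ⊆ T) (hm : T1.card = min T.card c.t0)
    (hs : ∀ l ∈ T1, s l ∈ C0 l) (hA : 60 * A.card ≤ min T.card c.t0) :
    (((natT P U α Φ T).filter fun z =>
      (∃ q : Fin g → ν, (1 / c.e0) ^ T1.card * tht c L U.card B l ^ A.card <
        |ZS P.G (1 / c.p) c.D O y A q C0 s T1 (T \ T1) z|) ∧
        ∀ T' ⊆ T, T' ≠ T → T'.Nonempty →
          ¬ Vio P.G (1 / c.p) c.t0 c.D O y (1 / c.e0) (tht c L U.card B l) T' z).card : ℝ) *
      c.h ^ (12 * min T.card c.t0) ≤ (natT P U α Φ T).card := by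
  have hh := X.nk.h_ge
  have hh0 : 0 < c.h := by linarith
  obtain ⟨T2, hT2⟩ : ∃ T2, T2 = T \ T1 := ⟨_, rfl⟩
  have h12 : Disjoint T1 T2 := by rw [hT2]; exact disjoint_sdiff
  have hTT : T1 ∪ T2 = T := by rw [hT2]; exact union_sdiff_of_subset hT1
  have ht0 : T1.card ≤ c.t0 := by rw [hm]; exact Nat.min_le_right _ _
  have ht1 : T1.Nonempty := by
    rw [← card_pos, hm]
    exact lt_min (card_pos.2 hT0) X.nk.t0_pos
  rw [← hm] at hA ⊢
  rw [← hT2]
  have hq : ∀ q : Fin g → ν,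
      (((natT P U α Φ T).filter (Ty1_Q P c B l U.card O y A C0 s T1 T2 T q)).card : ℝ) *
      c.h ^ (40 * T1.card) ≤ c.h ^ (2 * T1.card) * (natT P U α Φ T).card := by
    intro q
    have := Ty1_q X T1 T2 h12 (by rw [hTT]; exact hT) ht1 ht0 A C0 hC s hs q
    rw [hTT] at this
    exact this
  by_cases hem : (natT P U α Φ T).Nonempty
  swap
  · rw [not_nonempty_iff_eq_empty] at hem
    rw [hem, filter_empty, card_empty, Nat.cast_zero, zero_mul]
  obtain ⟨z0, -⟩ := hem
  obtain ⟨i0, -⟩ := hT0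
  obtain ⟨Q, hQ⟩ : ∃ Q : Finset (Fin g → ν),
      Q = Fintype.piFinset (fun j => if j ∈ A then P.Out else {z0 i0}) := ⟨_, rfl⟩
  have hQc : (Q.card : ℝ) ≤ c.h ^ (450 * A.card) := by
    have h1 : Q.card = P.Out.card ^ A.card := by
      rw [hQ, Fintype.card_piFinset, ← Finset.prod_subset (Finset.subset_univ A)]
      · rw [← prod_const]
        refine prod_congr rfl fun j hj => ?_
        rw [if_pos hj]
      · intro j _ hj
        rw [if_neg hj, card_singleton]
    have h2 : (P.Out.card : ℝ) ≤ c.h ^ 450 := N2_le X.ok X.nk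
    rw [h1, Nat.cast_pow, pow_mul]
    exact pow_le_pow_left₀ (Nat.cast_nonneg _) h2 _
  have hth := tht_pos X.nk X.tk U.card
  have he0 := eta_pos X.nk
  have hsub : ((natT P U α Φ T).filter fun z =>
      (∃ q : Fin g → ν, (1 / c.e0) ^ T1.card * tht c L U.card B l ^ A.card <
        |ZS P.G (1 / c.p) c.D O y A q C0 s T1 T2 z|) ∧
        ∀ T' ⊆ T, T' ≠ T → T'.Nonempty →
          ¬ Vio P.G (1 / c.p) c.t0 c.D O y (1 / c.e0) (tht c L U.card B l) T' z) ⊆
      Q.biUnion fun q =>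
        (natT P U α Φ T).filter (Ty1_Q P c B l U.card O y A C0 s T1 T2 T q) := by
    intro z hz
    rw [mem_filter] at hz
    obtain ⟨hz1, ⟨q, hz2⟩, hz3⟩ := hz
    have hfam : (fam O y A q).Nonempty := by
      rw [nonempty_iff_ne_empty]
      intro h
      have h0 : ZS P.G (1 / c.p) c.D O y A q C0 s T1 T2 z = 0 := by
        unfold ZS
        rw [h, sum_empty, zero_div]
      rw [h0, abs_zero] at hz2
      have : 0 < (1 / c.e0) ^ T1.card * tht c L U.card B l ^ A.card := by positivity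
      linarith
    obtain ⟨o, ho⟩ := hfam
    rw [mem_fam] at ho
    rw [mem_biUnion]
    refine ⟨fun j => if j ∈ A then q j else z0 i0, ?_, ?_⟩
    · rw [hQ, Fintype.mem_piFinset]
      intro j
      by_cases hj : j ∈ A
      · simp only [hj, if_true]
        rw [← ho.2 j hj]
        exact X.fa.out o ho.1 j
      · simp only [hj, if_false, mem_singleton]
    · rw [mem_filter]
      refine ⟨hz1, ?_, hz3⟩
      have h1 : fam O y A (fun j => if j ∈ A then q j else z0 i0) = fam O y A q := by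
        ext o'
        rw [mem_fam, mem_fam]
        constructor
        · rintro ⟨h1, h2⟩
          refine ⟨h1, fun j hj => ?_⟩
          rw [h2 j hj, if_pos hj]
        · rintro ⟨h1, h2⟩
          refine ⟨h1, fun j hj => ?_⟩
          rw [h2 j hj, if_pos hj]
      have h2 : ZS P.G (1 / c.p) c.D O y A (fun j => if j ∈ A then q j else z0 i0) C0 s T1 T2 z =
          ZS P.G (1 / c.p) c.D O y A q C0 s T1 T2 z := by
        unfold ZS
        rw [h1]
      rw [h2]
      exact hz2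
  have hcard : ((((natT P U α Φ T).filter fun z =>
      (∃ q : Fin g → ν, (1 / c.e0) ^ T1.card * tht c L U.card B l ^ A.card <
        |ZS P.G (1 / c.p) c.D O y A q C0 s T1 T2 z|) ∧
        ∀ T' ⊆ T, T' ≠ T → T'.Nonempty →
          ¬ Vio P.G (1 / c.p) c.t0 c.D O y (1 / c.e0) (tht c L U.card B l) T' z).card : ℕ) : ℝ) ≤
      ∑ q ∈ Q, (((natT P U α Φ T).filter
        (Ty1_Q P c B l U.card O y A C0 s T1 T2 T q)).card : ℝ) := by
    have h1 := (card_le_card hsub).trans card_biUnion_le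
    exact_mod_cast h1
  have h3 : (∑ q ∈ Q, (((natT P U α Φ T).filter
        (Ty1_Q P c B l U.card O y A C0 s T1 T2 T q)).card : ℝ)) *
      c.h ^ (40 * T1.card) ≤ Q.card * (c.h ^ (2 * T1.card) * (natT P U α Φ T).card) := by
    rw [sum_mul, ← nsmul_eq_mul]
    exact sum_le_card_nsmul _ _ _ fun q _ => hq q
  have h4 : c.h ^ (40 * T1.card) = c.h ^ (12 * T1.card) * c.h ^ (28 * T1.card) := by
    rw [← pow_add]
    congr 1
    omega
  have h5 : (Q.card : ℝ) * c.h ^ (2 * T1.card) ≤ c.h ^ (28 * T1.card) := by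
    calc (Q.card : ℝ) * c.h ^ (2 * T1.card) ≤ c.h ^ (450 * A.card) * c.h ^ (2 * T1.card) :=
          mul_le_mul_of_nonneg_right hQc (by positivity)
      _ = c.h ^ (450 * A.card + 2 * T1.card) := by rw [← pow_add]
      _ ≤ c.h ^ (28 * T1.card) := pow_le_pow_right₀ hh (by omega)
  refine le_of_mul_le_mul_right ?_ (pow_pos hh0 (28 * T1.card))
  calc _ = ((((natT P U α Φ T).filter fun z =>
      (∃ q : Fin g → ν, (1 / c.e0) ^ T1.card * tht c L U.card B l ^ A.card <
        |ZS P.G (1 / c.p) c.D O y A q C0 s T1 T2 z|) ∧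
        ∀ T' ⊆ T, T' ≠ T → T'.Nonempty →
          ¬ Vio P.G (1 / c.p) c.t0 c.D O y (1 / c.e0) (tht c L U.card B l) T' z).card : ℕ) : ℝ) *
          c.h ^ (40 * T1.card) := by
        rw [h4, mul_assoc]
    _ ≤ (∑ q ∈ Q, (((natT P U α Φ T).filter
          (Ty1_Q P c B l U.card O y A C0 s T1 T2 T q)).card : ℝ)) *
          c.h ^ (40 * T1.card) := mul_le_mul_of_nonneg_right hcard (by positivity)
    _ ≤ Q.card * (c.h ^ (2 * T1.card) * (natT P U α Φ T).card) := h3
    _ = (Q.card * c.h ^ (2 * T1.card)) * (natT P U α Φ T).card := by ring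
    _ ≤ c.h ^ (28 * T1.card) * (natT P U α Φ T).card :=
        mul_le_mul_of_nonneg_right h5 (Nat.cast_nonneg _)
    _ = (natT P U α Φ T).card * c.h ^ (28 * T1.card) := mul_comm _ _

end Pool.Agent.H82.RD
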