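/-
ROW RD Ty2 (about 120 lines; adapt the finished proof of Pool/Agent/H82/RL/Ty2.lean, helper51). Violations with many prescribed letters. m := min #T t0 = #T1 >= 1, a := #A, 60 a >= m + 1.
PROOF. |rf v j0 D yo| <= bx D + bx (insert j0 D) (abs_rf_le, Wt.lean; s l ∉ af by af_irrefl), so |ZS .. z| <= sum_{Z in T1.powerset} VV P.G M O y E_Z A q z with E_Z := (T ×ˢ univ).filter (fun e => e.2 ∈ C' e.1), C' l := C0 l for l in T \ T1, C0 l ∩ af.. for l in T1 \ Z, insert (s l) (C0 l ∩ af ..) for l in Z (bx is a product over the positions; E_Z has rows in T and positions not in A).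
 A violation gives Z ⊆ T1 with VV E_Z A q z >= η^m th^a / 2^m (η = 1/e0).
 For fixed Z, q: Markov with the power K := 2 kl (K g <= 2 K1: klK): #{z} (η^m th^a / 2^m)^K <= sum_z VV^K <= 64^L ((1 + K g / B)^g)^K (1/rho)^(a K) #natT (vmom). th = l / rho: #{z} <= 64^L ((2 e0)^m (1 + K g / B)^g)^K l^(-a K) #natT. K g / B <= 1 (mB), so (1 + ..)^g <= 2^w; (2 e0)^(m K) <= (2 e0)^(120 kl a) (m < 60 a), 2^(w K) <= (2^(w K))^a, 64^L <= (64^L)^a: the constants are <= h^a (FK).
 Number of Z: 2^m <= h^m... <= h^a if m <= 60 a: use 2^m <= 2^(60 a) <= h^a (two_pow_le_h, 60 <= 100 L). Number of q: #Q = #Out^a <= h^(450 a) as in Ty1. t2: M^L B h^1200 <= l^K with M^L B >= 1: l^(a K) >= h^(1200 a).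
 Total: #BAD <= h^(450 a + 2 a - 1200 a) #natT = h^(-748 a) #natT, and 748 a >= 12 m.
-/
import Pool.Agent.H82.RD.Vm
import Pool.Agent.H82.RD.Wt

set_option autoImplicit false
set_option linter.unusedSectionVars false

open Finset

namespace Pool.Agent.H82.RD

open Pool.Agent.H49.RG (nbr cell pts)
open Pool.Agent.H49.RD (Pl)

variable {ν ι : Type} [Fintype ν] [DecidableEq ν] {L g : ℕ}

/-- The columns of the row `l` in the term `Z`. -/
private def Ty2_C (D : ℕ) (C0 : Fin L → Finset (Fin g)) (s : Fin L → Fin g)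
    (T1 Z : Finset (Fin L)) (l : Fin L) : Finset (Fin g) :=
  if l ∈ T1 then (if l ∈ Z then insert (s l) (C0 l ∩ af D T1 s l (s l)) else
    C0 l ∩ af D T1 s l (s l)) else C0 l

/-- The positions of the term `Z`. -/
private def Ty2_E (D : ℕ) (C0 : Fin L → Finset (Fin g)) (s : Fin L → Fin g)
    (T T1 Z : Finset (Fin L)) : Finset (Fin L × Fin g) :=
  (T ×ˢ (univ : Finset (Fin g))).filter (fun e => e.2 ∈ Ty2_C D C0 s T1 Z e.1)

private lemma Ty2_memE {D : ℕ} {C0 : Fin L → Finset (Fin g)} {s : Fin L → Fin g}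
    {T T1 Z : Finset (Fin L)} (e : Fin L × Fin g) :
    e ∈ Ty2_E D C0 s T T1 Z ↔ e.1 ∈ T ∧ e.2 ∈ Ty2_C D C0 s T1 Z e.1 := by
  unfold Ty2_E
  rw [mem_filter, mem_product]
  simp

private lemma Ty2_term (G : SimpleGraph ν) (M : ℝ) (hM : 1 ≤ M) (D : ℕ)
    (C0 : Fin L → Finset (Fin g)) (s : Fin L → Fin g) (T T1 : Finset (Fin L)) (hT1 : T1 ⊆ T)
    (x : Fin L → ν) (yo : Fin g → ν) [∀ v w : ν, Decidable (G.Adj v w)] :
    |(∏ l ∈ T1, rf G M (x l) (s l) (C0 l ∩ af D T1 s l (s l)) yo) *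
        ∏ l ∈ T \ T1, bx G M (C0 l) (x l) yo| ≤
      ∑ Z ∈ T1.powerset, ∏ e ∈ Ty2_E D C0 s T T1 Z, (if G.Adj (x e.1) (yo e.2) then M else 0) := by
  classical
  have hM0 : 0 ≤ M := le_trans zero_le_one hM
  have h0 : 0 ≤ ∏ l ∈ T \ T1, bx G M (C0 l) (x l) yo := prod_nonneg fun l _ => bx_nonneg hM0 _ _ _
  rw [abs_mul, abs_of_nonneg h0, abs_prod]
  have h2 : ∏ l ∈ T1, |rf G M (x l) (s l) (C0 l ∩ af D T1 s l (s l)) yo| ≤
      ∏ l ∈ T1, (bx G M (insert (s l) (C0 l ∩ af D T1 s l (s l))) (x l) yo +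
        bx G M (C0 l ∩ af D T1 s l (s l)) (x l) yo) := by
    refine prod_le_prod (fun l _ => abs_nonneg _) fun l _ => ?_
    rw [add_comm]
    refine abs_rf_le hM _ _ _ (fun h => ?_) _
    exact af_irrefl (mem_inter.1 h).2
  refine (mul_le_mul_of_nonneg_right h2 h0).trans (le_of_eq ?_)
  rw [prod_add, sum_mul]
  refine sum_congr rfl fun Z hZ => ?_
  rw [mem_powerset] at hZ
  rw [prod_finset_product (Ty2_E D C0 s T T1 Z) T (Ty2_C D C0 s T1 Z) (fun e => Ty2_memE e)]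
  have h3 : ∏ l ∈ T, ∏ j ∈ Ty2_C D C0 s T1 Z l, (if G.Adj (x l) (yo j) then M else 0) =
      ∏ l ∈ T, bx G M (Ty2_C D C0 s T1 Z l) (x l) yo := by
    refine prod_congr rfl fun l _ => ?_
    unfold bx
    exact prod_congr rfl fun j _ => by congr
  rw [h3, ← prod_sdiff hT1, mul_comm (∏ l ∈ T \ T1, bx G M (Ty2_C D C0 s T1 Z l) (x l) yo)]
  congr 1
  · rw [← prod_sdiff hZ, mul_comm]
    congr 1
    · refine prod_congr rfl fun l hl => ?_
      rw [mem_sdiff] at hl
      unfold Ty2_C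
      rw [if_pos hl.1, if_neg hl.2]
    · refine prod_congr rfl fun l hl => ?_
      unfold Ty2_C
      rw [if_pos (hZ hl), if_pos hl]
  · refine prod_congr rfl fun l hl => ?_
    rw [mem_sdiff] at hl
    unfold Ty2_C
    rw [if_neg hl.2]

private lemma Ty2_ZS (G : SimpleGraph ν) (M : ℝ) (hM : 1 ≤ M) (D : ℕ) (O : Finset ι)
    (y : ι → Fin g → ν) (A : Finset (Fin g)) (q : Fin g → ν)
    (C0 : Fin L → Finset (Fin g)) (s : Fin L → Fin g) (T T1 : Finset (Fin L)) (hT1 : T1 ⊆ T)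
    (z : Fin L → ν) :
    |ZS G M D O y A q C0 s T1 (T \ T1) z| ≤
      ∑ Z ∈ T1.powerset, VV G M O y (Ty2_E D C0 s T T1 Z) A q z := by
  classical
  unfold VV
  rw [← sum_div, sum_comm]
  unfold ZS
  rw [abs_div, Nat.abs_cast]
  refine div_le_div_of_nonneg_right ?_ (Nat.cast_nonneg _)
  refine (abs_sum_le_sum_abs _ _).trans (sum_le_sum fun o _ => ?_)
  refine (Ty2_term G M hM D C0 s T T1 hT1 z (y o)).trans (le_of_eq ?_)
  refine sum_congr rfl fun Z _ => prod_congr rfl fun e _ => ?_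
  congr

private lemma Ty2_VV_nonneg (G : SimpleGraph ν) (M : ℝ) (hM : 0 ≤ M) (O : Finset ι)
    (y : ι → Fin g → ν) (E : Finset (Fin L × Fin g)) (A : Finset (Fin g)) (q : Fin g → ν)
    (z : Fin L → ν) : 0 ≤ VV G M O y E A q z := by
  unfold VV
  refine div_nonneg (sum_nonneg fun o _ => prod_nonneg fun e _ => ?_) (Nat.cast_nonneg _)
  split_ifs
  · exact hM
  · exact le_rfl

/-- A violation gives one large nonnegative component. -/
private lemma Ty2_ex (G : SimpleGraph ν) (M : ℝ) (hM : 1 ≤ M) (D : ℕ) (O : Finset ι)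
    (y : ι → Fin g → ν) (A : Finset (Fin g)) (q : Fin g → ν)
    (C0 : Fin L → Finset (Fin g)) (s : Fin L → Fin g) (T T1 : Finset (Fin L)) (hT1 : T1 ⊆ T)
    (z : Fin L → ν) (x : ℝ) (hx : x < |ZS G M D O y A q C0 s T1 (T \ T1) z|) :
    ∃ Z ∈ T1.powerset, x / 2 ^ T1.card < VV G M O y (Ty2_E D C0 s T T1 Z) A q z := by
  by_contra hcon
  push Not at hcon
  have h1 : ∑ Z ∈ T1.powerset, VV G M O y (Ty2_E D C0 s T T1 Z) A q z ≤
      ∑ _Z ∈ T1.powerset, x / 2 ^ T1.card := sum_le_sum hcon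
  rw [sum_const, card_powerset, nsmul_eq_mul] at h1
  have h2 := Ty2_ZS G M hM D O y A q C0 s T T1 hT1 z
  have h3 : ((2 ^ T1.card : ℕ) : ℝ) * (x / 2 ^ T1.card) = x := by
    push_cast
    field_simp
  rw [h3] at h1
  linarith

private lemma Ty2_markov {α : Type} (s : Finset α) (f : α → ℝ) (hf : ∀ z ∈ s, 0 ≤ f z) (x : ℝ)
    (hx : 0 ≤ x) (K : ℕ) (i1 : DecidablePred fun z => x < f z) :
    ((@Finset.filter α (fun z => x < f z) i1 s).card : ℝ) * x ^ K ≤ ∑ z ∈ s, f z ^ K := by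
  calc ((@Finset.filter α (fun z => x < f z) i1 s).card : ℝ) * x ^ K
      = ∑ _z ∈ @Finset.filter α (fun z => x < f z) i1 s, x ^ K := by
        rw [sum_const, nsmul_eq_mul]
    _ ≤ ∑ z ∈ @Finset.filter α (fun z => x < f z) i1 s, f z ^ K := by
        refine sum_le_sum fun z hz => pow_le_pow_left₀ hx (mem_filter.1 hz).2.le _
    _ ≤ ∑ z ∈ s, f z ^ K :=
        sum_le_sum_of_subset_of_nonneg (filter_subset _ _) fun z hz _ => pow_nonneg (hf z hz) _

private lemma Ty2_num {c : H49.RD.Num} {R : ℕ} (hc : c.OK R L) (m a : ℕ) (hm : m ≤ 60 * a)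
    (ha : 1 ≤ a) :
    (2 : ℝ) ^ m * (64 ^ L * (2 ^ c.w * (2 * c.e0) ^ m) ^ (2 * c.kl)) ≤ c.h ^ (2 * a) := by
  have he := e0_one hc
  have hh := hc.h_ge
  have hL := hc.L_pos
  have h1 : (2 : ℝ) ^ m ≤ c.h ^ a := by
    calc (2 : ℝ) ^ m ≤ 2 ^ (60 * a) := pow_le_pow_right₀ (by norm_num) hm
      _ = (2 ^ 60) ^ a := by rw [pow_mul]
      _ ≤ c.h ^ a := pow_le_pow_left₀ (by positivity) (two_pow_le_h hc 60 (by omega)) _
  have h2 : (64 : ℝ) ^ L * (2 ^ c.w * (2 * c.e0) ^ m) ^ (2 * c.kl) ≤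
      ((2 * c.e0) ^ (120 * c.kl) * 2 ^ (2 * c.kl * c.w) * 64 ^ L) ^ a := by
    have e1 : (64 : ℝ) ^ L ≤ (64 ^ L) ^ a :=
      le_self_pow₀ (one_le_pow₀ (by norm_num)) (by omega)
    have e2 : (2 : ℝ) ^ (2 * c.kl * c.w) ≤ (2 ^ (2 * c.kl * c.w)) ^ a :=
      le_self_pow₀ (one_le_pow₀ (by norm_num)) (by omega)
    have e3 : (2 * c.e0) ^ (m * (2 * c.kl)) ≤ ((2 * c.e0) ^ (120 * c.kl)) ^ a := by
      rw [← pow_mul]
      refine pow_le_pow_right₀ (by linarith) ?_
      calc m * (2 * c.kl) ≤ 60 * a * (2 * c.kl) := Nat.mul_le_mul_right _ hm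
        _ = 120 * c.kl * a := by ring
    calc (64 : ℝ) ^ L * (2 ^ c.w * (2 * c.e0) ^ m) ^ (2 * c.kl)
        = (2 * c.e0) ^ (m * (2 * c.kl)) * 2 ^ (2 * c.kl * c.w) * 64 ^ L := by
          rw [mul_pow, ← pow_mul, ← pow_mul, mul_comm c.w (2 * c.kl)]
          ring
      _ ≤ ((2 * c.e0) ^ (120 * c.kl)) ^ a * (2 ^ (2 * c.kl * c.w)) ^ a * (64 ^ L) ^ a := by
          refine mul_le_mul (mul_le_mul e3 e2 (by positivity) (by positivity)) e1
            (by positivity) (by positivity)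
      _ = _ := by rw [← mul_pow, ← mul_pow]
  calc (2 : ℝ) ^ m * (64 ^ L * (2 ^ c.w * (2 * c.e0) ^ m) ^ (2 * c.kl))
      ≤ c.h ^ a * ((2 * c.e0) ^ (120 * c.kl) * 2 ^ (2 * c.kl * c.w) * 64 ^ L) ^ a :=
        mul_le_mul h1 h2 (by positivity) (by positivity)
    _ ≤ c.h ^ a * c.h ^ a := by
        refine mul_le_mul_of_nonneg_left ?_ (by positivity)
        exact pow_le_pow_left₀ (by positivity) hc.FK _
    _ = c.h ^ (2 * a) := by rw [two_mul, pow_add]

open Classical in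
/-- One `q` and one `E'`. -/
private theorem Ty2_q {P : Pl ν L} {c : H49.RD.Num} {R : ℕ} {B l : ℝ} {U : Finset (Fin L)}
    {α : Fin L → ν} {Φ : Finset ν} {O : Finset ι} {y : ι → Fin g → ν}
    (X : Ctx P c R B l U α Φ O y) (T : Finset (Fin L)) (hT : Disjoint T U)
    (E : Finset (Fin L × Fin g)) (hE : ∀ e ∈ E, e.1 ∈ T) (A : Finset (Fin g))
    (hEA : ∀ e ∈ E, e.2 ∉ A) (q : Fin g → ν) (m : ℕ) :
    (((natT P U α Φ T).filter fun z =>
      (1 / c.e0) ^ m * tht c L U.card B l ^ A.card / 2 ^ m < VV P.G (1 / c.p) O y E A q z).card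
        : ℝ) * c.h ^ (1200 * A.card) ≤
      64 ^ L * (2 ^ c.w * (2 * c.e0) ^ m) ^ (2 * c.kl) * (natT P U α Φ T).card := by
  have hM := M_ge X.nk
  have hM0 : (0 : ℝ) ≤ 1 / c.p := by linarith
  have hB := B_pos X.nk X.tk
  have hl := l_pos X.tk
  have hl1 := X.tk.l_ge
  have hh := X.nk.h_ge
  have hrho := rho_pos X.nk X.tk U.card
  have hth := tht_pos X.nk X.tk U.card
  have he1 := e0_one X.nk
  have he0 : 0 < c.e0 := by linarith
  have hw := w_pos X.nk
  have hg := X.gw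
  have hklg : 2 * c.kl * g ≤ 2 * c.K1 := by
    have h1 : c.kl * g ≤ c.K1 := (Nat.mul_le_mul_left _ hg).trans X.nk.klK
    rw [mul_assoc]
    omega
  have hv := vmom X T hT E hE A hEA (2 * c.kl) hklg q
  have hmk := Ty2_markov (natT P U α Φ T) (fun z => VV P.G (1 / c.p) O y E A q z)
    (fun z _ => Ty2_VV_nonneg _ _ hM0 _ _ _ _ _ _)
    ((1 / c.e0) ^ m * tht c L U.card B l ^ A.card / 2 ^ m) (by positivity) (2 * c.kl)
    (Classical.decPred _)
  have h1 : (1 + ((2 * c.kl : ℕ) : ℝ) * g / B) ^ g ≤ 2 ^ c.w := by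
    have e1 : ((2 * c.kl : ℕ) : ℝ) * g ≤ 2 * c.K1 := by exact_mod_cast hklg
    have e2 : (2 : ℝ) * c.K1 ≤ B := by
      refine le_trans ?_ X.tk.mB
      have hw1 : (1 : ℝ) ≤ c.w := by exact_mod_cast hw
      have hK0 : (0 : ℝ) ≤ 2 * c.K1 := by positivity
      calc (2 : ℝ) * c.K1 = 2 * c.K1 * 1 * 1 := by ring
        _ ≤ 2 * c.K1 * c.w * l := by gcongr
    have e3 : ((2 * c.kl : ℕ) : ℝ) * g / B ≤ 1 := by
      rw [div_le_one hB]
      exact e1.trans e2
    calc (1 + ((2 * c.kl : ℕ) : ℝ) * g / B) ^ g ≤ 2 ^ g :=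
          pow_le_pow_left₀ (by positivity) (by linarith) _
      _ ≤ 2 ^ c.w := pow_le_pow_right₀ (by norm_num) hg
  have h2 : c.h ^ 1200 ≤ l ^ (2 * c.kl) := by
    refine le_trans ?_ X.tk.t2
    have e1 : (1 : ℝ) ≤ (1 / c.p) ^ L * B := by
      have := one_le_pow₀ (n := L) hM
      have hB1 : 1 ≤ B := hl1.trans (l_le_B X.nk X.tk)
      nlinarith
    have e2 : (0 : ℝ) ≤ c.h ^ 1200 := by positivity
    nlinarith
  have h3 : c.h ^ (1200 * A.card) ≤ (l ^ A.card) ^ (2 * c.kl) := by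
    rw [pow_mul, ← pow_mul l, mul_comm A.card, pow_mul l]
    exact pow_le_pow_left₀ (by positivity) h2 _
  obtain ⟨F, hF⟩ : ∃ F, F = (((natT P U α Φ T).filter fun z =>
      (1 / c.e0) ^ m * tht c L U.card B l ^ A.card / 2 ^ m <
        VV P.G (1 / c.p) O y E A q z).card : ℝ) := ⟨_, rfl⟩
  have hF0 : 0 ≤ F := by rw [hF]; exact Nat.cast_nonneg _
  have hmk' : F * ((1 / c.e0) ^ m * tht c L U.card B l ^ A.card / 2 ^ m) ^ (2 * c.kl) ≤
      64 ^ L * (2 ^ c.w * (1 / rho c L U.card B) ^ A.card) ^ (2 * c.kl) *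
        (natT P U α Φ T).card := by
    rw [hF]
    refine (le_of_eq_of_le ?_ hmk).trans (hv.trans ?_)
    · congr
    · refine mul_le_mul_of_nonneg_right ?_ (Nat.cast_nonneg _)
      refine mul_le_mul_of_nonneg_left ?_ (by positivity)
      refine pow_le_pow_left₀ (by positivity) ?_ _
      exact mul_le_mul_of_nonneg_right h1 (by positivity)
  rw [← hF]
  have hr : (0 : ℝ) < ((1 / rho c L U.card B) ^ A.card / (2 * c.e0) ^ m) ^ (2 * c.kl) := by
    positivity
  refine le_of_mul_le_mul_right ?_ hr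
  calc F * c.h ^ (1200 * A.card) *
        ((1 / rho c L U.card B) ^ A.card / (2 * c.e0) ^ m) ^ (2 * c.kl)
      ≤ F * (l ^ A.card) ^ (2 * c.kl) *
        ((1 / rho c L U.card B) ^ A.card / (2 * c.e0) ^ m) ^ (2 * c.kl) := by
        gcongr
    _ = F * ((1 / c.e0) ^ m * tht c L U.card B l ^ A.card / 2 ^ m) ^ (2 * c.kl) := by
        rw [mul_assoc, ← mul_pow]
        have e : l ^ A.card * ((1 / rho c L U.card B) ^ A.card / (2 * c.e0) ^ m) =
            (1 / c.e0) ^ m * tht c L U.card B l ^ A.card / 2 ^ m := by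
          unfold tht
          rw [div_pow, div_pow, div_pow, one_pow, one_pow, mul_pow]
          field_simp
        rw [e]
    _ ≤ _ := hmk'
    _ = 64 ^ L * (2 ^ c.w * (2 * c.e0) ^ m) ^ (2 * c.kl) * (natT P U α Φ T).card *
        ((1 / rho c L U.card B) ^ A.card / (2 * c.e0) ^ m) ^ (2 * c.kl) := by
        have e : (2 : ℝ) ^ c.w * (1 / rho c L U.card B) ^ A.card =
            (2 ^ c.w * (2 * c.e0) ^ m) *
              ((1 / rho c L U.card B) ^ A.card / (2 * c.e0) ^ m) := by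
          field_simp
        rw [e, mul_pow (2 ^ c.w * (2 * c.e0) ^ m)]
        ring

open Classical in
/-- Violations with many prescribed letters. -/
theorem ty2 {P : Pl ν L} {c : H49.RD.Num} {R : ℕ} {B l : ℝ} {U : Finset (Fin L)} {α : Fin L → ν}
    {Φ : Finset ν} {O : Finset ι} {y : ι → Fin g → ν} (X : Ctx P c R B l U α Φ O y)
    (T : Finset (Fin L)) (hT0 : T.Nonempty) (hT : Disjoint T U) (A : Finset (Fin g))
    (C0 : Fin L → Finset (Fin g)) (hC : ∀ l, Disjoint (C0 l) A) (s : Fin L → Fin g)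
    (T1 : Finset (Fin L)) (hT1 : T1 ⊆ T) (hm : T1.card = min T.card c.t0)
    (hs : ∀ l ∈ T1, s l ∈ C0 l) (hA : min T.card c.t0 < 60 * A.card) :
    (((natT P U α Φ T).filter fun z =>
      ∃ q : Fin g → ν, (1 / c.e0) ^ T1.card * tht c L U.card B l ^ A.card <
        |ZS P.G (1 / c.p) c.D O y A q C0 s T1 (T \ T1) z|).card : ℝ) *
      c.h ^ (12 * min T.card c.t0) ≤ (natT P U α Φ T).card := by
  have hh := X.nk.h_ge
  have hh0 : 0 < c.h := by linarith
  have hM := M_ge X.nk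
  have hM0 : (0 : ℝ) ≤ 1 / c.p := by linarith
  by_cases hem : (natT P U α Φ T).Nonempty
  swap
  · rw [not_nonempty_iff_eq_empty] at hem
    rw [hem, filter_empty, card_empty, Nat.cast_zero, zero_mul]
  obtain ⟨z0, -⟩ := hem
  obtain ⟨i0, -⟩ := hT0
  obtain ⟨Q, hQ⟩ : ∃ Q : Finset (Fin g → ν),
      Q = Fintype.piFinset (fun j => if j ∈ A then P.Out else {z0 i0}) := ⟨_, rfl⟩
  have hQc : (Q.card : ℝ) ≤ c.h ^ (450 * A.card) := by
    have h1 : Q.card = P.Out.card ^ A.card := by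
      rw [hQ, Fintype.card_piFinset, ← Finset.prod_subset (Finset.subset_univ A)]
      · rw [← prod_const]
        refine prod_congr rfl fun j hj => ?_
        rw [if_pos hj]
      · intro j _ hj
        rw [if_neg hj, card_singleton]
    rw [h1, Nat.cast_pow, pow_mul]
    exact pow_le_pow_left₀ (Nat.cast_nonneg _) (N2_le X.ok X.nk) _
  have hth := tht_pos X.nk X.tk U.card
  have he0 : 0 < c.e0 := by
    have := e0_one X.nk
    linarith
  have hCA : ∀ (Z : Finset (Fin L)) (i : Fin L), Disjoint (Ty2_C c.D C0 s T1 Z i) A := by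
    intro Z i
    unfold Ty2_C
    split_ifs with h1 h2
    · refine (hC i).mono_left (insert_subset (hs i h1) inter_subset_left)
    · exact (hC i).mono_left inter_subset_left
    · exact hC i
  have hsub : ((natT P U α Φ T).filter fun z =>
      ∃ q : Fin g → ν, (1 / c.e0) ^ T1.card * tht c L U.card B l ^ A.card <
        |ZS P.G (1 / c.p) c.D O y A q C0 s T1 (T \ T1) z|) ⊆
      (Q ×ˢ T1.powerset).biUnion fun r => (natT P U α Φ T).filter fun z =>
        (1 / c.e0) ^ T1.card * tht c L U.card B l ^ A.card / 2 ^ T1.card <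
          VV P.G (1 / c.p) O y (Ty2_E c.D C0 s T T1 r.2) A r.1 z := by
    intro z hz
    rw [mem_filter] at hz
    obtain ⟨hz1, ⟨q, hz2⟩⟩ := hz
    have hfam : (fam O y A q).Nonempty := by
      rw [nonempty_iff_ne_empty]
      intro h
      have h0 : ZS P.G (1 / c.p) c.D O y A q C0 s T1 (T \ T1) z = 0 := by
        unfold ZS
        rw [h, sum_empty, zero_div]
      rw [h0, abs_zero] at hz2
      have : 0 < (1 / c.e0) ^ T1.card * tht c L U.card B l ^ A.card := by positivity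
      linarith
    obtain ⟨o, ho⟩ := hfam
    rw [mem_fam] at ho
    obtain ⟨Z, hZ, hlt⟩ := Ty2_ex P.G (1 / c.p) hM c.D O y A q C0 s T T1 hT1 z _ hz2
    rw [mem_biUnion]
    refine ⟨(fun j => if j ∈ A then q j else z0 i0, Z), ?_, ?_⟩
    · rw [mem_product]
      refine ⟨?_, hZ⟩
      rw [hQ, Fintype.mem_piFinset]
      intro j
      by_cases hj : j ∈ A
      · simp only [hj, if_true]
        rw [← ho.2 j hj]
        exact X.fa.out o ho.1 j
      · simp only [hj, if_false, mem_singleton]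
    · rw [mem_filter]
      refine ⟨hz1, ?_⟩
      have h1 : fam O y A (fun j => if j ∈ A then q j else z0 i0) = fam O y A q := by
        ext o'
        rw [mem_fam, mem_fam]
        constructor
        · rintro ⟨h1, h2⟩
          refine ⟨h1, fun j hj => ?_⟩
          rw [h2 j hj, if_pos hj]
        · rintro ⟨h1, h2⟩
          refine ⟨h1, fun j hj => ?_⟩
          rw [h2 j hj, if_pos hj]
      have h2 : VV P.G (1 / c.p) O y (Ty2_E c.D C0 s T T1 Z) A
          (fun j => if j ∈ A then q j else z0 i0) z =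
          VV P.G (1 / c.p) O y (Ty2_E c.D C0 s T T1 Z) A q z := by
        unfold VV
        rw [h1]
      show (1 / c.e0) ^ T1.card * tht c L U.card B l ^ A.card / 2 ^ T1.card <
        VV P.G (1 / c.p) O y (Ty2_E c.D C0 s T T1 Z) A (fun j => if j ∈ A then q j else z0 i0) z
      rw [h2]
      exact hlt
  obtain ⟨F, hF⟩ : ∃ F, F = (((natT P U α Φ T).filter fun z =>
      ∃ q : Fin g → ν, (1 / c.e0) ^ T1.card * tht c L U.card B l ^ A.card <
        |ZS P.G (1 / c.p) c.D O y A q C0 s T1 (T \ T1) z|).card : ℝ) := ⟨_, rfl⟩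
  have hF0 : 0 ≤ F := by rw [hF]; exact Nat.cast_nonneg _
  have hcard : F ≤ ∑ r ∈ Q ×ˢ T1.powerset, (((natT P U α Φ T).filter fun z =>
        (1 / c.e0) ^ T1.card * tht c L U.card B l ^ A.card / 2 ^ T1.card <
          VV P.G (1 / c.p) O y (Ty2_E c.D C0 s T T1 r.2) A r.1 z).card : ℝ) := by
    rw [hF]
    have h1 := (card_le_card hsub).trans card_biUnion_le
    exact_mod_cast h1
  have h3 : F * c.h ^ (1200 * A.card) ≤ (Q.card * 2 ^ T1.card) *
      (64 ^ L * (2 ^ c.w * (2 * c.e0) ^ T1.card) ^ (2 * c.kl) * (natT P U α Φ T).card) := by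
    refine (mul_le_mul_of_nonneg_right hcard (by positivity)).trans ?_
    rw [sum_mul]
    have h4 : ((Q.card : ℝ) * 2 ^ T1.card) = ((Q ×ˢ T1.powerset).card : ℝ) := by
      rw [card_product, card_powerset]
      push_cast
      rfl
    rw [h4, ← nsmul_eq_mul]
    refine sum_le_card_nsmul _ _ _ fun r hr => ?_
    refine Ty2_q X T hT _ (fun e he => ((Ty2_memE e).1 he).1) A (fun e he => ?_) r.1 T1.card
    exact disjoint_left.1 (hCA r.2 e.1) ((Ty2_memE e).1 he).2
  have h5 : F * c.h ^ (1200 * A.card) ≤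
      c.h ^ (450 * A.card) * (c.h ^ (2 * A.card) * (natT P U α Φ T).card) := by
    refine h3.trans ?_
    calc ((Q.card : ℝ) * 2 ^ T1.card) *
          (64 ^ L * (2 ^ c.w * (2 * c.e0) ^ T1.card) ^ (2 * c.kl) * (natT P U α Φ T).card)
        ≤ (c.h ^ (450 * A.card) * 2 ^ T1.card) *
          (64 ^ L * (2 ^ c.w * (2 * c.e0) ^ T1.card) ^ (2 * c.kl) * (natT P U α Φ T).card) := by
          refine mul_le_mul_of_nonneg_right ?_ (by positivity)
          exact mul_le_mul_of_nonneg_right hQc (by positivity)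
      _ = c.h ^ (450 * A.card) * ((2 ^ T1.card * (64 ^ L *
          (2 ^ c.w * (2 * c.e0) ^ T1.card) ^ (2 * c.kl))) * (natT P U α Φ T).card) := by ring
      _ ≤ c.h ^ (450 * A.card) * (c.h ^ (2 * A.card) * (natT P U α Φ T).card) := by
          refine mul_le_mul_of_nonneg_left ?_ (by positivity)
          refine mul_le_mul_of_nonneg_right ?_ (Nat.cast_nonneg _)
          exact Ty2_num X.nk T1.card A.card (by omega) (by omega)
  have h6 : F * c.h ^ (748 * A.card) ≤ (natT P U α Φ T).card := by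
    refine le_of_mul_le_mul_left ?_ (pow_pos hh0 (452 * A.card))
    calc c.h ^ (452 * A.card) * (F * c.h ^ (748 * A.card)) =
          F * c.h ^ (1200 * A.card) := by
          rw [show 1200 * A.card = 452 * A.card + 748 * A.card by ring, pow_add]
          ring
      _ ≤ _ := h5
      _ = c.h ^ (452 * A.card) * (natT P U α Φ T).card := by
          rw [show 452 * A.card = 450 * A.card + 2 * A.card by ring, pow_add]
          ring
  rw [← hF]
  refine le_trans ?_ h6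
  exact mul_le_mul_of_nonneg_left (pow_le_pow_right₀ hh (by omega)) hF0

end Pool.Agent.H82.RD
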