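/-
ROW RD Mv (about 120 lines; helper59). Only mv_nat is open. m := min #T t0 >= 1.
mv_nat. PROOF. MVio T z gives A, q, C, s, T1 ⊆ T, #T1 = m. WLOG C l = ∅ for l ∉ T and s l = s0 for l ∉ T1 (s0 := any element of Fin g, g >= 1 as T1 is nonempty and s l : Fin g): ZS uses C only on T and s only on T1: C l ∩ af D T1 s l (s l) for l in T1, and af uses s through ld: rows of T1 and s l (the value of af at other columns j only counts rows l' in T1) - prove ZS_congr for C = C' on T, s = s' on T1.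
 So BAD ⊆ union over (A, C, T1, s) in univ ×ˢ Fintype.piFinset (fun l => if l in T then univ else {∅}) ×ˢ (T.powersetCard m) ×ˢ Fintype.piFinset (fun l => if l in T1 then univ else {s0}) of the sets of ty1 (60 #A <= m) or ty2 (m < 60 #A; Ctx from the hypotheses), each at most h^(-12 m) #natT.
 Number: A: 2^g, C: (2^g)^#T, T1: 1 if #T <= t0 (m = #T), <= 2^L otherwise, s: g^m. If #T <= t0: cnt_few with m = #T. If #T > t0: #T <= L, m = t0: cnt_many. So the number is <= h^(4 m) and #BAD h^(8 m) <= #natT.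
-/
import Pool.Agent.H82.RD.Ty1
import Pool.Agent.H82.RD.Ty2

set_option autoImplicit false
set_option linter.unusedSectionVars false

open Finset

namespace Pool.Agent.H82.RD

open Pool.Agent.H49.RG (nbr cell pts)
open Pool.Agent.H49.RD (Pl)

variable {ν ι : Type} [Fintype ν] [DecidableEq ν] {L g : ℕ}

/-- The component of all positions in the rows `T`. -/
theorem Mv_Vf (P : Pl ν L) (c : H49.RD.Num) (O : Finset ι) (y : ι → Fin g → ν)
    (T : Finset (Fin L)) (q : Fin g → ν) (z : Fin L → ν) :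
    Vf P c O y T ∅ q z = VV P.G (1 / c.p) O y (T ×ˢ univ) ∅ q z := by
  classical
  have key : ∀ o : ι, (∏ e ∈ T ×ˢ (univ : Finset (Fin g)),
      (if P.G.Adj (z e.1) (y o e.2) then (1 / c.p) else 0)) =
      if (∀ i ∈ T, ∀ j : Fin g, P.G.Adj (z i) (y o j)) then (1 / c.p) ^ (g * T.card) else 0 := by
    intro o
    split_ifs with h
    · rw [prod_congr rfl (g := fun _ => (1 / c.p))]
      · rw [prod_const, card_product, card_univ, Fintype.card_fin, mul_comm]
      · intro e he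
        rw [if_pos (h e.1 (mem_product.1 he).1 e.2)]
    · push Not at h
      obtain ⟨i, hi, j, hj⟩ := h
      exact prod_eq_zero (i := (i, j)) (mem_product.2 ⟨hi, mem_univ _⟩) (if_neg hj)
  unfold Vf VV
  rw [fam_empty, card_empty, Nat.sub_zero, mul_div_assoc, ← mul_div_assoc]
  congr 1
  rw [sum_congr rfl (fun o _ => key o), ← sum_filter, sum_const, nsmul_eq_mul, mul_comm]
  congr 2
  · refine congrArg card (filter_congr fun o _ => ?_)
    simp

/-- Only the boxes on `T1 ∪ R` and the servers of `T1` matter. -/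
theorem Mv_ZS_congr {G : SimpleGraph ν} {M : ℝ} {D : ℕ} {O : Finset ι} {y : ι → Fin g → ν}
    {A : Finset (Fin g)} {q : Fin g → ν} {C C' : Fin L → Finset (Fin g)} {s s' : Fin L → Fin g}
    {T1 R : Finset (Fin L)} {x : Fin L → ν} (hC : ∀ l ∈ T1 ∪ R, C l = C' l)
    (hs : ∀ l ∈ T1, s l = s' l) :
    ZS G M D O y A q C s T1 R x = ZS G M D O y A q C' s' T1 R x := by
  have hld : ∀ (l : Fin L) (j : Fin g), ld T1 s l j = ld T1 s' l j := fun l j => by
    unfold ld
    refine congrArg card (filter_congr fun l' hl' => ?_)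
    rw [hs l' hl']
  have haf : ∀ (l : Fin L) (j : Fin g), af D T1 s l j = af D T1 s' l j := fun l j => by
    unfold af
    refine filter_congr fun j' _ => ?_
    rw [hld, hld]
  unfold ZS
  congr 1
  refine sum_congr rfl fun o _ => ?_
  congr 1
  · refine prod_congr rfl fun l hl => ?_
    rw [hC l (mem_union_left _ hl), hs l hl, haf]
  · refine prod_congr rfl fun l hl => ?_
    rw [hC l (mem_union_right _ hl)]

open Classical in
/-- For one component. -/
theorem Mv_one {P : Pl ν L} {c : H49.RD.Num} {R : ℕ} {B l : ℝ} {U : Finset (Fin L)}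
    {α : Fin L → ν} {Φ : Finset ν} {O : Finset ι} {y : ι → Fin g → ν} (X : Ctx P c R B l U α Φ O y)
    (T : Finset (Fin L)) (hT0 : T.Nonempty) (hT : Disjoint T U) (S : Finset (Fin L → ν))
    (A : Finset (Fin g)) (C : Fin L → Finset (Fin g)) (T1 : Finset (Fin L)) (s : Fin L → Fin g)
    (hS : ∀ z ∈ S, z ∈ natT P U α Φ T ∧ (T1 ⊆ T ∧ T1.card = min T.card c.t0 ∧
      (∀ l, Disjoint (C l) A) ∧ (∀ l ∈ T1, s l ∈ C l) ∧
      ∃ q : Fin g → ν, (1 / c.e0) ^ T1.card * tht c L U.card B l ^ A.card <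
        |ZS P.G (1 / c.p) c.D O y A q C s T1 (T \ T1) z|) ∧
        ∀ T' ⊆ T, T' ≠ T → T'.Nonempty →
          ¬ Vio P.G (1 / c.p) c.t0 c.D O y (1 / c.e0) (tht c L U.card B l) T' z) :
    (S.card : ℝ) * c.h ^ (12 * min T.card c.t0) ≤ (natT P U α Φ T).card := by
  have hh : (0 : ℝ) ≤ c.h ^ (12 * min T.card c.t0) := by
    have := X.nk.h_ge
    positivity
  rcases S.eq_empty_or_nonempty with h | h
  · subst h
    simp
  · obtain ⟨z0, hz0⟩ := h
    obtain ⟨-, ⟨hT1, hm, hC, hs, -⟩, -⟩ := hS z0 hz0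
    rcases le_or_gt (60 * A.card) (min T.card c.t0) with hA | hA
    · have h1 := ty1 X T hT0 hT A C hC s T1 hT1 hm hs hA
      refine le_trans (mul_le_mul_of_nonneg_right ?_ hh) h1
      exact_mod_cast card_le_card (fun z hz => by
        obtain ⟨a1, ⟨-, -, -, -, a2⟩, a3⟩ := hS z hz
        exact mem_filter.2 ⟨a1, a2, a3⟩)
    · have h1 := ty2 X T hT0 hT A C hC s T1 hT1 hm hs hA
      refine le_trans (mul_le_mul_of_nonneg_right ?_ hh) h1
      exact_mod_cast card_le_card (fun z hz => by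
        obtain ⟨a1, ⟨-, -, -, -, a2⟩, -⟩ := hS z hz
        exact mem_filter.2 ⟨a1, a2⟩)

/-- The number of components. -/
theorem Mv_count {c : H49.RD.Num} {R : ℕ} (hc : c.OK R L) (hg : g ≤ c.w) (T : Finset (Fin L))
    (hT0 : T.Nonempty) :
    (2 : ℝ) ^ g * (2 ^ g) ^ T.card * ((T.card.choose (min T.card c.t0) : ℕ) : ℝ) *
      (g : ℝ) ^ min T.card c.t0 ≤ c.h ^ (4 * min T.card c.t0) := by
  have hT1 : 1 ≤ T.card := card_pos.2 hT0
  rcases le_or_gt T.card c.t0 with h | h
  · rw [min_eq_left h, Nat.choose_self, Nat.cast_one, mul_one]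
    exact cnt_few hc hg _ hT1
  · rw [min_eq_right h.le]
    refine le_trans ?_ (cnt_many hc hg)
    have hL : T.card ≤ L := by
      have := card_le_univ T
      rwa [Fintype.card_fin] at this
    have h1 : ((2 : ℝ) ^ g) ^ T.card ≤ (2 ^ g) ^ L :=
      pow_le_pow_right₀ (one_le_pow₀ (by norm_num)) hL
    have h2 : ((T.card.choose c.t0 : ℕ) : ℝ) ≤ 2 ^ L := by
      have h3 : T.card.choose c.t0 ≤ 2 ^ T.card := Nat.choose_le_two_pow _ _
      calc ((T.card.choose c.t0 : ℕ) : ℝ) ≤ ((2 ^ T.card : ℕ) : ℝ) := by exact_mod_cast h3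
        _ = (2 : ℝ) ^ T.card := by push_cast; rfl
        _ ≤ 2 ^ L := pow_le_pow_right₀ (by norm_num) hL
    gcongr

open Classical in
theorem mv_nat {P : Pl ν L} {c : H49.RD.Num} {R : ℕ} (h : P.OK c) (hc : c.OK R L) {B l : ℝ}
    (ht : c.TOK L B l) (U : Finset (Fin L)) (α : Fin L → ν) (Φ : Finset ν) (hΦ : Φ ⊆ P.Out)
    (hΦc : Φ.card ≤ 3 * L) (hv : P.Val U α Φ) (hg : g ≤ c.w) (O : Finset ι) (y : ι → Fin g → ν)
    (hy : Fam P U α Φ O y (rho c L U.card B)) (T : Finset (Fin L)) (hT0 : T.Nonempty)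
    (hT : Disjoint T U) :
    (((natT P U α Φ T).filter (fun z =>
      MVio P.G (1 / c.p) c.t0 c.D O y (1 / c.e0) (tht c L U.card B l) T z)).card : ℝ) *
      c.h ^ (8 * min T.card c.t0) ≤ (natT P U α Φ T).card := by
  have X : Ctx P c R B l U α Φ O y := ⟨h, hc, ht, hΦ, hΦc, hv, hg, hy⟩
  set m := min T.card c.t0 with hm
  have hm1 : 1 ≤ m := le_min (card_pos.2 hT0) hc.t0_pos
  have hh := hc.h_ge
  have hh0 : (0 : ℝ) < c.h := by linarith
  set N := natT P U α Φ T with hN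
  set BAD := N.filter (fun z =>
      MVio P.G (1 / c.p) c.t0 c.D O y (1 / c.e0) (tht c L U.card B l) T z) with hBAD
  rcases BAD.eq_empty_or_nonempty with hB | hB
  · rw [hB]
    simp
  obtain ⟨zB, hzB⟩ := hB
  obtain ⟨-, ⟨-, -, -, sB, -⟩, -⟩ := mem_filter.1 hzB
  obtain ⟨l0, hl0⟩ := hT0
  have hT0 : T.Nonempty := ⟨l0, hl0⟩
  set s0 := sB l0 with hs0
  set CC : Finset (Fin L → Finset (Fin g)) :=
    Fintype.piFinset (fun l => if l ∈ T then univ else {∅}) with hCC
  set SS : Finset (Fin L) → Finset (Fin L → Fin g) := fun T1 =>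
    Fintype.piFinset (fun l => if l ∈ T1 then univ else {s0}) with hSS
  set J : Finset ((_ : Finset (Fin L)) × (Fin L → Fin g)) := (T.powersetCard m).sigma SS with hJ
  set I := ((univ : Finset (Finset (Fin g))) ×ˢ CC) ×ˢ J with hI
  set S : (Finset (Fin g) × (Fin L → Finset (Fin g))) × ((_ : Finset (Fin L)) × (Fin L → Fin g)) →
      Finset (Fin L → ν) := fun p =>
    N.filter (fun z => (p.2.1 ⊆ T ∧ p.2.1.card = min T.card c.t0 ∧
      (∀ l, Disjoint (p.1.2 l) p.1.1) ∧ (∀ l ∈ p.2.1, p.2.2 l ∈ p.1.2 l) ∧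
      ∃ q : Fin g → ν, (1 / c.e0) ^ p.2.1.card * tht c L U.card B l ^ p.1.1.card <
        |ZS P.G (1 / c.p) c.D O y p.1.1 q p.1.2 p.2.2 p.2.1 (T \ p.2.1) z|) ∧
        ∀ T' ⊆ T, T' ≠ T → T'.Nonempty →
          ¬ Vio P.G (1 / c.p) c.t0 c.D O y (1 / c.e0) (tht c L U.card B l) T' z) with hS
  have hone : ∀ p, ((S p).card : ℝ) * c.h ^ (12 * m) ≤ N.card := fun p =>
    Mv_one X T hT0 hT (S p) p.1.1 p.1.2 p.2.1 p.2.2 (fun z hz => mem_filter.1 hz)
  have hsub : BAD ⊆ I.biUnion S := by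
    intro z hz
    obtain ⟨hz1, ⟨A, q, C, s, T1, e1, e2, e3, e4, e5⟩, hz2⟩ := mem_filter.1 hz
    have hZ : ZS P.G (1 / c.p) c.D O y A q (fun l => if l ∈ T then C l else ∅)
        (fun l => if l ∈ T1 then s l else s0) T1 (T \ T1) z =
        ZS P.G (1 / c.p) c.D O y A q C s T1 (T \ T1) z := by
      refine Mv_ZS_congr (fun l hl => ?_) (fun l hl => ?_)
      · have : l ∈ T := by
          rcases mem_union.1 hl with hl | hl
          · exact e1 hl
          · exact (mem_sdiff.1 hl).1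
        simp only [if_pos this]
      · simp only [if_pos hl]
    refine mem_biUnion.2 ⟨((A, fun l => if l ∈ T then C l else ∅),
      ⟨T1, fun l => if l ∈ T1 then s l else s0⟩), ?_, mem_filter.2 ⟨hz1, ⟨e1, e2, ?_, ?_, q, ?_⟩, hz2⟩⟩
    · refine mem_product.2 ⟨mem_product.2 ⟨mem_univ _, ?_⟩, mem_sigma.2 ⟨?_, ?_⟩⟩
      · refine Fintype.mem_piFinset.2 fun l => ?_
        by_cases hl : l ∈ T
        · simp [hl]
        · simp [hl]
      · exact mem_powersetCard.2 ⟨e1, e2⟩
      · refine Fintype.mem_piFinset.2 fun l => ?_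
        by_cases hl : l ∈ T1
        · simp [hl]
        · simp [hl]
    · intro l
      by_cases hl : l ∈ T
      · simpa only [if_pos hl] using e3 l
      · simp only [if_neg hl]
        exact disjoint_empty_left _
    · intro l hl
      have hlT := e1 hl
      simp only [if_pos hl, if_pos hlT]
      exact e4 l hl
    · simp only
      rw [hZ]
      exact e5
  have hcard : (BAD.card : ℝ) ≤ ∑ p ∈ I, ((S p).card : ℝ) := by
    have := (card_le_card hsub).trans card_biUnion_le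
    exact_mod_cast this
  have hCCc : CC.card = (2 ^ g) ^ T.card := by
    rw [hCC, Fintype.card_piFinset]
    have : ∀ l : Fin L, (if l ∈ T then (univ : Finset (Finset (Fin g))) else {∅}).card =
        if l ∈ T then 2 ^ g else 1 := fun l => by
      split_ifs
      · rw [card_univ, Fintype.card_finset, Fintype.card_fin]
      · rfl
    rw [prod_congr rfl fun l _ => this l, ← prod_filter, prod_const]
    congr 2
    ext l
    simp
  have hSSc : ∀ T1 : Finset (Fin L), (SS T1).card = g ^ T1.card := fun T1 => by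
    rw [hSS]
    simp only
    rw [Fintype.card_piFinset]
    have : ∀ l : Fin L, (if l ∈ T1 then (univ : Finset (Fin g)) else {s0}).card =
        if l ∈ T1 then g else 1 := fun l => by
      split_ifs
      · rw [card_univ, Fintype.card_fin]
      · rfl
    rw [prod_congr rfl fun l _ => this l, ← prod_filter, prod_const]
    congr 2
    ext l
    simp
  have hJc : J.card = T.card.choose m * g ^ m := by
    rw [hJ, card_sigma, sum_congr rfl (fun T1 hT1 => by
      rw [hSSc, (mem_powersetCard.1 hT1).2]), sum_const, card_powersetCard, smul_eq_mul]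
  have hIc : (I.card : ℝ) ≤ c.h ^ (4 * m) := by
    have h1 : (I.card : ℝ) = (2 : ℝ) ^ g * (2 ^ g) ^ T.card * ((T.card.choose m : ℕ) : ℝ) *
        (g : ℝ) ^ m := by
      rw [hI, card_product, card_product, hCCc, hJc, card_univ, Fintype.card_finset,
        Fintype.card_fin]
      push_cast
      ring
    rw [h1]
    exact Mv_count hc hg T hT0
  have h4 : (BAD.card : ℝ) * c.h ^ (12 * m) ≤ c.h ^ (4 * m) * N.card := by
    calc (BAD.card : ℝ) * c.h ^ (12 * m) ≤ (∑ p ∈ I, ((S p).card : ℝ)) * c.h ^ (12 * m) :=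
          mul_le_mul_of_nonneg_right hcard (by positivity)
      _ = ∑ p ∈ I, ((S p).card : ℝ) * c.h ^ (12 * m) := by rw [sum_mul]
      _ ≤ ∑ _p ∈ I, (N.card : ℝ) := sum_le_sum fun p _ => hone p
      _ = I.card * N.card := by rw [sum_const, nsmul_eq_mul]
      _ ≤ _ := mul_le_mul_of_nonneg_right hIc (Nat.cast_nonneg _)
  have h5 : c.h ^ (12 * m) = c.h ^ (8 * m) * c.h ^ (4 * m) := by
    rw [← pow_add]
    congr 1
    ring
  rw [h5] at h4
  refine le_of_mul_le_mul_right (a := c.h ^ (4 * m)) ?_ (by positivity)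
  calc (BAD.card : ℝ) * c.h ^ (8 * m) * c.h ^ (4 * m)
      = BAD.card * (c.h ^ (8 * m) * c.h ^ (4 * m)) := by ring
    _ ≤ c.h ^ (4 * m) * N.card := h4
    _ = N.card * c.h ^ (4 * m) := by ring

open Classical in
theorem mv_full {P : Pl ν L} {c : H49.RD.Num} {R : ℕ} (h : P.OK c) (hc : c.OK R L) {B l : ℝ}
    (ht : c.TOK L B l) (U : Finset (Fin L)) (α : Fin L → ν) (Φ : Finset ν) (hΦ : Φ ⊆ P.Out)
    (hΦc : Φ.card ≤ 3 * L) (hv : P.Val U α Φ) (hg : g ≤ c.w) (O : Finset ι) (y : ι → Fin g → ν)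
    (hy : Fam P U α Φ O y (rho c L U.card B)) (T : Finset (Fin L)) (hT0 : T.Nonempty)
    (hT : Disjoint T U) :
    (((cell P.G (pts P.G P.V) U α Φ).filter (fun z =>
      MVio P.G (1 / c.p) c.t0 c.D O y (1 / c.e0) (tht c L U.card B l) T z)).card : ℝ) *
      c.h ^ (8 * min T.card c.t0) ≤ 512 ^ L * (cell P.G (pts P.G P.V) U α Φ).card := by
  classical
  have hp := hc.p_pos
  have hn := hc.n_pos
  have hh := hc.h_ge
  have hh0 : (0 : ℝ) < c.h := by linarith
  have h1 := mv_nat h hc ht U α Φ hΦ hΦc hv hg O y hy T hT0 hT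
  obtain ⟨h2, -⟩ := nat_card h hc U α Φ hΦ hΦc hv T hT
  have h3 := H49.RD.tot_le h hc U α Φ hΦ hΦc hv
  set Q : (Fin L → ν) → Prop := fun z =>
    MVio P.G (1 / c.p) c.t0 c.D O y (1 / c.e0) (tht c L U.card B l) T z with hQ
  have h4 := cell_fib P (pts P.G P.V) (Subset.refl _) U α Φ T hT Q
    (fun x x' hx hq => MVio_congr hx hq)
  set m := min T.card c.t0 with hm
  set N := (natT P U α Φ T).filter Q with hN
  set Lf := (cell P.G (pts P.G P.V) U α Φ).filter Q with hLf
  have hW0 : 0 < c.W L U.card Φ.card := H49.RD.Num.W_pos hp hn _ _ _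
  have hW1 : 0 < c.W L (U.card + T.card) Φ.card := H49.RD.Num.W_pos hp hn _ _ _
  have hT0' : 0 < c.Tot L := H49.RD.Num.Tot_pos hp hn L
  have hUT : (U ∪ T).card = U.card + T.card := card_union_of_disjoint hT.symm
  have h5 : (Lf.card : ℝ) * c.W L (U.card + T.card) Φ.card ≤ N.card * (8 ^ L * c.Tot L) := by
    rw [h4]
    push_cast
    rw [sum_mul]
    calc _ ≤ ∑ _z ∈ N, (8 : ℝ) ^ L * c.Tot L := by
          refine sum_le_sum fun z _ => ?_
          have := H49.RD.den_all_le h hc (U ∪ T) z Φ hΦ hΦc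
          unfold H49.RD.Pl.den at this
          rwa [hUT] at this
      _ = _ := by rw [sum_const, nsmul_eq_mul]
  unfold H49.RD.Pl.den at h3
  have h512 : (512 : ℝ) ^ L = 8 ^ L * 8 ^ L * 8 ^ L := by
    rw [← mul_pow, ← mul_pow]; norm_num
  set C := ((cell P.G (pts P.G P.V) U α Φ).card : ℝ) with hC
  refine le_of_mul_le_mul_right (a := c.W L (U.card + T.card) Φ.card * c.W L U.card Φ.card) ?_
    (mul_pos hW1 hW0)
  calc (Lf.card : ℝ) * c.h ^ (8 * m) * (c.W L (U.card + T.card) Φ.card * c.W L U.card Φ.card)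
      = (Lf.card * c.W L (U.card + T.card) Φ.card) * (c.h ^ (8 * m) * c.W L U.card Φ.card) := by ring
    _ ≤ (N.card * (8 ^ L * c.Tot L)) * (c.h ^ (8 * m) * c.W L U.card Φ.card) :=
        mul_le_mul_of_nonneg_right h5 (by positivity)
    _ = (N.card * c.h ^ (8 * m)) * (8 ^ L * c.Tot L * c.W L U.card Φ.card) := by ring
    _ ≤ (natT P U α Φ T).card * (8 ^ L * c.Tot L * c.W L U.card Φ.card) :=
        mul_le_mul_of_nonneg_right h1 (by positivity)
    _ = ((natT P U α Φ T).card * c.W L U.card Φ.card) * (8 ^ L * c.Tot L) := by ring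
    _ ≤ (8 ^ L * c.W L (U.card + T.card) Φ.card) * (8 ^ L * c.Tot L) :=
        mul_le_mul_of_nonneg_right h2 (by positivity)
    _ ≤ (8 ^ L * c.W L (U.card + T.card) Φ.card) * (8 ^ L * (8 ^ L * (C * c.W L U.card Φ.card))) :=
        mul_le_mul_of_nonneg_left (mul_le_mul_of_nonneg_left h3 (by positivity)) (by positivity)
    _ = 512 ^ L * C * (c.W L (U.card + T.card) Φ.card * c.W L U.card Φ.card) := by
        rw [h512]; ring

theorem mom2 {P : Pl ν L} {c : H49.RD.Num} {R : ℕ} (h : P.OK c) (hc : c.OK R L) {B l : ℝ}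
    (ht : c.TOK L B l) (U : Finset (Fin L)) (α : Fin L → ν) (Φ : Finset ν) (hΦ : Φ ⊆ P.Out)
    (hΦc : Φ.card ≤ 3 * L) (hv : P.Val U α Φ) (hg : g ≤ c.w) (O : Finset ι) (y : ι → Fin g → ν)
    (hy : Fam P U α Φ O y (rho c L U.card B)) (T : Finset (Fin L)) (hT : Disjoint T U)
    (q : Fin g → ν) :
    ∑ z ∈ natT P U α Φ T, Vf P c O y T ∅ q z ^ 2 ≤ 256 ^ L * (natT P U α Φ T).card := by
  have X : Ctx P c R B l U α Φ O y := ⟨h, hc, ht, hΦ, hΦc, hv, hg, hy⟩
  have hK := w_le_K hc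
  have h8 := K_le_L hc
  have hB := B_pos hc ht
  have h1 := vmom X T hT (T ×ˢ univ) (fun e he => (mem_product.1 he).1) ∅ (by simp) 2
    (by omega) q
  have h2 : ∀ z, Vf P c O y T ∅ q z ^ 2 = VV P.G (1 / c.p) O y (T ×ˢ univ) ∅ q z ^ 2 := fun z => by
    rw [Mv_Vf]
  rw [sum_congr rfl fun z _ => h2 z]
  refine h1.trans (mul_le_mul_of_nonneg_right ?_ (Nat.cast_nonneg _))
  rw [card_empty, pow_zero, mul_one]
  have h3 : (2 : ℝ) * g ≤ B := by
    have e1 := ht.mB
    have e2 := ht.l_ge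
    have e3 : (1 : ℝ) ≤ c.K1 := by exact_mod_cast K_pos hc
    have e4 : (g : ℝ) ≤ c.w := by exact_mod_cast hg
    have e5 : (0 : ℝ) ≤ g := Nat.cast_nonneg _
    calc (2 : ℝ) * g ≤ 2 * c.w := by linarith
      _ ≤ 2 * c.w * (c.K1 * l) := by
          refine le_mul_of_one_le_right (by linarith) ?_
          exact one_le_mul_of_one_le_of_one_le e3 e2
      _ = 2 * (c.K1 : ℝ) * c.w * l := by ring
      _ ≤ B := e1
  have h4 : (1 : ℝ) + ((2 : ℕ) : ℝ) * g / B ≤ 2 := by
    have : ((2 : ℕ) : ℝ) * g / B ≤ 1 := by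
      rw [div_le_one hB]
      exact_mod_cast h3
    linarith
  have h5 : (0 : ℝ) ≤ 1 + ((2 : ℕ) : ℝ) * g / B := by positivity
  calc (64 : ℝ) ^ L * ((1 + ((2 : ℕ) : ℝ) * g / B) ^ g) ^ 2
      ≤ 64 ^ L * ((2 : ℝ) ^ g) ^ 2 := by gcongr
    _ = 64 ^ L * 4 ^ g := by rw [← pow_mul, mul_comm g 2, pow_mul]; norm_num
    _ ≤ 64 ^ L * 4 ^ L := by
        refine mul_le_mul_of_nonneg_left (pow_le_pow_right₀ (by norm_num) (by omega)) (by positivity)
    _ = 256 ^ L := by rw [← mul_pow]; norm_num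

end Pool.Agent.H82.RD
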